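import Mathlib

/-!
# Projections of integral points from integral points (helper71)

`x`, `P`, … are integer vectors, `x ∧ P` is given by the minors `x a P b - x b P a`.
-/

set_option autoImplicit false

namespace Pool.Agent.K1H71.BP

open Finset

variable {m : Type} [Fintype m]

/-- the minors -/
def mn (x y : m → ℤ) (a b : m) : ℤ := x a * y b - x b * y a

/-- `max |x_i|` -/
def ht (x : m → ℤ) : ℕ := univ.sup fun i => (x i).natAbs

/-- `max |minor|` -/
def wd (x y : m → ℤ) : ℕ := univ.sup fun p : m × m => (mn x y p.1 p.2).natAbs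

/-- the greatest common divisor of the minors -/
def gd (x y : m → ℤ) : ℤ := univ.gcd fun p : m × m => mn x y p.1 p.2

/-- `x` is primitive -/
def Pr (x : m → ℤ) : Prop := univ.gcd x = 1

/-- the exceptional height -/
noncomputable def eh (x y : m → ℤ) : ℝ := (ht x : ℝ) * (gd x y : ℝ) / (wd x y : ℝ)

theorem le_ht (x : m → ℤ) (i : m) : |x i| ≤ (ht x : ℤ) := by
  have h : (x i).natAbs ≤ ht x := le_sup (f := fun i => (x i).natAbs) (mem_univ i)
  rw [Int.abs_eq_natAbs]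
  exact_mod_cast h

theorem ht_le {x : m → ℤ} {T : ℤ} (hT : 0 ≤ T) (h : ∀ i, |x i| ≤ T) : (ht x : ℤ) ≤ T := by
  obtain ⟨n, rfl⟩ := Int.eq_ofNat_of_zero_le hT
  have : ht x ≤ n := by
    refine Finset.sup_le fun i _ => ?_
    have := h i
    rw [Int.abs_eq_natAbs] at this
    exact_mod_cast this
  exact_mod_cast this

theorem le_wd (x y : m → ℤ) (a b : m) : |mn x y a b| ≤ (wd x y : ℤ) := by
  have h : (mn x y a b).natAbs ≤ wd x y :=
    le_sup (f := fun p : m × m => (mn x y p.1 p.2).natAbs) (mem_univ (a, b))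
  rw [Int.abs_eq_natAbs]
  exact_mod_cast h

theorem wd_le {x y : m → ℤ} {T : ℤ} (hT : 0 ≤ T) (h : ∀ a b, |mn x y a b| ≤ T) :
    (wd x y : ℤ) ≤ T := by
  obtain ⟨n, rfl⟩ := Int.eq_ofNat_of_zero_le hT
  have : wd x y ≤ n := by
    refine Finset.sup_le fun p _ => ?_
    have := h p.1 p.2
    rw [Int.abs_eq_natAbs] at this
    exact_mod_cast this
  exact_mod_cast this

theorem gd_dvd (x y : m → ℤ) (a b : m) : gd x y ∣ mn x y a b :=
  Finset.gcd_dvd (f := fun p : m × m => mn x y p.1 p.2) (mem_univ (a, b))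

theorem dvd_gd {x y : m → ℤ} {d : ℤ} (h : ∀ a b, d ∣ mn x y a b) : d ∣ gd x y :=
  Finset.dvd_gcd fun p _ => h p.1 p.2

theorem gd_nonneg (x y : m → ℤ) : 0 ≤ gd x y :=
  Int.nonneg_of_normalize_eq_self Finset.normalize_gcd

theorem gd_pos {x y : m → ℤ} (h : ∃ a b, mn x y a b ≠ 0) : 0 < gd x y := by
  obtain ⟨a, b, h⟩ := h
  refine lt_of_le_of_ne (gd_nonneg x y) fun h0 => h ?_
  have := gd_dvd x y a b
  rw [← h0] at this
  exact zero_dvd_iff.1 this

theorem gd_le_wd {x y : m → ℤ} (h : ∃ a b, mn x y a b ≠ 0) : gd x y ≤ wd x y := by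
  obtain ⟨a, b, h⟩ := h
  have h1 := Int.le_of_dvd (abs_pos.2 h) ((dvd_abs _ _).2 (gd_dvd x y a b))
  exact h1.trans (le_wd x y a b)

theorem wd_pos {x y : m → ℤ} (h : ∃ a b, mn x y a b ≠ 0) : 0 < (wd x y : ℤ) :=
  (gd_pos h).trans_le (gd_le_wd h)

theorem wd_le_ht (x y : m → ℤ) : (wd x y : ℤ) ≤ 2 * ht x * ht y := by
  refine wd_le (by positivity) fun a b => ?_
  have h1 := le_ht x a
  have h2 := le_ht x b
  have h3 := le_ht y a
  have h4 := le_ht y b
  have h5 : |x a * y b| ≤ ht x * ht y := by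
    rw [abs_mul]
    exact mul_le_mul h1 h4 (abs_nonneg _) (by positivity)
  have h6 : |x b * y a| ≤ ht x * ht y := by
    rw [abs_mul]
    exact mul_le_mul h2 h3 (abs_nonneg _) (by positivity)
  unfold mn
  calc |x a * y b - x b * y a| ≤ |x a * y b| + |x b * y a| := abs_sub _ _
    _ ≤ _ := by linarith

/-- **the fundamental identity** -/
theorem mn_id (x P Q : m → ℤ) (a b d : m) :
    x a * mn P Q b d = P a * mn x Q b d + Q d * mn x P a b - Q b * mn x P a d := by
  unfold mn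
  ring

theorem dvd_of_prim {x : m → ℤ} (hx : Pr x) {d M : ℤ} (h : ∀ a, d ∣ x a * M) : d ∣ M := by
  have h1 : d ∣ univ.gcd fun a => x a * M := Finset.dvd_gcd fun a _ => h a
  rw [Finset.gcd_mul_right, hx, one_mul] at h1
  exact (dvd_normalize_iff).1 h1

/-- a common divisor of `x ∧ P` and `x ∧ Q` divides `P ∧ Q` -/
theorem dvd_mn {x P Q : m → ℤ} (hx : Pr x) {d : ℤ} (h1 : d ∣ gd x P) (h2 : d ∣ gd x Q) :
    d ∣ gd P Q := by
  refine dvd_gd fun b e => dvd_of_prim hx fun a => ?_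
  rw [mn_id]
  have e1 := h2.trans (gd_dvd x Q b e)
  have e2 := h1.trans (gd_dvd x P a b)
  have e3 := h1.trans (gd_dvd x P a e)
  exact dvd_sub (dvd_add (e1.mul_left _) (e2.mul_left _)) (e3.mul_left _)

theorem mn_comm (x y : m → ℤ) (a b : m) : mn x y a b = -mn y x a b := by
  unfold mn
  ring

/-- `x`, `x'` both near `P` modulo `g` -/
theorem dvd_mul_mn {x x' P : m → ℤ} {g : ℤ} (h1 : g ∣ gd x P) (h2 : g ∣ gd x' P) (a b d : m) :
    g ∣ P a * mn x x' b d := by
  rw [mn_id P x x' a b d]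
  have e1 : g ∣ mn P x' b d := by
    rw [mn_comm]
    exact (dvd_neg).2 (h2.trans (gd_dvd _ _ _ _))
  have e2 : ∀ b, g ∣ mn P x a b := fun b => by
    rw [mn_comm]
    exact (dvd_neg).2 (h1.trans (gd_dvd _ _ _ _))
  exact dvd_sub (dvd_add (e1.mul_left _) ((e2 b).mul_left _)) ((e2 d).mul_left _)

/-- a point is not near two points -/
theorem ht_le_add [Nonempty m] {x P Q : m → ℤ} (h : ∃ a b, mn P Q a b ≠ 0) :
    (ht x : ℤ) ≤ ht P * wd x Q + 2 * ht Q * wd x P := by
  obtain ⟨b, d, h⟩ := h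
  have h1 : 1 ≤ |mn P Q b d| := Int.one_le_abs h
  refine ht_le (by positivity) fun a => ?_
  have h2 : |x a| ≤ |x a * mn P Q b d| := by
    rw [abs_mul]
    exact le_mul_of_one_le_right (abs_nonneg _) h1
  refine h2.trans ?_
  rw [mn_id]
  have e1 : |P a * mn x Q b d| ≤ ht P * wd x Q := by
    rw [abs_mul]
    exact mul_le_mul (le_ht _ _) (le_wd _ _ _ _) (abs_nonneg _) (by positivity)
  have e2 : ∀ d e, |Q d * mn x P a e| ≤ ht Q * wd x P := fun d e => by
    rw [abs_mul]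
    exact mul_le_mul (le_ht _ _) (le_wd _ _ _ _) (abs_nonneg _) (by positivity)
  calc |P a * mn x Q b d + Q d * mn x P a b - Q b * mn x P a d|
      ≤ |P a * mn x Q b d + Q d * mn x P a b| + |Q b * mn x P a d| := abs_sub _ _
    _ ≤ |P a * mn x Q b d| + |Q d * mn x P a b| + |Q b * mn x P a d| := by
        gcongr
        exact abs_add_le _ _
    _ ≤ _ := by
        have := e2 d b
        have := e2 b d
        linarith

theorem ne_zero_of_prim {x : m → ℤ} (hx : Pr x) : ∃ i, x i ≠ 0 := by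
  by_contra h
  push Not at h
  have h1 : univ.gcd x = 0 := Finset.gcd_eq_zero_iff.2 fun i _ => h i
  unfold Pr at hx
  rw [h1] at hx
  exact zero_ne_one hx

theorem one_le_ht {x : m → ℤ} (h : ∃ i, x i ≠ 0) : (1 : ℤ) ≤ ht x := by
  obtain ⟨i, h⟩ := h
  exact (Int.one_le_abs h).trans (le_ht x i)

theorem eh_nonneg (x y : m → ℤ) : 0 ≤ eh x y := by
  unfold eh
  have := gd_nonneg x y
  positivity

/-- the primitive vector of a nonzero vector -/
theorem exists_prim {v : m → ℤ} (hv : ∃ i, v i ≠ 0) :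
    ∃ t : m → ℤ, Pr t ∧ 0 < univ.gcd v ∧ ∀ i, v i = univ.gcd v * t i := by
  obtain ⟨i0, hi0⟩ := hv
  obtain ⟨t, h1, h2⟩ := Finset.extract_gcd v (⟨i0, mem_univ i0⟩ : (univ : Finset m).Nonempty)
  refine ⟨t, h2, ?_, fun i => h1 i (mem_univ i)⟩
  have h3 : 0 ≤ univ.gcd v := Int.nonneg_of_normalize_eq_self Finset.normalize_gcd
  refine lt_of_le_of_ne h3 fun h0 => hi0 ?_
  rw [h1 i0 (mem_univ i0), ← h0, zero_mul]

theorem gcd_smul_prim {t : m → ℤ} (ht' : Pr t) {c : ℤ} (hc : 0 ≤ c) :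
    univ.gcd (fun i => c * t i) = c := by
  rw [Finset.gcd_mul_left, ht', mul_one]
  exact Int.normalize_of_nonneg hc

end Pool.Agent.K1H71.BP
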