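import Pool.Agent.K1H71.BP.Span
import Pool.Agent.H505R2.DivB

/-!
# Counting points with given exceptional heights, I (helper71)
-/

set_option autoImplicit false
set_option linter.unusedSectionVars false

namespace Pool.Agent.K1H71.BP

open Finset

variable {ι : Type} [DecidableEq ι] [Fintype ι]

/-- the height of a projection -/
theorem ht_proj_le {n : ℕ} {P : Fin (n + 1) → ℤ} {a : Fin (n + 1)} (ha : P a ≠ 0)
    {x : Fin (n + 1) → ℤ} {t : Fin n → ℤ} (hxP : ∃ b d, mn x P b d ≠ 0) (htp : Pr t)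
    (ht0 : ∀ i, pj P a x i = univ.gcd (pj P a x) * t i) :
    (ht t : ℝ) ≤ 2 * ht x * ht P := by
  set c := univ.gcd (pj P a x) with hc
  have hc0 : 0 ≤ c := Int.nonneg_of_normalize_eq_self Finset.normalize_gcd
  have hcpos : 0 < c := by
    refine lt_of_le_of_ne hc0 fun h0 => ?_
    obtain ⟨i, hi⟩ := pj_ne ha hxP
    rw [ht0, ← h0, zero_mul] at hi
    exact hi rfl
  have h1 := ht_mul_left hc0 t ht0 (ne_zero_of_prim htp)
  have h2 := ht_pj_le (P := P) (a := a) x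
  have h3 := wd_le_ht x P
  have h4 : (ht t : ℤ) ≤ 2 * ht x * ht P := by
    calc (ht t : ℤ) ≤ c * ht t := by
          have : (0 : ℤ) ≤ ht t := by positivity
          nlinarith
      _ = ht (pj P a x) := h1.symm
      _ ≤ _ := h2.trans h3
  exact_mod_cast h4

/-- a point above `t` -/
structure Ov {n : ℕ} (P : Fin (n + 1) → ℤ) (a : Fin (n + 1)) (J : Finset ι)
    (Q : ι → Fin (n + 1) → ℤ) (t : Fin n → ℤ) (T : ℝ) (E : ι → ℝ) (x : Fin (n + 1) → ℤ) :
    Prop where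
  pr : Pr x
  eq : ∀ i, pj P a x i = univ.gcd (pj P a x) * t i
  off : ∃ b d, mn x P b d ≠ 0
  le : (ht x : ℝ) ≤ T
  offq : ∀ j ∈ J, ∃ b d, mn x (Q j) b d ≠ 0
  ge : ∀ j ∈ J, E j ≤ eh x (Q j)

theorem fibre_sum {n : ℕ} (P : Fin (n + 1) → ℤ) (a : Fin (n + 1)) (ha : P a ≠ 0) (J : Finset ι)
    (hJ : J.Nonempty) (Q : ι → Fin (n + 1) → ℤ) (hQ : ∀ j ∈ J, ∃ i, Q j i ≠ 0)
    (hPQ : ∀ j ∈ J, ∃ b d, mn P (Q j) b d ≠ 0)
    (hQQ : ∀ j ∈ J, ∀ k ∈ J, j ≠ k → ∃ b d, mn (Q j) (Q k) b d ≠ 0) {ε : ℝ} (hε : 0 < ε) :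
    ∃ C : ℝ, 0 < C ∧ ∀ (t : Fin n → ℤ), Pr t →
      (∀ j ∈ J, ∃ b d, mn t (pj P a (Q j)) b d ≠ 0) → ∀ T : ℝ, 1 ≤ T →
      ∀ E : ι → ℝ, (∀ j ∈ J, 0 < E j) → ∀ S : Finset (Fin (n + 1) → ℤ),
      (∀ x ∈ S, Ov P a J Q t T E x) →
      (S.card : ℝ) ≤ C * T ^ ε * (1 + T ^ 2 / (ht t * ∏ j ∈ J, E j)) := by
  classical
  obtain ⟨C0, hC0, hf⟩ := fibre P a ha J Q hQ hPQ hQQ
  set mm : ℕ := Fintype.card ι with hmm
  set δ : ℝ := ε / (mm + 1) with hδ
  have hδ0 : 0 < δ := by positivity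
  obtain ⟨Cd, hCd1, hCd⟩ := Pool.Agent.H505R2.div_bound hδ0
  set K : ℝ := 1 + ∑ j ∈ J, |(P a : ℝ)| * (gd P (Q j) : ℝ) * (4 * ht P * ht (pj P a (Q j))) with hK
  have hgdR : ∀ y z : Fin (n + 1) → ℤ, (0 : ℝ) ≤ (gd y z : ℝ) := fun y z => by
    exact_mod_cast gd_nonneg y z
  have hterm : ∀ j, 0 ≤ |(P a : ℝ)| * (gd P (Q j) : ℝ) * (4 * ht P * ht (pj P a (Q j))) := by
    intro j
    have := hgdR P (Q j)
    positivity
  have hK1 : 1 ≤ K := by
    have : 0 ≤ ∑ j ∈ J, |(P a : ℝ)| * (gd P (Q j) : ℝ) * (4 * ht P * ht (pj P a (Q j))) :=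
      Finset.sum_nonneg fun j _ => hterm j
    rw [hK]
    linarith
  refine ⟨(Cd * K ^ δ) ^ mm * J.card * (2 + C0), ?_, ?_⟩
  · have : 0 < J.card := Finset.card_pos.2 hJ
    positivity
  intro t htp htQ T hT E hE S hS
  have hprodE : 0 < ∏ j ∈ J, E j := Finset.prod_pos hE
  have htt : (1 : ℝ) ≤ ht t := by
    have := one_le_ht (ne_zero_of_prim htp)
    exact_mod_cast this
  set R : ℝ := T ^ 2 / (ht t * ∏ j ∈ J, E j) with hR
  have hR0 : 0 ≤ R := by positivity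
  rcases S.eq_empty_or_nonempty with rfl | ⟨x0, hx0⟩
  · simp only [Finset.card_empty, Nat.cast_zero]
    positivity
  have hT0 : 0 < T := by linarith
  have htT : (ht t : ℝ) ≤ 2 * ht P * T := by
    have h1 := ht_proj_le ha (hS x0 hx0).off htp (hS x0 hx0).eq
    have h2 := (hS x0 hx0).le
    have : (0 : ℝ) ≤ ht P := by positivity
    nlinarith
  -- the modulus of the class
  set D : ι → ℕ := fun j => (P a * gd P (Q j) * gd t (pj P a (Q j))).natAbs with hD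
  have hD0 : ∀ j ∈ J, D j ≠ 0 := by
    intro j hj
    rw [hD]
    refine Int.natAbs_ne_zero.2 (mul_ne_zero (mul_ne_zero ha ?_) ?_)
    · exact (gd_pos (hPQ j hj)).ne'
    · exact (gd_pos (htQ j hj)).ne'
  have hDle : ∀ j ∈ J, (D j : ℝ) ≤ K * T := by
    intro j hj
    have h1 : (gd t (pj P a (Q j)) : ℤ) ≤ 2 * ht t * ht (pj P a (Q j)) :=
      (gd_le_wd (htQ j hj)).trans (wd_le_ht _ _)
    have h1' : (gd t (pj P a (Q j)) : ℝ) ≤ 2 * ht t * ht (pj P a (Q j)) := by exact_mod_cast h1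
    have h0' : (0 : ℝ) ≤ gd t (pj P a (Q j)) := by exact_mod_cast gd_nonneg _ _
    have h2 : (D j : ℝ) = |(P a : ℝ)| * (gd P (Q j) : ℝ) * (gd t (pj P a (Q j)) : ℝ) := by
      rw [hD]
      simp only [Nat.cast_natAbs, Int.cast_abs, Int.cast_mul]
      rw [abs_mul, abs_mul, abs_of_nonneg (hgdR P (Q j)), abs_of_nonneg h0']
    rw [h2]
    have h3 : (gd t (pj P a (Q j)) : ℝ) ≤ (4 * ht P * ht (pj P a (Q j))) * T := by
      refine h1'.trans ?_
      have : (0 : ℝ) ≤ ht (pj P a (Q j)) := by positivity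
      nlinarith
    calc |(P a : ℝ)| * (gd P (Q j) : ℝ) * (gd t (pj P a (Q j)) : ℝ)
        ≤ |(P a : ℝ)| * (gd P (Q j) : ℝ) * ((4 * ht P * ht (pj P a (Q j))) * T) :=
          mul_le_mul_of_nonneg_left h3 (mul_nonneg (abs_nonneg _) (hgdR _ _))
      _ = (|(P a : ℝ)| * (gd P (Q j) : ℝ) * (4 * ht P * ht (pj P a (Q j)))) * T := by ring
      _ ≤ K * T := by
          refine mul_le_mul_of_nonneg_right ?_ hT0.le
          have := Finset.single_le_sum (f := fun j => |(P a : ℝ)| * (gd P (Q j) : ℝ) *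
            (4 * ht P * ht (pj P a (Q j)))) (fun j _ => hterm j) hj
          rw [hK]
          linarith
  set 𝒢 : Finset (ι → ℕ) := Fintype.piFinset fun j => if j ∈ J then (D j).divisors else {0}
    with h𝒢
  set Y : ℝ := Cd * (K * T) ^ δ with hY
  have hKT : 1 ≤ K * T := by nlinarith
  have hY1 : 1 ≤ Y := by
    have : 1 ≤ (K * T) ^ δ := Real.one_le_rpow hKT hδ0.le
    rw [hY]
    nlinarith
  have hcard𝒢 : (𝒢.card : ℝ) ≤ Y ^ mm := by
    rw [h𝒢, Fintype.card_piFinset, Nat.cast_prod]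
    refine (Finset.prod_le_prod (fun _ _ => by positivity) (g := fun _ => Y) ?_).trans ?_
    · intro j _
      split_ifs with hj
      · refine (hCd (D j) (hD0 j hj)).trans ?_
        rw [hY]
        refine mul_le_mul_of_nonneg_left ?_ (by linarith)
        exact Real.rpow_le_rpow (by positivity) (hDle j hj) hδ0.le
      · simpa using hY1
    · rw [Finset.prod_const, hmm, Finset.card_univ]
  -- the class of a point
  have hargmin : ∀ x : Fin (n + 1) → ℤ, ∃ j0 ∈ J, ∀ j ∈ J, wd x (Q j0) ≤ wd x (Q j) :=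
    fun x => Finset.exists_min_image J (fun j => wd x (Q j)) hJ
  choose am ham1 ham2 using hargmin
  set ψ : (Fin (n + 1) → ℤ) → (ι → ℕ) × ι := fun x =>
    (fun j => if j ∈ J then (gd x (Q j)).natAbs else 0, am x) with hψ
  have hmaps : ∀ x ∈ S, ψ x ∈ 𝒢 ×ˢ J := by
    intro x hx
    rw [mem_product]
    refine ⟨?_, ham1 x⟩
    rw [h𝒢, Fintype.mem_piFinset]
    intro j
    simp only [hψ]
    split_ifs with hj
    · rw [Nat.mem_divisors]
      exact ⟨Int.natAbs_dvd_natAbs.2 (gd_dvd_mul (hS x hx).pr (hS x hx).eq), hD0 j hj⟩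
    · simp
  have hfib : ∀ q ∈ 𝒢 ×ˢ J, (((S.filter fun x => ψ x = q).card : ℕ) : ℝ) ≤ 2 + C0 * R := by
    intro q hq
    rw [mem_product] at hq
    refine hf t htp (fun j => (q.1 j : ℤ)) q.2 hq.2 T hT0 E hE _ ?_
    intro x hx
    rw [mem_filter] at hx
    have h0 := hS x hx.1
    refine ⟨h0.pr, h0.eq, h0.off, h0.le, ?_, h0.offq, h0.ge, ?_⟩
    · intro j hj
      have h1 : q.1 j = (gd x (Q j)).natAbs := by
        rw [← hx.2]
        simp [hψ, hj]
      rw [h1, Int.natAbs_of_nonneg (gd_nonneg _ _)]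
    · intro j hj
      have h1 : q.2 = am x := by
        rw [← hx.2]
      rw [h1]
      exact ham2 x j hj
  have hsum : (S.card : ℝ) ≤ (𝒢.card * J.card : ℝ) * (2 + C0 * R) := by
    rw [Finset.card_eq_sum_card_fiberwise (f := ψ) (s := S) (t := 𝒢 ×ˢ J) (by
      intro x hx
      exact hmaps x hx), Nat.cast_sum]
    refine (Finset.sum_le_sum hfib).trans ?_
    rw [Finset.sum_const, nsmul_eq_mul, card_product, Nat.cast_mul]
  refine hsum.trans ?_
  have hYm : Y ^ mm ≤ (Cd * K ^ δ) ^ mm * T ^ ε := by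
    have h1 : Y = (Cd * K ^ δ) * T ^ δ := by
      rw [hY, Real.mul_rpow (by linarith) hT0.le]
      ring
    rw [h1, mul_pow]
    refine mul_le_mul_of_nonneg_left ?_ (by positivity)
    rw [← Real.rpow_natCast, ← Real.rpow_mul hT0.le]
    refine Real.rpow_le_rpow_of_exponent_le hT ?_
    rw [hδ, div_mul_eq_mul_div, div_le_iff₀ (by positivity)]
    nlinarith
  have h1 : (𝒢.card : ℝ) ≤ (Cd * K ^ δ) ^ mm * T ^ ε := hcard𝒢.trans hYm
  have h2 : 2 + C0 * R ≤ (2 + C0) * (1 + R) := by nlinarith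
  calc (𝒢.card * J.card : ℝ) * (2 + C0 * R)
      ≤ ((Cd * K ^ δ) ^ mm * T ^ ε * J.card) * ((2 + C0) * (1 + R)) := by
        refine mul_le_mul ?_ h2 (by positivity) (by positivity)
        exact mul_le_mul_of_nonneg_right h1 (by positivity)
    _ = _ := by ring

end Pool.Agent.K1H71.BP
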