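import Pool.Agent.K1H71.BP.Claim

/-!
# Counting points with given exceptional heights, II (helper71)
-/

set_option autoImplicit false
set_option linter.unusedSectionVars false

namespace Pool.Agent.K1H71.BP

open Finset

variable {ι : Type} [DecidableEq ι] [Fintype ι]

/-- the points are in general enough position -/
structure Gen (n : ℕ) (J : Finset ι) (Q : ι → Fin (n + 2) → ℤ) : Prop where
  card : n + 1 ≤ J.card
  ind : ∀ s ⊆ J, s.card = n → ∀ i ∈ J, i ∉ s → Off Q s (Q i)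

/-- the conditions on the points counted -/
structure Pt (n : ℕ) (J : Finset ι) (Q : ι → Fin (n + 2) → ℤ) (T : ℝ) (E : ι → ℝ)
    (x : Fin (n + 2) → ℤ) : Prop where
  pr : Pr x
  le : (ht x : ℝ) ≤ T
  off : ∀ s ⊆ J, s.card = n + 1 → Off Q s x
  ge : ∀ j ∈ J, E j ≤ eh x (Q j)

theorem Gen.ne_zero {n : ℕ} {J : Finset ι} {Q : ι → Fin (n + 3) → ℤ} (h : Gen (n + 1) J Q)
    {j : ι} (hj : j ∈ J) : ∃ i, Q j i ≠ 0 := by
  have h1 : n + 1 ≤ (J.erase j).card := by
    rw [Finset.card_erase_of_mem hj]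
    have := h.card
    omega
  obtain ⟨s, hs, hsc⟩ := Finset.exists_subset_card_eq h1
  exact (h.ind s (hs.trans (Finset.erase_subset _ _)) hsc j hj fun h2 =>
    Finset.notMem_erase j J (hs h2)).ne_zero

theorem Gen.mn_ne {n : ℕ} {J : Finset ι} {Q : ι → Fin (n + 3) → ℤ} (h : Gen (n + 1) J Q)
    {j k : ι} (hj : j ∈ J) (hk : k ∈ J) (hjk : j ≠ k) : ∃ b d, mn (Q j) (Q k) b d ≠ 0 := by
  have h1 : n + 1 ≤ (J.erase j).card := by
    rw [Finset.card_erase_of_mem hj]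
    have := h.card
    omega
  have hk' : k ∈ J.erase j := Finset.mem_erase.2 ⟨hjk.symm, hk⟩
  obtain ⟨s, hks, hs, hsc⟩ := Finset.exists_subsuperset_card_eq
    (Finset.singleton_subset_iff.2 hk') (by simp) h1
  refine (h.ind s (hs.trans (Finset.erase_subset _ _)) hsc j hj fun h2 =>
    Finset.notMem_erase j J (hs h2)).mn_ne (Finset.singleton_subset_iff.1 hks) (h.ne_zero hk)

theorem Pt.mn_ne {n : ℕ} {J : Finset ι} {Q : ι → Fin (n + 3) → ℤ} (hJ : Gen (n + 1) J Q)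
    {T : ℝ} {E : ι → ℝ} {x : Fin (n + 3) → ℤ} (h : Pt (n + 1) J Q T E x) {j : ι} (hj : j ∈ J) :
    ∃ b d, mn x (Q j) b d ≠ 0 := by
  obtain ⟨s, hks, hs, hsc⟩ := Finset.exists_subsuperset_card_eq
    (Finset.singleton_subset_iff.2 hj) (by simp) (show n + 1 + 1 ≤ J.card from hJ.card)
  exact (h.off s hs hsc).mn_ne (Finset.singleton_subset_iff.1 hks) (hJ.ne_zero hj)

theorem Gen.proj {n : ℕ} {J : Finset ι} {Q : ι → Fin (n + 3) → ℤ} (h : Gen (n + 1) J Q)
    {i0 : ι} (hi0 : i0 ∈ J) {a : Fin (n + 3)} (ha : Q i0 a ≠ 0) :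
    Gen n (J.erase i0) (fun j => pj (Q i0) a (Q j)) := by
  refine ⟨?_, ?_⟩
  · rw [Finset.card_erase_of_mem hi0]
    have := h.card
    omega
  · intro s hs hsc i hi his
    have hs0 : i0 ∉ s := fun h1 => Finset.notMem_erase i0 J (hs h1)
    refine Off.pj ha (h.ind (insert i0 s) ?_ ?_ i (Finset.mem_of_mem_erase hi) ?_)
    · exact Finset.insert_subset hi0 (hs.trans (Finset.erase_subset _ _))
    · rw [Finset.card_insert_of_notMem hs0, hsc]
    · rw [Finset.mem_insert]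
      rintro (h1 | h1)
      · exact (Finset.mem_erase.1 hi).1 h1
      · exact his h1

theorem claim_zero (J : Finset ι) (Q : ι → Fin 2 → ℤ) {ε : ℝ} (hε : 0 < ε) {T : ℝ} (hT : 1 ≤ T)
    (E : ι → ℝ) (S : Finset (Fin 2 → ℤ)) (hS : ∀ x ∈ S, Pt 0 J Q T E x) :
    (S.card : ℝ) ≤ 9 * T ^ (2 + ε) := by
  classical
  set N : ℕ := ⌊T⌋₊ with hN
  have hNT : (N : ℝ) ≤ T := Nat.floor_le (by linarith)
  set I : Finset ℤ := Finset.Icc (-(N : ℤ)) N with hI
  have hsub : S ⊆ Fintype.piFinset fun _ : Fin 2 => I := by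
    intro x hx
    rw [Fintype.mem_piFinset]
    intro i
    have h1 : ht x ≤ N := Nat.le_floor (hS x hx).le
    have h2 := le_ht x i
    rw [hI, Finset.mem_Icc, ← abs_le]
    exact h2.trans (by exact_mod_cast h1)
  have h1 := Finset.card_le_card hsub
  rw [Fintype.card_piFinset, Finset.prod_const, Finset.card_univ, Fintype.card_fin, hI,
    Int.card_Icc] at h1
  have h2 : ((N : ℤ) + 1 - -(N : ℤ)).toNat = 2 * N + 1 := by omega
  rw [h2] at h1
  have h3 : (S.card : ℝ) ≤ (2 * N + 1) ^ 2 := by exact_mod_cast h1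
  have h4 : (2 * (N : ℝ) + 1) ^ 2 ≤ 9 * T ^ 2 := by
    have : (0 : ℝ) ≤ N := by positivity
    nlinarith
  have h5 : T ^ 2 ≤ T ^ (2 + ε) := by
    rw [← Real.rpow_natCast]
    refine Real.rpow_le_rpow_of_exponent_le hT ?_
    push_cast
    linarith
  linarith

/-- the product of maxima scales -/
theorem prod_max_le {n : ℕ} (u v : Fin n → ℝ) {K : ℝ} {w : ℝ} (hw : 0 ≤ w)
    (hv : ∀ k, 0 ≤ v k) (h : ∀ k, u k ≤ K * max (v k) w) (hu : ∀ k, 0 ≤ u k) :
    ∏ k, u k ≤ K ^ n * ∏ k, max (v k) w := by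
  have : K ^ n = ∏ _k : Fin n, K := by simp
  rw [this, ← Finset.prod_mul_distrib]
  exact Finset.prod_le_prod (fun k _ => hu k) fun k _ => h k

end Pool.Agent.K1H71.BP
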