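import Pool.Agent.K1H71.BP.Claim2

/-!
# Counting points with given exceptional heights, III (helper71)
-/

set_option autoImplicit false
set_option linter.unusedSectionVars false

namespace Pool.Agent.K1H71.BP

open Finset

variable {ι : Type} [DecidableEq ι] [Fintype ι]

/-- the projection of a counted point -/
theorem Pt.proj_off {n : ℕ} {J : Finset ι} {Q : ι → Fin (n + 3) → ℤ}
    {i0 : ι} (hi0 : i0 ∈ J) {a : Fin (n + 3)} (ha : Q i0 a ≠ 0) {T : ℝ} {E : ι → ℝ}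
    {x : Fin (n + 3) → ℤ} (h : Pt (n + 1) J Q T E x) {t : Fin (n + 2) → ℤ}
    (ht0 : ∀ i, pj (Q i0) a x i = univ.gcd (pj (Q i0) a x) * t i) {s : Finset ι}
    (hs : s ⊆ J.erase i0) (hsc : s.card = n + 1) :
    Off (fun j => pj (Q i0) a (Q j)) s t := by
  have hs0 : i0 ∉ s := fun h1 => Finset.notMem_erase i0 J (hs h1)
  refine Off.of_smul ht0 (Off.pj ha (h.off (insert i0 s) ?_ ?_))
  · exact Finset.insert_subset hi0 (hs.trans (Finset.erase_subset _ _))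
  · rw [Finset.card_insert_of_notMem hs0, hsc]

theorem Pt.proj_mn {n : ℕ} {J : Finset ι} {Q : ι → Fin (n + 3) → ℤ} (hJ : Gen (n + 1) J Q)
    {i0 : ι} (hi0 : i0 ∈ J) {a : Fin (n + 3)} (ha : Q i0 a ≠ 0) {T : ℝ} {E : ι → ℝ}
    {x : Fin (n + 3) → ℤ} (h : Pt (n + 1) J Q T E x) {t : Fin (n + 2) → ℤ}
    (ht0 : ∀ i, pj (Q i0) a x i = univ.gcd (pj (Q i0) a x) * t i) {j : ι}
    (hj : j ∈ J.erase i0) : ∃ b d, mn t (pj (Q i0) a (Q j)) b d ≠ 0 := by
  have h1 : n + 1 ≤ (J.erase i0).card := by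
    rw [Finset.card_erase_of_mem hi0]
    have := hJ.card
    omega
  obtain ⟨s, hjs, hs, hsc⟩ := Finset.exists_subsuperset_card_eq
    (Finset.singleton_subset_iff.2 hj) (by simp) h1
  have h2 := h.proj_off hi0 ha ht0 hs hsc
  exact h2.mn_ne (Finset.singleton_subset_iff.1 hjs)
    (pj_ne ha (hJ.mn_ne (Finset.mem_of_mem_erase hj) hi0 (Finset.ne_of_mem_erase hj)))

/-- one constant for all points -/
theorem exists_c1 {n : ℕ} {P : Fin (n + 1) → ℤ} {a : Fin (n + 1)} (ha : P a ≠ 0) (J : Finset ι)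
    (Q : ι → Fin (n + 1) → ℤ) (hPQ : ∀ j ∈ J, ∃ b d, mn P (Q j) b d ≠ 0) :
    ∃ c1 : ℝ, 0 < c1 ∧ c1 ≤ 1 ∧ ∀ j ∈ J, ∀ (x : Fin (n + 1) → ℤ) (t : Fin n → ℤ), Pr x → Pr t →
      (∃ b d, mn x P b d ≠ 0) → (∃ b d, mn x (Q j) b d ≠ 0) →
      (∃ b d, mn t (pj P a (Q j)) b d ≠ 0) →
      (∀ i, pj P a x i = univ.gcd (pj P a x) * t i) →
      c1 * eh x (Q j) ≤ eh t (pj P a (Q j)) := by
  classical
  induction J using Finset.induction_on with
  | empty => exact ⟨1, one_pos, le_rfl, fun j hj => absurd hj (Finset.notMem_empty j)⟩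
  | insert j0 J hj0 ih =>
    obtain ⟨c, hc, hc1, h⟩ := ih fun j hj => hPQ j (Finset.mem_insert_of_mem hj)
    obtain ⟨c', hc', h'⟩ := eh_proj_ge ha (Q j0) (hPQ j0 (Finset.mem_insert_self j0 J))
    refine ⟨min c c', lt_min hc hc', (min_le_left _ _).trans hc1, ?_⟩
    intro j hj x t hx ht' h1 h2 h3 h4
    rcases Finset.mem_insert.1 hj with rfl | hj
    · refine le_trans ?_ (h' x t hx ht' h1 h2 h3 h4)
      exact mul_le_mul_of_nonneg_right (min_le_right _ _) (eh_nonneg _ _)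
    · refine le_trans ?_ (h j hj x t hx ht' h1 h2 h3 h4)
      exact mul_le_mul_of_nonneg_right (min_le_left _ _) (eh_nonneg _ _)

/-- the final computation -/
theorem final_real {T E0 W D Z p Y s cA ε : ℝ} (hT : 1 ≤ T) (hE0 : 0 < E0) (hW : W = T / (E0 * D))
    (hD : 0 < D) (hZ : 0 ≤ Z) (hY : 1 ≤ Y) (hY1 : Y ≤ T / E0) (hY2 : Y ≤ 2 * p * T)
    (hε : 0 < ε) (hp : 1 ≤ p)
    (hs : s ≤ 4 * Z * (2 * Y) ^ (1 + ε / 2)) (hcA : cA ≤ Z * Y ^ (2 + ε / 2)) :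
    cA + T ^ 2 / D * s ≤ 9 * Z * (4 * p) ^ (ε / 2) * T ^ (2 + ε / 2) * max ((E0 ^ 2)⁻¹) W := by
  have hT0 : 0 < T := by linarith
  have hY0 : 0 < Y := by linarith
  set V : ℝ := (4 * p * T) ^ (ε / 2) with hV
  have hV0 : 0 < V := by positivity
  have hV1 : V = (4 * p) ^ (ε / 2) * T ^ (ε / 2) := by
    rw [hV, Real.mul_rpow (by positivity) hT0.le]
  have e1 : Y ^ (2 + ε / 2) ≤ (T / E0) ^ 2 * V := by
    rw [Real.rpow_add hY0]
    have h1 : Y ^ (2 : ℝ) ≤ (T / E0) ^ 2 := by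
      rw [show (2 : ℝ) = ((2 : ℕ) : ℝ) by norm_num, Real.rpow_natCast]
      exact pow_le_pow_left₀ hY0.le hY1 2
    have h2 : Y ^ (ε / 2) ≤ V := by
      refine Real.rpow_le_rpow hY0.le ?_ (by positivity)
      nlinarith
    exact mul_le_mul h1 h2 (by positivity) (by positivity)
  have e2 : (2 * Y) ^ (1 + ε / 2) ≤ 2 * (T / E0) * V := by
    rw [Real.rpow_add (by positivity), Real.rpow_one]
    have h2 : (2 * Y) ^ (ε / 2) ≤ V := by
      refine Real.rpow_le_rpow (by positivity) ?_ (by positivity)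
      linarith
    exact mul_le_mul (by linarith) h2 (by positivity) (by positivity)
  have hTE : 0 < T / E0 := by positivity
  have e3 : cA ≤ Z * V * T ^ 2 * (E0 ^ 2)⁻¹ := by
    refine hcA.trans ((mul_le_mul_of_nonneg_left e1 hZ).trans_eq ?_)
    field_simp
  have e4 : T ^ 2 / D * s ≤ 8 * Z * V * T ^ 2 * W := by
    have h1 : s ≤ 4 * Z * (2 * (T / E0) * V) := hs.trans (mul_le_mul_of_nonneg_left e2 (by positivity))
    refine (mul_le_mul_of_nonneg_left h1 (by positivity)).trans_eq ?_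
    rw [hW]
    field_simp
    ring
  have hm1 := le_max_left ((E0 ^ 2)⁻¹) W
  have hm2 := le_max_right ((E0 ^ 2)⁻¹) W
  have e5 : T ^ (2 + ε / 2) = T ^ 2 * T ^ (ε / 2) := by
    rw [Real.rpow_add hT0, show (2 : ℝ) = ((2 : ℕ) : ℝ) by norm_num, Real.rpow_natCast]
  have hA : 0 ≤ Z * V * T ^ 2 := by positivity
  have e6 : Z * V * T ^ 2 * (E0 ^ 2)⁻¹ ≤ Z * V * T ^ 2 * max ((E0 ^ 2)⁻¹) W :=
    mul_le_mul_of_nonneg_left hm1 hA
  have e7 : Z * V * T ^ 2 * W ≤ Z * V * T ^ 2 * max ((E0 ^ 2)⁻¹) W :=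
    mul_le_mul_of_nonneg_left hm2 hA
  have e8 : 9 * Z * (4 * p) ^ (ε / 2) * T ^ (2 + ε / 2) * max ((E0 ^ 2)⁻¹) W =
      9 * (Z * V * T ^ 2 * max ((E0 ^ 2)⁻¹) W) := by
    rw [e5, hV1]
    ring
  rw [e8]
  linarith

end Pool.Agent.K1H71.BP
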