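import Pool.Agent.K1H71.BP.Claim3

/-!
# Counting points with given exceptional heights, IV (helper71)
-/

set_option autoImplicit false
set_option linter.unusedSectionVars false

namespace Pool.Agent.K1H71.BP

open Finset

variable {ι : Type} [DecidableEq ι] [Fintype ι]

/-- the bound to be proved by induction on the dimension -/
def Bd (n : ℕ) (ι : Type) [DecidableEq ι] : Prop :=
  ∀ (J : Finset ι) (Q : ι → Fin (n + 2) → ℤ), Gen n J Q → ∀ f : Fin n → ι,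
    Function.Injective f → (∀ k, f k ∈ J) → ∀ ε : ℝ, 0 < ε → ∃ C : ℝ, 0 < C ∧ ∀ T : ℝ, 1 ≤ T →
    ∀ E : ι → ℝ, (∀ j ∈ J, 0 < E j) → ∀ S : Finset (Fin (n + 2) → ℤ),
    (∀ x ∈ S, Pt n J Q T E x) →
    (S.card : ℝ) ≤ C * T ^ (2 + ε) * ∏ k, max ((E (f k) ^ 2)⁻¹) (T / ∏ j ∈ J, E j)

/-- the product in the induction hypothesis -/
theorem prod_bound {n : ℕ} (J' : Finset ι) (E : ι → ℝ) (hE : ∀ j ∈ J', 0 < E j) {c1 : ℝ}
    (hc0 : 0 < c1) (hc1 : c1 ≤ 1) {E0 T y : ℝ} (hE0 : 0 < E0) (hT : 0 < T) (hy0 : 0 < y)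
    (hy : y ≤ 2 * (T / E0)) (f : Fin n → ι) (hf : ∀ k, f k ∈ J') :
    ∏ k, max (((c1 * E (f k)) ^ 2)⁻¹) (y / ∏ j ∈ J', (c1 * E j)) ≤
      (2 * (c1⁻¹) ^ (J'.card + 2)) ^ n *
        ∏ k, max ((E (f k) ^ 2)⁻¹) (T / (E0 * ∏ j ∈ J', E j)) := by
  have hD : 0 < ∏ j ∈ J', E j := Finset.prod_pos hE
  have hci : 1 ≤ c1⁻¹ := (one_le_inv₀ hc0).2 hc1
  refine prod_max_le _ _ (by positivity) (fun k => by positivity) (fun k => ?_) (fun k => ?_)
  · have hEk := hE _ (hf k)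
    have hm1 := le_max_left ((E (f k) ^ 2)⁻¹) (T / (E0 * ∏ j ∈ J', E j))
    have hm2 := le_max_right ((E (f k) ^ 2)⁻¹) (T / (E0 * ∏ j ∈ J', E j))
    have hm0 : 0 < max ((E (f k) ^ 2)⁻¹) (T / (E0 * ∏ j ∈ J', E j)) :=
      lt_of_lt_of_le (by positivity) hm1
    refine max_le ?_ ?_
    · calc ((c1 * E (f k)) ^ 2)⁻¹ = (c1⁻¹) ^ 2 * (E (f k) ^ 2)⁻¹ := by
            rw [mul_pow, mul_inv, inv_pow]
        _ ≤ (2 * (c1⁻¹) ^ (J'.card + 2)) * max ((E (f k) ^ 2)⁻¹) (T / (E0 * ∏ j ∈ J', E j)) := by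
            refine mul_le_mul ?_ hm1 (by positivity) (by positivity)
            have h1 : (c1⁻¹) ^ 2 ≤ (c1⁻¹) ^ (J'.card + 2) := pow_le_pow_right₀ hci (by omega)
            have h2 : 0 < (c1⁻¹) ^ (J'.card + 2) := by positivity
            linarith
    · rw [Finset.prod_mul_distrib, Finset.prod_const]
      calc y / (c1 ^ J'.card * ∏ j ∈ J', E j) ≤ 2 * (T / E0) / (c1 ^ J'.card * ∏ j ∈ J', E j) :=
            div_le_div_of_nonneg_right hy (by positivity)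
        _ = (2 * (c1⁻¹) ^ J'.card) * (T / (E0 * ∏ j ∈ J', E j)) := by
            rw [inv_pow]
            field_simp
        _ ≤ (2 * (c1⁻¹) ^ (J'.card + 2)) * max ((E (f k) ^ 2)⁻¹) (T / (E0 * ∏ j ∈ J', E j)) := by
            refine mul_le_mul ?_ hm2 (by positivity) (by positivity)
            have h1 : (c1⁻¹) ^ J'.card ≤ (c1⁻¹) ^ (J'.card + 2) := pow_le_pow_right₀ hci (by omega)
            linarith
  · positivity

theorem claim_step (n : ℕ) (ih : Bd n ι) : Bd (n + 1) ι := by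
  classical
  intro J Q hJ f hf hfJ ε hε
  set i0 : ι := f 0 with hi0
  have hi0J : i0 ∈ J := hfJ 0
  obtain ⟨a, ha⟩ := hJ.ne_zero hi0J
  set J' : Finset ι := J.erase i0 with hJ'
  have hJJ : ∀ j ∈ J', j ∈ J := fun j hj => Finset.mem_of_mem_erase hj
  have hJ'ne : J'.Nonempty := by
    rw [← Finset.card_pos, hJ', Finset.card_erase_of_mem hi0J]
    have := hJ.card
    omega
  have hPQ : ∀ j ∈ J', ∃ b d, mn (Q i0) (Q j) b d ≠ 0 := fun j hj =>
    hJ.mn_ne hi0J (hJJ j hj) (Finset.ne_of_mem_erase hj).symm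
  have hQ0 : ∀ j ∈ J', ∃ i, Q j i ≠ 0 := fun j hj => hJ.ne_zero (hJJ j hj)
  have hQQ : ∀ j ∈ J', ∀ k ∈ J', j ≠ k → ∃ b d, mn (Q j) (Q k) b d ≠ 0 := fun j hj k hk hjk =>
    hJ.mn_ne (hJJ j hj) (hJJ k hk) hjk
  obtain ⟨c1, hc0, hc1, hc⟩ := exists_c1 ha J' Q hPQ
  set f' : Fin n → ι := fun k => f k.succ with hf'
  have hf'inj : Function.Injective f' := fun k l h => Fin.succ_injective _ (hf h)
  have hf'J : ∀ k, f' k ∈ J' := fun k =>
    Finset.mem_erase.2 ⟨fun h => (Fin.succ_ne_zero k) (hf h), hfJ _⟩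
  obtain ⟨C', hC', hih⟩ := ih J' (fun j => pj (Q i0) a (Q j)) (hJ.proj hi0J ha) f' hf'inj hf'J
    (ε / 2) (by positivity)
  obtain ⟨Cf, hCf, hfib⟩ := fibre_sum (Q i0) a ha J' hJ'ne Q hQ0 hPQ hQQ
    (show 0 < ε / 2 by positivity)
  set p : ℝ := ((ht (Q i0) : ℕ) : ℝ) with hp
  have hp1 : 1 ≤ p := by
    have : (1 : ℤ) ≤ ht (Q i0) := one_le_ht ⟨a, ha⟩
    rw [hp]
    exact_mod_cast this
  set K3 : ℝ := 2 * (c1⁻¹) ^ (J'.card + 2) with hK3
  refine ⟨9 * Cf * C' * K3 ^ n * (4 * p) ^ (ε / 2), by positivity, ?_⟩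
  intro T hT E hE S hS
  have hT0 : 0 < T := by linarith
  have hE0 : 0 < E i0 := hE i0 hi0J
  have hEJ' : ∀ j ∈ J', 0 < E j := fun j hj => hE j (hJJ j hj)
  have hD : 0 < ∏ j ∈ J', E j := Finset.prod_pos hEJ'
  have hprod : ∏ j ∈ J, E j = E i0 * ∏ j ∈ J', E j := (Finset.mul_prod_erase J E hi0J).symm
  set W : ℝ := T / ∏ j ∈ J, E j with hW
  have hW' : W = T / (E i0 * ∏ j ∈ J', E j) := by rw [hW, hprod]
  have hW0 : 0 < W := by
    rw [hW']
    positivity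
  set M : ℝ := ∏ k, max ((E (f' k) ^ 2)⁻¹) W with hM
  have hM0 : 0 < M := Finset.prod_pos fun k _ => lt_max_of_lt_right hW0
  have hsplit : ∏ k, max ((E (f k) ^ 2)⁻¹) W = max ((E i0 ^ 2)⁻¹) W * M := by
    rw [Fin.prod_univ_succ]
  rcases S.eq_empty_or_nonempty with rfl | ⟨x0, hx0⟩
  · simp only [Finset.card_empty, Nat.cast_zero]
    have : 0 < ∏ k, max ((E (f k) ^ 2)⁻¹) W := Finset.prod_pos fun k _ => lt_max_of_lt_right hW0
    positivity
  -- the projection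
  have hτex : ∀ x : Fin (n + 3) → ℤ, ∃ t : Fin (n + 2) → ℤ, x ∈ S → Pr t ∧
      ∀ i, pj (Q i0) a x i = univ.gcd (pj (Q i0) a x) * t i := by
    intro x
    by_cases hx : x ∈ S
    · obtain ⟨t, h1, _, h3⟩ := exists_prim (pj_ne ha ((hS x hx).mn_ne hJ hi0J))
      exact ⟨t, fun _ => ⟨h1, h3⟩⟩
    · exact ⟨0, fun h => absurd h hx⟩
  choose τ hτ using hτex
  set Y : ℝ := min (T / E i0) (2 * p * T) with hY
  have hTE : 0 < T / E i0 := by positivity
  have hτY : ∀ x ∈ S, (ht (τ x) : ℝ) ≤ Y := by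
    intro x hx
    have hxP := (hS x hx).mn_ne hJ hi0J
    obtain ⟨h1, h2⟩ := hτ x hx
    refine le_min ?_ ?_
    · rw [le_div_iff₀ hE0]
      have h3 := ht_mul_eh ha hxP h1 h2
      have h4 := (hS x hx).ge i0 hi0J
      have h5 : (0 : ℝ) ≤ ht (τ x) := by positivity
      exact (mul_le_mul_of_nonneg_left h4 h5).trans (h3.trans (hS x hx).le)
    · have h3 := ht_proj_le ha hxP h1 h2
      have h4 := (hS x hx).le
      have : (0 : ℝ) ≤ p := by positivity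
      refine h3.trans ?_
      rw [← hp]
      nlinarith
  have hY1 : 1 ≤ Y := by
    have h1 := hτY x0 hx0
    have h2 : (1 : ℤ) ≤ ht (τ x0) := one_le_ht (ne_zero_of_prim (hτ x0 hx0).1)
    have h3 : (1 : ℝ) ≤ ht (τ x0) := by exact_mod_cast h2
    linarith
  set A : Finset (Fin (n + 2) → ℤ) := S.image τ with hA
  set Z : ℝ := C' * (K3 ^ n * M) with hZ
  have hZ0 : 0 < Z := by positivity
  -- the points of the projection
  have hPt : ∀ x ∈ S, ∀ y : ℝ, (ht (τ x) : ℝ) ≤ y →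
      Pt n J' (fun j => pj (Q i0) a (Q j)) y (fun j => c1 * E j) (τ x) := by
    intro x hx y hy
    have hxP := (hS x hx).mn_ne hJ hi0J
    obtain ⟨h1, h2⟩ := hτ x hx
    refine ⟨h1, hy, fun s hs hsc => (hS x hx).proj_off hi0J ha h2 hs hsc, fun j hj => ?_⟩
    have h3 := hc j hj x (τ x) (hS x hx).pr h1 hxP ((hS x hx).mn_ne hJ (hJJ j hj))
      ((hS x hx).proj_mn hJ hi0J ha h2 hj) h2
    exact (mul_le_mul_of_nonneg_left ((hS x hx).ge j (hJJ j hj)) hc0.le).trans h3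
  have hcount : ∀ y : ℝ, 1 ≤ y → y ≤ 2 * Y →
      ((A.filter fun t => (ht t : ℝ) ≤ y).card : ℝ) ≤ Z * y ^ (2 + ε / 2) := by
    intro y hy1 hy2
    have h1 := hih y hy1 (fun j => c1 * E j) (fun j hj => mul_pos hc0 (hEJ' j hj))
      (A.filter fun t => (ht t : ℝ) ≤ y) (by
        intro t ht'
        rw [mem_filter, hA, Finset.mem_image] at ht'
        obtain ⟨⟨x, hx, rfl⟩, h2⟩ := ht'
        exact hPt x hx y h2)
    refine h1.trans ?_
    have h2 := prod_bound J' E hEJ' hc0 hc1 hE0 hT0 (show 0 < y by linarith)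
      (hy2.trans (mul_le_mul_of_nonneg_left (min_le_left _ _) (by norm_num))) f' hf'J
    rw [← hW'] at h2
    calc C' * y ^ (2 + ε / 2) * ∏ k, max (((c1 * E (f' k)) ^ 2)⁻¹) (y / ∏ j ∈ J', (c1 * E j))
        ≤ C' * y ^ (2 + ε / 2) * (K3 ^ n * M) := mul_le_mul_of_nonneg_left h2 (by positivity)
      _ = Z * y ^ (2 + ε / 2) := by
          rw [hZ]
          ring
  have hAcard : (A.card : ℝ) ≤ Z * Y ^ (2 + ε / 2) := by
    have h1 := hcount Y hY1 (by linarith)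
    have h2 : A.filter (fun t => (ht t : ℝ) ≤ Y) = A := by
      refine Finset.filter_true_of_mem fun t ht' => ?_
      rw [hA, Finset.mem_image] at ht'
      obtain ⟨x, hx, rfl⟩ := ht'
      exact hτY x hx
    rwa [h2] at h1
  have hAsum : ∑ t ∈ A, 1 / (ht t : ℝ) ≤ 4 * Z * (2 * Y) ^ (1 + ε / 2) := by
    refine sum_inv_le A (fun t => (ht t : ℝ)) hY1 hZ0.le (by positivity) ?_ ?_ hcount
    · intro t ht'
      rw [hA, Finset.mem_image] at ht'
      obtain ⟨x, hx, rfl⟩ := ht'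
      have h2 : (1 : ℤ) ≤ ht (τ x) := one_le_ht (ne_zero_of_prim (hτ x hx).1)
      exact_mod_cast h2
    · intro t ht'
      rw [hA, Finset.mem_image] at ht'
      obtain ⟨x, hx, rfl⟩ := ht'
      exact hτY x hx
  -- the fibres
  have hfibre : ∀ t ∈ A, (((S.filter fun x => τ x = t).card : ℕ) : ℝ) ≤
      Cf * T ^ (ε / 2) * (1 + T ^ 2 / (∏ j ∈ J', E j) * (1 / (ht t : ℝ))) := by
    intro t ht'
    rw [hA, Finset.mem_image] at ht'
    obtain ⟨x, hx, rfl⟩ := ht'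
    have h1 := hfib (τ x) (hτ x hx).1
      (fun j hj => (hS x hx).proj_mn hJ hi0J ha (hτ x hx).2 hj) T hT E hEJ'
      (S.filter fun x' => τ x' = τ x) (by
        intro x' hx'
        rw [mem_filter] at hx'
        have h0 := hS x' hx'.1
        refine ⟨h0.pr, ?_, h0.mn_ne hJ hi0J, h0.le, fun j hj => h0.mn_ne hJ (hJJ j hj),
          fun j hj => h0.ge j (hJJ j hj)⟩
        have := (hτ x' hx'.1).2
        rwa [hx'.2] at this)
    refine h1.trans_eq ?_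
    congr 2
    rw [div_mul_div_comm, mul_one, mul_comm (∏ j ∈ J', E j)]
  have hScard : (S.card : ℝ) ≤ Cf * T ^ (ε / 2) *
      (A.card + T ^ 2 / (∏ j ∈ J', E j) * ∑ t ∈ A, 1 / (ht t : ℝ)) := by
    rw [Finset.card_eq_sum_card_fiberwise (f := τ) (s := S) (t := A) (by
      intro x hx
      exact Finset.mem_image_of_mem τ hx), Nat.cast_sum]
    refine (Finset.sum_le_sum hfibre).trans_eq ?_
    rw [← Finset.mul_sum, Finset.sum_add_distrib, ← Finset.mul_sum]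
    simp
  have hfin := final_real (s := ∑ t ∈ A, 1 / (ht t : ℝ)) (cA := (A.card : ℝ)) hT hE0 hW' hD
    hZ0.le hY1 (min_le_left _ _) (min_le_right _ _) hε hp1 hAsum hAcard
  refine hScard.trans ((mul_le_mul_of_nonneg_left hfin (by positivity)).trans_eq ?_)
  rw [hsplit, hZ]
  have e5 : T ^ (2 + ε) = T ^ (ε / 2) * T ^ (2 + ε / 2) := by
    rw [← Real.rpow_add hT0]
    congr 1
    ring
  rw [e5]
  ring

/-- **the counting theorem** -/
theorem claim (n : ℕ) : Bd n ι := by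
  induction n with
  | zero =>
    intro J Q _ f _ _ ε hε
    refine ⟨9, by norm_num, fun T hT E _ S hS => ?_⟩
    have h1 := claim_zero J Q hε hT E S hS
    simpa using h1
  | succ n ih => exact claim_step n ih

end Pool.Agent.K1H71.BP
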