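import Pool.Agent.K1H71.BP.Proj

/-!
# The points above a point of the projection with given exceptional parts (helper71)
-/

set_option autoImplicit false
set_option linter.unusedSectionVars false

namespace Pool.Agent.K1H71.BP

open Finset

/-- separated points of an interval -/
theorem card_sep {ι : Type} (S : Finset ι) (s : ι → ℝ) {η : ℝ} (hη : 0 < η)
    (h1 : ∀ x ∈ S, |s x| ≤ 1) (h2 : ∀ x ∈ S, ∀ y ∈ S, x ≠ y → η ≤ |s x - s y|) :
    (S.card : ℝ) ≤ 1 + 2 / η := by
  classical
  have h3 : S.card ≤ (Finset.range (⌊2 / η⌋₊ + 1)).card := by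
    refine Finset.card_le_card_of_injOn (fun x => ⌊(s x + 1) / η⌋₊) ?_ ?_
    · intro x hx
      have h4 := abs_le.1 (h1 x hx)
      simp only [Finset.coe_range, Set.mem_Iio]
      refine Nat.lt_succ_of_le (Nat.floor_le_floor ?_)
      exact div_le_div_of_nonneg_right (by linarith) hη.le
    · intro x hx y hy hxy
      by_contra hne
      have h5 := h2 x hx y hy hne
      have hx0 : 0 ≤ (s x + 1) / η := div_nonneg (by linarith [(abs_le.1 (h1 x hx)).1]) hη.le
      have hy0 : 0 ≤ (s y + 1) / η := div_nonneg (by linarith [(abs_le.1 (h1 y hy)).1]) hη.le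
      have a1 := Nat.floor_le hx0
      have a2 := Nat.lt_floor_add_one ((s x + 1) / η)
      have a3 := Nat.floor_le hy0
      have a4 := Nat.lt_floor_add_one ((s y + 1) / η)
      simp only at hxy
      rw [hxy] at a1 a2
      have a5 : |(s x + 1) / η - (s y + 1) / η| < 1 := by
        rw [abs_lt]
        constructor <;> linarith
      rw [← sub_div, abs_div, abs_of_pos hη, div_lt_one hη] at a5
      have a6 : s x + 1 - (s y + 1) = s x - s y := by ring
      rw [a6] at a5
      linarith
  rw [Finset.card_range] at h3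
  have h4 : (⌊2 / η⌋₊ : ℝ) ≤ 2 / η := Nat.floor_le (by positivity)
  have h5 : (S.card : ℝ) ≤ ⌊2 / η⌋₊ + 1 := by exact_mod_cast h3
  linarith

/-- vectors of a box with large determinants, one half -/
theorem card_half {ι : Type} (S : Finset ι) (u v : ι → ℝ) {A B I : ℝ} (hA : 0 < A) (hB : 0 < B)
    (hI : 0 < I) (hu : ∀ x ∈ S, |u x| ≤ A) (hv : ∀ x ∈ S, |v x| * A ≤ |u x| * B)
    (h2 : ∀ x ∈ S, ∀ y ∈ S, x ≠ y → I ≤ |u x * v y - u y * v x|) :
    (S.card : ℝ) ≤ 1 + 2 * (A * B / I) := by
  classical
  by_cases h0 : ∃ x ∈ S, u x = 0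
  · obtain ⟨x, hx, hx0⟩ := h0
    have hvx : v x = 0 := by
      have := hv x hx
      rw [hx0, abs_zero, zero_mul] at this
      have h3 : |v x| ≤ 0 := by
        by_contra h4
        push Not at h4
        nlinarith
      exact abs_nonpos_iff.1 h3
    have h3 : S.card ≤ 1 := by
      rw [Finset.card_le_one]
      intro y hy z hz
      by_contra hne
      have key : ∀ w ∈ S, w = x := by
        intro w hw
        by_contra hwx
        have := h2 x hx w hw (Ne.symm hwx)
        rw [hx0, hvx] at this
        simp only [zero_mul, mul_zero, sub_zero, abs_zero] at this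
        linarith
      exact hne ((key y hy).trans (key z hz).symm)
    have h4 : (S.card : ℝ) ≤ 1 := by exact_mod_cast h3
    have : 0 ≤ 2 * (A * B / I) := by positivity
    linarith
  · push Not at h0
    have h3 := card_sep S (fun x => v x * A / (u x * B)) (η := I / (A * B)) (by positivity) ?_ ?_
    · have e : 2 / (I / (A * B)) = 2 * (A * B / I) := by
        field_simp
      rw [e] at h3
      exact h3
    · intro x hx
      have hux : 0 < |u x| := abs_pos.2 (h0 x hx)
      rw [abs_div, abs_mul, abs_mul, abs_of_pos hA, abs_of_pos hB, div_le_one (by positivity)]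
      exact hv x hx
    · intro x hx y hy hxy
      have hux := h0 x hx
      have huy := h0 y hy
      have e : v x * A / (u x * B) - v y * A / (u y * B) =
          -(A * (u x * v y - u y * v x)) / (B * (u x * u y)) := by
        field_simp
        ring
      have hux' : 0 < |u x| := abs_pos.2 hux
      have huy' : 0 < |u y| := abs_pos.2 huy
      rw [e, abs_div, abs_neg, abs_mul, abs_mul, abs_mul, abs_of_pos hA, abs_of_pos hB,
        div_le_div_iff₀ (by positivity) (by positivity)]
      have h4 := h2 x hx y hy hxy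
      have h5 : |u x| * |u y| ≤ A * A := mul_le_mul (hu x hx) (hu y hy) huy'.le hA.le
      calc I * (B * (|u x| * |u y|)) ≤ |u x * v y - u y * v x| * (B * (A * A)) := by
            apply mul_le_mul h4 _ (by positivity) (abs_nonneg _)
            exact mul_le_mul_of_nonneg_left h5 hB.le
        _ = A * |u x * v y - u y * v x| * (A * B) := by ring

/-- **vectors of a box with large determinants** -/
theorem card_box {ι : Type} (S : Finset ι) (u v : ι → ℝ) {A B I : ℝ} (hA : 0 < A) (hB : 0 < B)
    (hI : 0 < I) (hu : ∀ x ∈ S, |u x| ≤ A) (hv : ∀ x ∈ S, |v x| ≤ B)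
    (h2 : ∀ x ∈ S, ∀ y ∈ S, x ≠ y → I ≤ |u x * v y - u y * v x|) :
    (S.card : ℝ) ≤ 2 + 4 * (A * B / I) := by
  classical
  have h3 := card_half (S.filter fun x => |v x| * A ≤ |u x| * B) u v hA hB hI
    (fun x hx => hu x (Finset.mem_filter.1 hx).1) (fun x hx => (Finset.mem_filter.1 hx).2)
    (fun x hx y hy => h2 x (Finset.mem_filter.1 hx).1 y (Finset.mem_filter.1 hy).1)
  have h4 := card_half (S.filter fun x => ¬ |v x| * A ≤ |u x| * B) v u hB hA hI
    (fun x hx => hv x (Finset.mem_filter.1 hx).1)
    (fun x hx => (not_le.1 (Finset.mem_filter.1 hx).2).le)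
    (fun x hx y hy hxy => by
      have := h2 x (Finset.mem_filter.1 hx).1 y (Finset.mem_filter.1 hy).1 hxy
      have e : v x * u y - v y * u x = -(u x * v y - u y * v x) := by ring
      rw [e, abs_neg]
      exact this)
  have h5 := Finset.card_filter_add_card_filter_not (s := S) (fun x => |v x| * A ≤ |u x| * B)
  have h6 : (S.card : ℝ) = (S.filter fun x => |v x| * A ≤ |u x| * B).card +
      (S.filter fun x => ¬ |v x| * A ≤ |u x| * B).card := by exact_mod_cast h5.symm
  rw [h6, mul_comm B A] at *
  linarith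

/-- divisors with bounded common divisors -/
theorem prod_dvd_of_gcd {ι : Type} [DecidableEq ι] (J : Finset ι) (g : ι → ℕ) {γ D : ℕ}
    (h1 : ∀ j ∈ J, g j ∣ D) (h2 : ∀ j ∈ J, ∀ k ∈ J, j ≠ k → Nat.gcd (g j) (g k) ∣ γ) :
    ∃ e : ℕ, e ≤ J.card ^ 2 ∧ ∏ j ∈ J, g j ∣ γ ^ e * D := by
  induction J using Finset.induction_on with
  | empty => exact ⟨0, by simp, by simp⟩
  | insert i J hi ih =>
    obtain ⟨e, he, h3⟩ := ih (fun j hj => h1 j (mem_insert_of_mem hj))
      (fun j hj k hk => h2 j (mem_insert_of_mem hj) k (mem_insert_of_mem hk))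
    have h4 : ∀ K : Finset ι, K ⊆ J → Nat.gcd (g i) (∏ j ∈ K, g j) ∣ γ ^ K.card := by
      intro K
      induction K using Finset.induction_on with
      | empty => intro _; simp
      | insert k K hk ihK =>
        intro hKJ
        rw [prod_insert hk, card_insert_of_notMem hk, pow_succ, mul_comm (γ ^ _)]
        refine (Nat.gcd_mul_right_dvd_mul_gcd _ _ _).trans ?_
        refine mul_dvd_mul ?_ (ihK fun j hj => hKJ (mem_insert_of_mem hj))
        refine h2 i (mem_insert_self _ _) k (mem_insert_of_mem (hKJ (mem_insert_self _ _))) ?_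
        rintro rfl
        exact hi (hKJ (mem_insert_self _ _))
    refine ⟨J.card + e, ?_, ?_⟩
    · rw [card_insert_of_notMem hi]
      nlinarith
    · rw [prod_insert hi]
      have h5 : Nat.lcm (g i) (∏ j ∈ J, g j) ∣ γ ^ e * D :=
        Nat.lcm_dvd ((h1 i (mem_insert_self _ _)).mul_left _) h3
      rw [← Nat.gcd_mul_lcm, pow_add, mul_assoc]
      exact mul_dvd_mul (h4 J subset_rfl) h5

end Pool.Agent.K1H71.BP
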