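import Pool.Agent.K1H71.BP.Fib

/-!
# The points above a point of the projection with given exceptional parts, II (helper71)
-/

set_option autoImplicit false
set_option linter.unusedSectionVars false

namespace Pool.Agent.K1H71.BP

open Finset

variable {n : ℕ} {ι : Type} [DecidableEq ι]

/-- the conditions on a point above `t` -/
structure Ab (P : Fin (n + 1) → ℤ) (a : Fin (n + 1)) (J : Finset ι) (Q : ι → Fin (n + 1) → ℤ)
    (t : Fin n → ℤ) (g : ι → ℤ) (j0 : ι) (T : ℝ) (E : ι → ℝ) (x : Fin (n + 1) → ℤ) : Prop where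
  pr : Pr x
  eq : ∀ i, pj P a x i = univ.gcd (pj P a x) * t i
  off : ∃ b d, mn x P b d ≠ 0
  le : (ht x : ℝ) ≤ T
  gdq : ∀ j ∈ J, gd x (Q j) = g j
  offq : ∀ j ∈ J, ∃ b d, mn x (Q j) b d ≠ 0
  ge : ∀ j ∈ J, E j ≤ eh x (Q j)
  min : ∀ j ∈ J, wd x (Q j0) ≤ wd x (Q j)

theorem fibre (P : Fin (n + 1) → ℤ) (a : Fin (n + 1)) (ha : P a ≠ 0) (J : Finset ι)
    (Q : ι → Fin (n + 1) → ℤ) (hQ : ∀ j ∈ J, ∃ i, Q j i ≠ 0)
    (hPQ : ∀ j ∈ J, ∃ b d, mn P (Q j) b d ≠ 0)
    (hQQ : ∀ j ∈ J, ∀ k ∈ J, j ≠ k → ∃ b d, mn (Q j) (Q k) b d ≠ 0) :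
    ∃ C : ℝ, 0 < C ∧ ∀ (t : Fin n → ℤ), Pr t → ∀ (g : ι → ℤ) (j0 : ι), j0 ∈ J → ∀ T : ℝ, 0 < T →
      ∀ E : ι → ℝ, (∀ j ∈ J, 0 < E j) → ∀ S : Finset (Fin (n + 1) → ℤ),
      (∀ x ∈ S, Ab P a J Q t g j0 T E x) →
      (S.card : ℝ) ≤ 2 + C * (T ^ 2 / (ht t * ∏ j ∈ J, E j)) := by
  classical
  have hex : ∀ j : ι, ∃ i, j ∈ J → Q j i ≠ 0 := by
    intro j
    by_cases hj : j ∈ J
    · obtain ⟨i, hi⟩ := hQ j hj
      exact ⟨i, fun _ => hi⟩
    · exact ⟨a, fun h => absurd h hj⟩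
  choose w hw using hex
  set R : ℕ := ∏ j ∈ J, (Q j (w j)).natAbs with hR
  set γ : ℕ := ∏ p ∈ (J ×ˢ J).filter (fun p => p.1 ≠ p.2), (gd (Q p.1) (Q p.2)).natAbs with hγ
  have hR1 : 1 ≤ R := by
    rw [hR]
    refine Nat.one_le_iff_ne_zero.2 (Finset.prod_ne_zero_iff.2 fun j hj => ?_)
    exact Int.natAbs_ne_zero.2 (hw j hj)
  have hγ1 : 1 ≤ γ := by
    rw [hγ]
    refine Nat.one_le_iff_ne_zero.2 (Finset.prod_ne_zero_iff.2 fun p hp => ?_)
    rw [mem_filter, mem_product] at hp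
    exact Int.natAbs_ne_zero.2 (gd_pos (hQQ p.1 hp.1.1 p.2 hp.1.2 hp.2)).ne'
  set K1 : ℝ := 1 + 3 * ∑ j ∈ J, (ht (Q j) : ℝ) with hK1
  have hK11 : 1 ≤ K1 := by
    rw [hK1]
    have : 0 ≤ ∑ j ∈ J, (ht (Q j) : ℝ) := Finset.sum_nonneg fun j _ => by positivity
    linarith
  set K2 : ℝ := (γ : ℝ) ^ (J.card ^ 2) * R with hK2
  have hγR : (1 : ℝ) ≤ γ := by exact_mod_cast hγ1
  have hRR : (1 : ℝ) ≤ R := by exact_mod_cast hR1
  have hK20 : 0 < K2 := by positivity
  have hp1 : (1 : ℝ) ≤ ht P := by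
    have : (1 : ℤ) ≤ ht P := one_le_ht ⟨a, ha⟩
    exact_mod_cast this
  refine ⟨8 * (ht P : ℝ) ^ 2 * K1 ^ J.card * K2, by positivity, ?_⟩
  intro t htp g j0 hj0 T hT E hE S hS
  rcases S.eq_empty_or_nonempty with rfl | ⟨x0, hx0⟩
  · rw [Finset.card_empty, Nat.cast_zero]
    have : 0 ≤ ∏ j ∈ J, E j := Finset.prod_nonneg fun j hj => (hE j hj).le
    positivity
  have hg : ∀ j ∈ J, 0 < g j := by
    intro j hj
    rw [← (hS x0 hx0).gdq j hj]
    exact gd_pos ((hS x0 hx0).offq j hj)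
  set c : (Fin (n + 1) → ℤ) → ℤ := fun x => univ.gcd (pj P a x) with hc
  have hc0 : ∀ x, 0 ≤ c x := fun x => Int.nonneg_of_normalize_eq_self Finset.normalize_gcd
  have hcpos : ∀ x ∈ S, 0 < c x := by
    intro x hx
    refine lt_of_le_of_ne (hc0 x) fun h0 => ?_
    obtain ⟨i, hi⟩ := pj_ne ha (hS x hx).off
    rw [(hS x hx).eq] at hi
    apply hi
    show c x * t i = 0
    rw [← h0, zero_mul]
  have ht0 : (0 : ℝ) < ht t := by
    have : (1 : ℤ) ≤ ht t := one_le_ht (ne_zero_of_prim htp)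
    have h2 : (1 : ℝ) ≤ ht t := by exact_mod_cast this
    linarith
  set tt : Fin (n + 1) → ℤ := a.insertNth 0 t with htt
  have hlin : ∀ x ∈ S, ∀ e, P a * x e = x a * P e + c x * tt e := by
    intro x hx e
    rcases eq_or_ne e a with rfl | he
    · rw [htt, Fin.insertNth_apply_same]
      ring
    · obtain ⟨i, rfl⟩ := Fin.exists_succAbove_eq he
      rw [htt, Fin.insertNth_apply_succAbove]
      have h1 : pj P a x i = c x * t i := (hS x hx).eq i
      rw [← h1]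
      simp only [pj, mn]
      ring
  obtain ⟨b, d, hω⟩ := hPQ j0 hj0
  set ω : ℤ := mn P (Q j0) b d with hωd
  set Δ : (Fin (n + 1) → ℤ) → (Fin (n + 1) → ℤ) → ℤ := fun x y => x a * c y - y a * c x with hΔ
  set τ : ℤ := mn tt (Q j0) b d with hτ
  have hu : ∀ x ∈ S, P a * mn x (Q j0) b d = x a * ω + c x * τ := by
    intro x hx
    have h1 := hlin x hx b
    have h2 := hlin x hx d
    rw [hωd, hτ]
    unfold mn
    linear_combination (Q j0 d) * h1 - (Q j0 b) * h2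
  -- the determinants
  have hdet : ∀ x ∈ S, ∀ y ∈ S, x ≠ y → Δ x y ≠ 0 := by
    intro x hx y hy hxy h0
    apply hxy
    have h1 : ∀ e, c y * x e = c x * y e := by
      intro e
      have h2 := hlin x hx e
      have h3 := hlin y hy e
      have h4 : P a * (c y * x e - c x * y e) = 0 := by
        have h5 : Δ x y * P e = 0 := by rw [h0, zero_mul]
        rw [hΔ] at h5
        linear_combination c y * h2 - c x * h3 + h5
      rcases mul_eq_zero.1 h4 with h5 | h5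
      · exact absurd h5 ha
      · linarith
    have h2 : c y = c x := by
      have e1 := gcd_smul_prim (hS x hx).pr (hc0 y)
      have e2 := gcd_smul_prim (hS y hy).pr (hc0 x)
      have e3 : (fun i => c y * x i) = fun i => c x * y i := funext h1
      rw [e3] at e1
      exact e1.symm.trans e2
    funext e
    have h3 := h1 e
    rw [h2] at h3
    exact mul_left_cancel₀ (hcpos x hx).ne' h3
  have hdvd : ∀ x ∈ S, ∀ y ∈ S, ∀ j ∈ J, g j ∣ Q j (w j) * Δ x y := by
    intro x hx y hy j hj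
    refine dvd_of_prim htp fun i => ?_
    have h1 : g j ∣ Q j (w j) * mn x y a (a.succAbove i) := by
      refine dvd_mul_mn ?_ ?_ (w j) a (a.succAbove i)
      · rw [(hS x hx).gdq j hj]
      · rw [(hS y hy).gdq j hj]
    have h2 : P a * mn x y a (a.succAbove i) = Δ x y * t i := by
      have h3 := hlin x hx (a.succAbove i)
      have h4 := hlin y hy (a.succAbove i)
      have h5 : tt (a.succAbove i) = t i := by rw [htt, Fin.insertNth_apply_succAbove]
      rw [h5] at h3 h4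
      rw [hΔ]
      unfold mn
      linear_combination x a * h4 - y a * h3
    have h3 : t i * (Q j (w j) * Δ x y) = P a * (Q j (w j) * mn x y a (a.succAbove i)) := by
      linear_combination -(Q j (w j)) * h2
    rw [h3]
    exact h1.mul_left _
  set G : ℝ := ∏ j ∈ J, (g j : ℝ) with hG
  have hG0 : 0 < G := Finset.prod_pos fun j hj => by exact_mod_cast hg j hj
  have hbig : ∀ x ∈ S, ∀ y ∈ S, x ≠ y → G / K2 ≤ |((Δ x y : ℤ) : ℝ)| := by
    intro x hx y hy hxy
    have hs1 : ∀ j ∈ J, (fun j => (g j).natAbs) j ∣ R * (Δ x y).natAbs := by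
      intro j hj
      have h1 := Int.natAbs_dvd_natAbs.2 (hdvd x hx y hy j hj)
      rw [Int.natAbs_mul] at h1
      refine h1.trans (mul_dvd_mul_right ?_ _)
      rw [hR]
      exact Finset.dvd_prod_of_mem (fun j => (Q j (w j)).natAbs) hj
    have hs2 : ∀ j ∈ J, ∀ k ∈ J, j ≠ k →
        Nat.gcd ((fun j => (g j).natAbs) j) ((fun j => (g j).natAbs) k) ∣ γ := by
      intro j hj k hk hjk
      have h1 : ((Nat.gcd (g j).natAbs (g k).natAbs : ℕ) : ℤ) ∣ gd (Q j) (Q k) := by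
        refine dvd_mn (hS x hx).pr ?_ ?_
        · rw [(hS x hx).gdq j hj]
          exact (Int.natCast_dvd).2 (Nat.gcd_dvd_left _ _)
        · rw [(hS x hx).gdq k hk]
          exact (Int.natCast_dvd).2 (Nat.gcd_dvd_right _ _)
      have h2 : Nat.gcd (g j).natAbs (g k).natAbs ∣ (gd (Q j) (Q k)).natAbs := Int.natCast_dvd.1 h1
      refine h2.trans ?_
      rw [hγ]
      exact Finset.dvd_prod_of_mem (fun p : ι × ι => (gd (Q p.1) (Q p.2)).natAbs)
        (Finset.mem_filter.2 ⟨Finset.mem_product.2 ⟨hj, hk⟩, hjk⟩ :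
          ((j, k) : ι × ι) ∈ (J ×ˢ J).filter (fun p => p.1 ≠ p.2))
    obtain ⟨e, he, h1⟩ := prod_dvd_of_gcd J (fun j => (g j).natAbs) hs1 hs2
    have h2 : 0 < γ ^ e * (R * (Δ x y).natAbs) := by
      have := Int.natAbs_pos.2 (hdet x hx y hy hxy)
      positivity
    have h3 := Nat.le_of_dvd h2 h1
    have h4 : (∏ j ∈ J, ((g j).natAbs : ℝ)) ≤ (γ : ℝ) ^ e * (R * ((Δ x y).natAbs : ℝ)) := by
      exact_mod_cast h3
    have h5 : (∏ j ∈ J, ((g j).natAbs : ℝ)) = G := by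
      rw [hG]
      refine Finset.prod_congr rfl fun j hj => ?_
      have h6 : ((g j).natAbs : ℤ) = g j := Int.natAbs_of_nonneg (hg j hj).le
      rw [← Int.cast_natCast (R := ℝ), h6]
    have h6 : ((Δ x y).natAbs : ℝ) = |((Δ x y : ℤ) : ℝ)| := by
      rw [← Int.cast_abs, Int.abs_eq_natAbs, Int.cast_natCast]
    rw [h5, h6] at h4
    rw [div_le_iff₀ hK20, hK2]
    refine h4.trans ?_
    have h7 : (γ : ℝ) ^ e ≤ (γ : ℝ) ^ (J.card ^ 2) := pow_le_pow_right₀ hγR he
    calc (γ : ℝ) ^ e * (R * |((Δ x y : ℤ) : ℝ)|)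
        ≤ (γ : ℝ) ^ (J.card ^ 2) * (R * |((Δ x y : ℤ) : ℝ)|) :=
          mul_le_mul_of_nonneg_right h7 (by positivity)
      _ = |((Δ x y : ℤ) : ℝ)| * ((γ : ℝ) ^ (J.card ^ 2) * R) := by ring
  -- the box
  set PE : ℝ := ∏ j ∈ J, E j with hPE
  have hPE0 : 0 < PE := Finset.prod_pos hE
  have hwd : ∀ x ∈ S, (wd x (Q j0) : ℝ) ≤ T * K1 ^ J.card * G / PE := by
    intro x hx
    have hA := hS x hx
    have hw0 : ∀ j ∈ J, (0 : ℝ) < wd x (Q j) := fun j hj => by exact_mod_cast wd_pos (hA.offq j hj)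
    rw [le_div_iff₀ hPE0]
    -- each factor
    have h1 : ∀ j ∈ J, E j ≤ (if j = j0 then T / wd x (Q j0) else 1) * (K1 * g j) := by
      intro j hj
      refine (hA.ge j hj).trans ?_
      unfold eh
      rw [hA.gdq j hj]
      have hgj : (0 : ℝ) < g j := by exact_mod_cast hg j hj
      split_ifs with h
      · subst h
        have h2 : (ht x : ℝ) * (g j : ℝ) / wd x (Q j) ≤ T / wd x (Q j) * (1 * g j) := by
          rw [one_mul, div_mul_eq_mul_div]
          exact div_le_div_of_nonneg_right (mul_le_mul_of_nonneg_right hA.le hgj.le)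
            (hw0 j hj).le
        refine h2.trans ?_
        have := hw0 j hj
        gcongr
      · rw [one_mul, div_le_iff₀ (hw0 j hj)]
        have h3 := ht_le_add (x := x) (hQQ j0 hj0 j hj (Ne.symm h))
        have h3' : (ht x : ℝ) ≤ ht (Q j0) * wd x (Q j) + 2 * ht (Q j) * wd x (Q j0) := by
          exact_mod_cast h3
        have h4 : (wd x (Q j0) : ℝ) ≤ wd x (Q j) := by exact_mod_cast hA.min j hj
        have h5 : 2 * (ht (Q j) : ℝ) * wd x (Q j0) ≤ 2 * ht (Q j) * wd x (Q j) :=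
          mul_le_mul_of_nonneg_left h4 (by positivity)
        have h6 : ∀ k ∈ J, (ht (Q k) : ℝ) ≤ ∑ j ∈ J, (ht (Q j) : ℝ) := fun k hk =>
          Finset.single_le_sum (f := fun j => (ht (Q j) : ℝ)) (fun _ _ => by positivity) hk
        have h7 : (ht (Q j0) : ℝ) + 2 * ht (Q j) ≤ K1 := by
          have := h6 j0 hj0
          have := h6 j hj
          rw [hK1]
          linarith
        have h8 : (ht x : ℝ) ≤ K1 * wd x (Q j) := by
          have := mul_le_mul_of_nonneg_right h7 (hw0 j hj).le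
          linarith
        calc (ht x : ℝ) * g j ≤ K1 * wd x (Q j) * g j := mul_le_mul_of_nonneg_right h8 hgj.le
          _ = K1 * g j * wd x (Q j) := by ring
    have h2 : PE ≤ ∏ j ∈ J, ((if j = j0 then T / wd x (Q j0) else 1) * (K1 * g j)) :=
      Finset.prod_le_prod (fun j hj => (hE j hj).le) h1
    rw [Finset.prod_mul_distrib, Finset.prod_ite_eq' J j0, if_pos hj0, Finset.prod_mul_distrib,
      Finset.prod_const, ← hG] at h2
    have h3 := mul_le_mul_of_nonneg_left h2 (hw0 j0 hj0).le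
    have h4 : (wd x (Q j0) : ℝ) * (T / wd x (Q j0) * (K1 ^ J.card * G)) = T * K1 ^ J.card * G := by
      field_simp [(hw0 j0 hj0).ne']
    rw [h4] at h3
    exact h3
  set A : ℝ := ht P * (T * K1 ^ J.card * G / PE) with hA
  set B : ℝ := 2 * ht P * T / ht t with hB
  have hA0 : 0 < A := by positivity
  have hB0 : 0 < B := by positivity
  have hI0 : 0 < G / K2 := by positivity
  have hfin := card_box S (fun x => ((P a * mn x (Q j0) b d : ℤ) : ℝ)) (fun x => ((c x : ℤ) : ℝ))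
    hA0 hB0 hI0 ?_ ?_ ?_
  · refine hfin.trans (le_of_eq ?_)
    rw [hA, hB]
    field_simp
    ring
  · intro x hx
    have h1 : |P a * mn x (Q j0) b d| ≤ ht P * wd x (Q j0) := by
      rw [abs_mul]
      exact mul_le_mul (le_ht _ _) (le_wd _ _ _ _) (abs_nonneg _) (by positivity)
    have h2 : |((P a * mn x (Q j0) b d : ℤ) : ℝ)| ≤ ht P * wd x (Q j0) := by exact_mod_cast h1
    exact h2.trans (mul_le_mul_of_nonneg_left (hwd x hx) (by positivity))
  · intro x hx
    have h1 := ht_mul_left (hc0 x) t (hS x hx).eq (ne_zero_of_prim htp)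
    have h2 := ht_pj_le (P := P) (a := a) x
    have h3 := wd_le_ht x P
    have h4 : c x * (ht t : ℤ) ≤ 2 * ht x * ht P := by
      have : c x * (ht t : ℤ) = ht (pj P a x) := h1.symm
      rw [this]
      exact h2.trans h3
    have h5 : (c x : ℝ) * (ht t : ℝ) ≤ 2 * ht x * ht P := by exact_mod_cast h4
    have h6 : |((c x : ℤ) : ℝ)| = c x := abs_of_nonneg (by exact_mod_cast hc0 x)
    rw [h6, hB, le_div_iff₀ ht0]
    refine h5.trans ?_
    have := (hS x hx).le
    have h7 : (0 : ℝ) ≤ ht P := by positivity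
    nlinarith
  · intro x hx y hy hxy
    have h1 : (P a * mn x (Q j0) b d) * c y - (P a * mn y (Q j0) b d) * c x = ω * Δ x y := by
      rw [hu x hx, hu y hy, hΔ]
      ring
    have h2 : ((P a * mn x (Q j0) b d : ℤ) : ℝ) * ((c y : ℤ) : ℝ) -
        ((P a * mn y (Q j0) b d : ℤ) : ℝ) * ((c x : ℤ) : ℝ) = (ω : ℝ) * ((Δ x y : ℤ) : ℝ) := by
      exact_mod_cast h1
    show G / K2 ≤ |((P a * mn x (Q j0) b d : ℤ) : ℝ) * ((c y : ℤ) : ℝ) -
        ((P a * mn y (Q j0) b d : ℤ) : ℝ) * ((c x : ℤ) : ℝ)|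
    rw [h2, abs_mul]
    have h3 : (1 : ℝ) ≤ |(ω : ℝ)| := by
      have := Int.one_le_abs hω
      exact_mod_cast this
    have h4 := hbig x hx y hy hxy
    nlinarith [abs_nonneg ((Δ x y : ℤ) : ℝ)]

end Pool.Agent.K1H71.BP
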