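import Pool.Agent.K1H71.BP.Top2

/-!
# Many points with a large exceptional height, I (helper71)
-/

set_option autoImplicit false
set_option linter.unusedSectionVars false

namespace Pool.Agent.K1H71.BP

open Finset

/-- few points of a box on a hyperplane -/
theorem card_hyp {m : ℕ} (I : Fin m → Finset ℤ) (c : Fin m → ℚ) {b : Fin m} (hb : c b ≠ 0)
    (Z : Finset (Fin m → ℤ)) (hZ : ∀ z ∈ Z, (∀ i, z i ∈ I i) ∧ ∑ i, c i * (z i : ℚ) = 0) :
    Z.card * (I b).card ≤ ∏ i, (I i).card := by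
  classical
  have hmaps : ∀ z ∈ Z, Function.update z b 0 ∈ Fintype.piFinset (Function.update I b {0}) := by
    intro z hz
    rw [Fintype.mem_piFinset]
    intro i
    rcases eq_or_ne i b with rfl | hi
    · simp
    · rw [Function.update_of_ne hi, Function.update_of_ne hi]
      exact (hZ z hz).1 i
  have hinj : Set.InjOn (fun z : Fin m → ℤ => Function.update z b 0) Z := by
    intro z hz z' hz' h
    simp only at h
    have h1 : ∀ i, i ≠ b → z i = z' i := by
      intro i hi
      have := congrFun h i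
      rwa [Function.update_of_ne hi, Function.update_of_ne hi] at this
    have h2 := (hZ z hz).2
    have h3 := (hZ z' hz').2
    rw [← Finset.add_sum_erase univ _ (mem_univ b)] at h2 h3
    have h4 : ∑ i ∈ univ.erase b, c i * (z i : ℚ) = ∑ i ∈ univ.erase b, c i * (z' i : ℚ) :=
      Finset.sum_congr rfl fun i hi => by rw [h1 i (Finset.ne_of_mem_erase hi)]
    rw [h4] at h2
    have h5 : c b * (z b : ℚ) = c b * (z' b : ℚ) := by linarith
    have h6 : (z b : ℚ) = z' b := mul_left_cancel₀ hb h5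
    have h7 : z b = z' b := by exact_mod_cast h6
    funext i
    rcases eq_or_ne i b with rfl | hi
    · exact h7
    · exact h1 i hi
  have h1 := Finset.card_le_card_of_injOn _ hmaps hinj
  rw [Fintype.card_piFinset, ← Finset.mul_prod_erase univ _ (mem_univ b)] at h1
  have h2 : ∏ i ∈ univ.erase b, (Function.update I b {0} i).card =
      ∏ i ∈ univ.erase b, (I i).card :=
    Finset.prod_congr rfl fun i hi => by rw [Function.update_of_ne (Finset.ne_of_mem_erase hi)]
  rw [h2] at h1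
  simp only [Function.update_self, Finset.card_singleton, one_mul] at h1
  rw [← Finset.mul_prod_erase univ _ (mem_univ b), mul_comm]
  exact Nat.mul_le_mul_left _ h1

/-- the points close to `P` -/
def pt {n : ℕ} (P : Fin (n + 2) → ℤ) (a : Fin (n + 2)) (g : ℤ) (z : Fin (n + 2) → ℤ) :
    Fin (n + 2) → ℤ :=
  fun i => z a * P i + if i = a then 0 else |P a| * g * z i

theorem pt_a {n : ℕ} (P : Fin (n + 2) → ℤ) (a : Fin (n + 2)) (g : ℤ) (z : Fin (n + 2) → ℤ) :
    pt P a g z a = z a * P a := by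
  simp [pt]

theorem pt_ne {n : ℕ} (P : Fin (n + 2) → ℤ) (a : Fin (n + 2)) (g : ℤ) (z : Fin (n + 2) → ℤ)
    {i : Fin (n + 2)} (hi : i ≠ a) : pt P a g z i = z a * P i + |P a| * g * z i := by
  simp [pt, hi]

theorem exists_functional {n r : ℕ} (Q : Fin r → Fin (n + 2) → ℤ) (s : Finset (Fin r))
    (hs : s.card = n + 1) : ∃ L : (Fin (n + 2) → ℚ) →ₗ[ℚ] ℚ, L ≠ 0 ∧
      ∀ x : Fin (n + 2) → ℤ, ¬ Off Q s x → L (cq x) = 0 := by
  classical
  set V := Submodule.span ℚ ((fun i => cq (Q i)) '' (s : Set (Fin r))) with hV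
  have hlt : V < ⊤ := by
    refine lt_top_iff_ne_top.2 fun htop => ?_
    have h1 : Module.finrank ℚ V ≤ n + 1 := by
      have h2 := finrank_span_finset_le_card (R := ℚ) (s.image fun i => cq (Q i))
      rw [Finset.coe_image] at h2
      exact h2.trans (Finset.card_image_le.trans hs.le)
    rw [htop, finrank_top, Module.finrank_fintype_fun_eq_card, Fintype.card_fin] at h1
    omega
  obtain ⟨L, hL, hker⟩ := Submodule.exists_le_ker_of_lt_top V hlt
  refine ⟨L, hL, fun x hx => ?_⟩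
  unfold Off at hx
  rw [not_not] at hx
  exact hker hx

theorem bad_card {n r : ℕ} (Q : Fin r → Fin (n + 2) → ℤ) (P : Fin (n + 2) → ℤ)
    {a : Fin (n + 2)} (ha : P a ≠ 0) {g : ℤ} (hg : 0 < g) (I : Fin (n + 2) → Finset ℤ) {M : ℕ}
    (hI : ∀ i, M ≤ (I i).card) (s : Finset (Fin r)) (hs : s.card = n + 1)
    (Z : Finset (Fin (n + 2) → ℤ))
    (hZ : ∀ z ∈ Z, z ∈ Fintype.piFinset I ∧ ¬ Off Q s (pt P a g z)) :
    Z.card * M ≤ ∏ i, (I i).card := by
  classical
  obtain ⟨L, hL, hLs⟩ := exists_functional Q s hs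
  set c : Fin (n + 2) → ℚ := fun i => if i = a then L (cq P) else
    ((|P a| * g : ℤ) : ℚ) * L (Pi.single i 1) with hc
  have hLx : ∀ v : Fin (n + 2) → ℚ, L v = ∑ i, v i * L (Pi.single i 1) := by
    intro v
    conv_lhs => rw [← Finset.univ_sum_single v]
    rw [map_sum]
    refine Finset.sum_congr rfl fun i _ => ?_
    have h1 : (Pi.single i (v i) : Fin (n + 2) → ℚ) = v i • Pi.single i 1 := by
      rw [← Pi.single_smul, smul_eq_mul, mul_one]
    rw [h1, map_smul, smul_eq_mul]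
  have hGpos : (0 : ℤ) < |P a| * g := mul_pos (abs_pos.2 ha) hg
  have hGq : ((|P a| * g : ℤ) : ℚ) ≠ 0 := by exact_mod_cast hGpos.ne'
  have hex : ∃ b, c b ≠ 0 := by
    by_contra hcon
    push Not at hcon
    apply hL
    have h1 : ∀ i, i ≠ a → L (Pi.single i 1) = 0 := by
      intro i hi
      have := hcon i
      simp only [hc, if_neg hi] at this
      exact (mul_eq_zero.1 this).resolve_left hGq
    have h2 : L (cq P) = 0 := by
      have := hcon a
      simpa [hc] using this
    rw [hLx, ← Finset.add_sum_erase univ _ (mem_univ a),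
      Finset.sum_eq_zero (fun i hi => by rw [h1 i (Finset.ne_of_mem_erase hi), mul_zero]),
      add_zero] at h2
    have h3 : L (Pi.single a 1) = 0 := by
      refine (mul_eq_zero.1 h2).resolve_left ?_
      unfold cq
      exact_mod_cast ha
    refine LinearMap.ext fun v => ?_
    rw [hLx v, LinearMap.zero_apply]
    refine Finset.sum_eq_zero fun i _ => ?_
    rcases eq_or_ne i a with rfl | hi
    · rw [h3, mul_zero]
    · rw [h1 i hi, mul_zero]
  obtain ⟨b, hb⟩ := hex
  refine (Nat.mul_le_mul_left _ (hI b)).trans (card_hyp I c hb Z fun z hz => ?_)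
  obtain ⟨h1, h2⟩ := hZ z hz
  refine ⟨fun i => (Fintype.mem_piFinset.1 h1) i, ?_⟩
  have h3 := hLs _ h2
  rw [hLx] at h3
  rw [← h3, ← Finset.add_sum_erase univ _ (mem_univ a),
    ← Finset.add_sum_erase univ (fun i => cq (pt P a g z) i * L (Pi.single i 1)) (mem_univ a)]
  have h4 : c a * (z a : ℚ) = z a * (∑ i, (P i : ℚ) * L (Pi.single i 1)) := by
    simp only [hc, if_true]
    rw [hLx]
    unfold cq
    ring
  rw [h4, ← Finset.add_sum_erase univ _ (mem_univ a), mul_add, add_assoc]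
  congr 1
  · unfold cq
    rw [pt_a]
    push_cast
    ring
  · rw [Finset.mul_sum, ← Finset.sum_add_distrib]
    refine Finset.sum_congr rfl fun i hi => ?_
    have hi' := Finset.ne_of_mem_erase hi
    unfold cq
    rw [pt_ne P a g z hi']
    simp only [hc, if_neg hi']
    push_cast
    ring

/-- most points are in no span -/
theorem good_card {n r : ℕ} (Q : Fin r → Fin (n + 2) → ℤ) (P : Fin (n + 2) → ℤ)
    {a : Fin (n + 2)} (ha : P a ≠ 0) {g : ℤ} (hg : 0 < g) (I : Fin (n + 2) → Finset ℤ)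
    (hI : ∀ i, 2 ^ (r + 1) ≤ (I i).card) :
    ∃ Z : Finset (Fin (n + 2) → ℤ), (∀ z ∈ Z, (∀ i, z i ∈ I i) ∧
      ∀ s : Finset (Fin r), s.card = n + 1 → Off Q s (pt P a g z)) ∧
      ∏ i, (I i).card ≤ 2 * Z.card := by
  classical
  set W := Fintype.piFinset I with hW
  have hWc : W.card = ∏ i, (I i).card := Fintype.card_piFinset _
  set bad : Finset (Fin r) → Finset (Fin (n + 2) → ℤ) := fun s =>
    W.filter fun z => ¬ Off Q s (pt P a g z) with hbad
  set SS : Finset (Finset (Fin r)) := powersetCard (n + 1) univ with hSS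
  have hb : ∀ s ∈ SS, (bad s).card * 2 ^ (r + 1) ≤ W.card := by
    intro s hs
    rw [hWc]
    refine bad_card Q P ha hg I hI s (mem_powersetCard.1 hs).2 _ fun z hz => ?_
    exact mem_filter.1 hz
  set Bd' := SS.biUnion bad with hBd
  have hBdc : Bd'.card * 2 ^ (r + 1) ≤ 2 ^ r * W.card := by
    calc Bd'.card * 2 ^ (r + 1) ≤ (∑ s ∈ SS, (bad s).card) * 2 ^ (r + 1) :=
          Nat.mul_le_mul_right _ Finset.card_biUnion_le
      _ = ∑ s ∈ SS, (bad s).card * 2 ^ (r + 1) := by rw [Finset.sum_mul]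
      _ ≤ ∑ _s ∈ SS, W.card := Finset.sum_le_sum hb
      _ = SS.card * W.card := by rw [Finset.sum_const, smul_eq_mul]
      _ ≤ 2 ^ r * W.card := by
          refine Nat.mul_le_mul_right _ ?_
          rw [hSS, card_powersetCard, Finset.card_univ, Fintype.card_fin]
          exact Nat.choose_le_two_pow _ _
  have h2 : 2 * Bd'.card ≤ W.card := by
    have h3 : 2 ^ r * (2 * Bd'.card) ≤ 2 ^ r * W.card := by
      calc 2 ^ r * (2 * Bd'.card) = Bd'.card * 2 ^ (r + 1) := by rw [pow_succ]; ring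
        _ ≤ _ := hBdc
    exact Nat.le_of_mul_le_mul_left h3 (by positivity)
  refine ⟨W \ Bd', ?_, ?_⟩
  · intro z hz
    rw [mem_sdiff] at hz
    refine ⟨fun i => (Fintype.mem_piFinset.1 hz.1) i, fun s hs => ?_⟩
    by_contra hoff
    exact hz.2 (mem_biUnion.2 ⟨s, mem_powersetCard.2 ⟨subset_univ _, hs⟩,
      mem_filter.2 ⟨hz.1, hoff⟩⟩)
  · rw [← hWc]
    have h3 := Finset.card_le_card_sdiff_add_card (s := W) (t := Bd')
    omega

/-- primitivity -/
theorem pt_prim {n : ℕ} {P : Fin (n + 2) → ℤ} (hP : Pr P) {a : Fin (n + 2)} (_ha : P a ≠ 0)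
    {g : ℤ} (hg : 0 < g) {z : Fin (n + 2) → ℤ} {u : ℕ} (hu : u.Prime) (hza : z a = u)
    (hgu : |P a| * g < u) (hPa : 0 < |P a|) (hz : ∀ i, i ≠ a → 0 < z i ∧ z i < u) :
    Pr (pt P a g z) := by
  by_contra hcon
  set d := univ.gcd (pt P a g z) with hd
  have hd0 : 0 ≤ d := Int.nonneg_of_normalize_eq_self Finset.normalize_gcd
  have hd1 : d.natAbs ≠ 1 := by
    intro h
    apply hcon
    unfold Pr
    omega
  obtain ⟨l, hl, hld⟩ := Nat.exists_prime_and_dvd hd1
  have hlx : ∀ i, (l : ℤ) ∣ pt P a g z i := fun i =>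
    (Int.natCast_dvd.2 hld).trans (Finset.gcd_dvd (mem_univ i))
  have hlZ : Prime (l : ℤ) := Nat.prime_iff_prime_int.1 hl
  have hGpos : 0 < |P a| * g := mul_pos hPa hg
  have huP : ∀ l' : ℕ, l'.Prime → (l' : ℤ) ∣ (u : ℤ) → l' = u := fun l' hl' h =>
    (Nat.prime_dvd_prime_iff_eq hl' hu).1 (by exact_mod_cast h)
  by_cases hlG : (l : ℤ) ∣ |P a| * g
  · have h1 : (l : ℤ) ∣ u := by
      refine dvd_of_prim hP fun i => ?_
      have h2 := hlx i
      rcases eq_or_ne i a with rfl | hi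
      · rw [pt_a, hza, mul_comm] at h2
        exact h2
      · rw [pt_ne P a g z hi, hza] at h2
        have h3 : (l : ℤ) ∣ |P a| * g * z i := hlG.mul_right _
        rw [mul_comm]
        exact (Int.dvd_add_left h3).1 h2
    have h2 := huP l hl h1
    have h3 := Int.le_of_dvd hGpos hlG
    rw [h2] at h3
    omega
  · have h1 : (l : ℤ) ∣ u := by
      have h2 := hlx a
      rw [pt_a, hza] at h2
      rcases hlZ.dvd_or_dvd h2 with h3 | h3
      · exact h3
      · exact absurd (((dvd_abs _ _).2 h3).mul_right g) hlG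
    have h2 := huP l hl h1
    obtain ⟨b, hb⟩ : ∃ b : Fin (n + 2), b ≠ a := exists_ne a
    have h3 := hlx b
    rw [pt_ne P a g z hb, hza] at h3
    have h4 : (l : ℤ) ∣ |P a| * g * z b := (Int.dvd_add_right (h1.mul_right _)).1 h3
    rcases hlZ.dvd_or_dvd h4 with h5 | h5
    · exact hlG h5
    · have h6 := Int.le_of_dvd (hz b hb).1 h5
      rw [h2] at h6
      have := (hz b hb).2
      omega

/-- the exceptional height -/
theorem pt_eh {n : ℕ} {P : Fin (n + 2) → ℤ} {a : Fin (n + 2)} (ha : P a ≠ 0)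
    {g : ℤ} (hg : 0 < g) {z : Fin (n + 2) → ℤ} {R : ℕ} (hza : 0 < z a)
    (hz : ∀ i, i ≠ a → 0 < z i ∧ z i ≤ R) :
    (z a : ℝ) ≤ 2 * R * ht P * eh (pt P a g z) P := by
  have hPa : 0 < |P a| := abs_pos.2 ha
  have hG : 0 < |P a| * g := mul_pos hPa hg
  set w : Fin (n + 2) → ℤ := fun i => if i = a then 0 else z i with hw
  have hpt : ∀ i, pt P a g z i = z a * P i + |P a| * g * w i := by
    intro i
    simp only [pt, hw]
    split_ifs <;> simp
  have hwR : ∀ i, |w i| ≤ R := by
    intro i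
    simp only [hw]
    split_ifs with hi
    · simp
    · rw [abs_of_pos (hz i hi).1]
      exact (hz i hi).2
  have hmn : ∀ i j, mn (pt P a g z) P i j = |P a| * g * mn w P i j := by
    intro i j
    unfold mn
    rw [hpt, hpt]
    ring
  have hne : ∃ i j, mn (pt P a g z) P i j ≠ 0 := by
    obtain ⟨b, hb⟩ : ∃ b : Fin (n + 2), b ≠ a := exists_ne a
    refine ⟨b, a, ?_⟩
    rw [hmn]
    refine mul_ne_zero hG.ne' ?_
    unfold mn
    simp only [hw, if_neg hb, if_true, zero_mul, sub_zero]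
    exact mul_ne_zero (hz b hb).1.ne' ha
  have h1 : |P a| * g ≤ gd (pt P a g z) P := by
    refine Int.le_of_dvd (gd_pos hne) (dvd_gd fun i j => ?_)
    rw [hmn]
    exact dvd_mul_right _ _
  have h2 : (wd (pt P a g z) P : ℤ) ≤ |P a| * g * (2 * R * ht P) := by
    refine wd_le (by positivity) fun i j => ?_
    rw [hmn, abs_mul, abs_of_pos hG]
    refine mul_le_mul_of_nonneg_left ?_ hG.le
    unfold mn
    have e1 : |w i * P j| ≤ R * ht P := by
      rw [abs_mul]
      exact mul_le_mul (hwR i) (le_ht P j) (abs_nonneg _) (by positivity)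
    have e2 : |w j * P i| ≤ R * ht P := by
      rw [abs_mul]
      exact mul_le_mul (hwR j) (le_ht P i) (abs_nonneg _) (by positivity)
    calc |w i * P j - w j * P i| ≤ |w i * P j| + |w j * P i| := abs_sub _ _
      _ ≤ _ := by linarith
  have h3 : z a ≤ ht (pt P a g z) := by
    have h4 := le_ht (pt P a g z) a
    rw [pt_a, abs_mul, abs_of_pos hza] at h4
    have : (1 : ℤ) ≤ |P a| := hPa
    nlinarith
  have hw0 : (0 : ℝ) < wd (pt P a g z) P := by exact_mod_cast wd_pos hne
  have h1' : ((|P a| * g : ℤ) : ℝ) ≤ gd (pt P a g z) P := by exact_mod_cast h1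
  have h2' : (wd (pt P a g z) P : ℝ) ≤ ((|P a| * g : ℤ) : ℝ) * (2 * R * ht P) := by
    exact_mod_cast h2
  have h3' : (z a : ℝ) ≤ ht (pt P a g z) := by exact_mod_cast h3
  unfold eh
  rw [mul_div_assoc', le_div_iff₀ hw0]
  have hG' : (0 : ℝ) < ((|P a| * g : ℤ) : ℝ) := by exact_mod_cast hG
  have hza' : (0 : ℝ) < z a := by exact_mod_cast hza
  calc (z a : ℝ) * wd (pt P a g z) P
      ≤ ht (pt P a g z) * (((|P a| * g : ℤ) : ℝ) * (2 * R * ht P)) :=
        mul_le_mul h3' h2' hw0.le (by positivity)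
    _ = 2 * R * ht P * (ht (pt P a g z) * ((|P a| * g : ℤ) : ℝ)) := by ring
    _ ≤ _ := by
        refine mul_le_mul_of_nonneg_left ?_ (by positivity)
        exact mul_le_mul_of_nonneg_left h1' (by positivity)

/-- the height -/
theorem pt_ht {n : ℕ} {P : Fin (n + 2) → ℤ} {a : Fin (n + 2)}
    {g : ℤ} (hg : 0 < g) {z : Fin (n + 2) → ℤ} {R : ℕ} (hza : 0 < z a)
    (hz : ∀ i, i ≠ a → 0 < z i ∧ z i ≤ R) :
    (ht (pt P a g z) : ℤ) ≤ z a * ht P + |P a| * g * R := by
  have hG : 0 ≤ |P a| * g := mul_nonneg (abs_nonneg _) hg.le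
  refine ht_le (by positivity) fun i => ?_
  have e0 : |z a * P i| ≤ z a * ht P := by
    rw [abs_mul, abs_of_pos hza]
    exact mul_le_mul_of_nonneg_left (le_ht P i) hza.le
  rcases eq_or_ne i a with rfl | hi
  · rw [pt_a]
    have : 0 ≤ |P i| * g * R := mul_nonneg hG (by positivity)
    linarith
  · rw [pt_ne P a g z hi]
    have e1 : |(|P a| * g * z i)| ≤ |P a| * g * R := by
      rw [abs_mul, abs_of_nonneg hG, abs_of_pos (hz i hi).1]
      exact mul_le_mul_of_nonneg_left (hz i hi).2 hG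
    exact (abs_add_le _ _).trans (add_le_add e0 e1)

end Pool.Agent.K1H71.BP
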