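import Pool.Agent.K1H71.BP.Low

/-!
# Many points with a large exceptional height, II (helper71)
-/

set_option autoImplicit false
set_option linter.unusedSectionVars false

namespace Pool.Agent.K1H71.BP

open Finset Filter

theorem ev_pow {δ : ℝ} (hδ : 0 < δ) (K : ℝ) : ∀ᶠ B : ℝ in atTop, K ≤ B ^ δ :=
  (tendsto_rpow_atTop hδ).eventually_ge_atTop K

/-- many primes between `B ^ (1 - δ)` and `B / q` -/
theorem ev_primes {δ q : ℝ} (hδ : 0 < δ) (hδ1 : δ < 1) (hq : 1 ≤ q) :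
    ∀ᶠ B : ℝ in atTop, ∃ S : Finset ℕ, (∀ u ∈ S, u.Prime ∧ B ^ (1 - δ) ≤ u ∧ (u : ℝ) ≤ B / q) ∧
      B ^ (1 - δ) ≤ S.card := by
  have hq0 : 0 < q := by linarith
  have h1 : ∀ᶠ x : ℝ in atTop, Real.log x ≤ (1 / 10) * x := by
    filter_upwards [Real.isLittleO_log_id_atTop.bound (show (0 : ℝ) < 1 / 10 by norm_num),
      eventually_ge_atTop 1] with x hx hx1
    simp only [id] at hx
    rw [Real.norm_of_nonneg (Real.log_nonneg hx1), Real.norm_of_nonneg (by linarith)] at hx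
    exact hx
  have hshift : Tendsto (fun B : ℝ => B / q + 2) atTop atTop :=
    (tendsto_id.atTop_div_const hq0).atTop_add tendsto_const_nhds
  filter_upwards [hshift.eventually h1, eventually_ge_atTop (10 * q), eventually_ge_atTop 1,
    ev_pow (show 0 < δ / 2 by positivity) (24 * q / δ), ev_pow (show 0 < 1 - δ by linarith) 1]
    with B hB1 hB2 hB3 hB4 hB5
  classical
  have hB0 : 0 < B := by linarith
  set x : ℝ := B / q with hx
  have hx10 : 10 ≤ x := by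
    rw [hx, le_div_iff₀ hq0]
    linarith
  have hlog2 : 0.69 ≤ Real.log 2 := by
    have := Real.log_two_gt_d9
    linarith
  have h2 := Chebyshev.pi_ge' (x := x) (by linarith)
  have hlx : 0 < Real.log x := Real.log_pos (by linarith)
  have h3 : x / 4 ≤ (x - 1) * Real.log 2 - Real.log (x + 2) := by
    nlinarith
  have h4 : Real.log x ≤ x ^ (δ / 2) / (δ / 2) := Real.log_le_rpow_div (by linarith) (by positivity)
  have h5 : δ / 8 * x ^ (1 - δ / 2) ≤ (Nat.primeCounting ⌊x⌋₊ : ℝ) := by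
    refine le_trans ?_ h2
    rw [le_div_iff₀ hlx]
    refine le_trans ?_ h3
    have h6 : x ^ (1 - δ / 2) * x ^ (δ / 2) = x := by
      rw [← Real.rpow_add (by linarith)]
      norm_num
    calc δ / 8 * x ^ (1 - δ / 2) * Real.log x
        ≤ δ / 8 * x ^ (1 - δ / 2) * (x ^ (δ / 2) / (δ / 2)) :=
          mul_le_mul_of_nonneg_left h4 (by positivity)
      _ = (x ^ (1 - δ / 2) * x ^ (δ / 2)) / 4 := by
          field_simp
          ring
      _ = x / 4 := by rw [h6]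
  have h6 : B ^ (1 - δ / 2) / q ≤ x ^ (1 - δ / 2) := by
    rw [hx, Real.div_rpow hB0.le hq0.le]
    refine div_le_div_of_nonneg_left (by positivity) (by positivity) ?_
    calc q ^ (1 - δ / 2) ≤ q ^ (1 : ℝ) := Real.rpow_le_rpow_of_exponent_le hq (by linarith)
      _ = q := Real.rpow_one q
  have h7 : 3 * B ^ (1 - δ) ≤ (Nat.primeCounting ⌊x⌋₊ : ℝ) := by
    refine le_trans ?_ h5
    refine le_trans ?_ (mul_le_mul_of_nonneg_left h6 (by positivity))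
    have h8 : B ^ (1 - δ / 2) = B ^ (1 - δ) * B ^ (δ / 2) := by
      rw [← Real.rpow_add hB0]
      congr 1
      ring
    rw [h8]
    have h9 : 3 ≤ δ / 8 * (B ^ (δ / 2) / q) := by
      rw [div_le_iff₀ hδ] at hB4
      rw [mul_div_assoc', le_div_iff₀ hq0]
      linarith
    calc 3 * B ^ (1 - δ) ≤ δ / 8 * (B ^ (δ / 2) / q) * B ^ (1 - δ) :=
          mul_le_mul_of_nonneg_right h9 (by positivity)
      _ = _ := by ring
  refine ⟨((range (⌊x⌋₊ + 1)).filter Nat.Prime).filter fun u : ℕ => B ^ (1 - δ) ≤ (u : ℝ), ?_, ?_⟩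
  · intro u hu
    rw [mem_filter, mem_filter, mem_range] at hu
    refine ⟨hu.1.2, hu.2, ?_⟩
    have : u ≤ ⌊x⌋₊ := by omega
    exact (Nat.cast_le.2 this).trans (Nat.floor_le (by linarith))
  · have h8 : ((range (⌊x⌋₊ + 1)).filter Nat.Prime).card = Nat.primeCounting ⌊x⌋₊ := by
      rw [Nat.primeCounting, Nat.primeCounting', Nat.count_eq_card_filter_range]
    have h9 := Finset.card_filter_add_card_filter_not (s := (range (⌊x⌋₊ + 1)).filter Nat.Prime)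
      (fun u : ℕ => B ^ (1 - δ) ≤ (u : ℝ))
    rw [h8] at h9
    have h10 : (((range (⌊x⌋₊ + 1)).filter Nat.Prime).filter
        fun u : ℕ => ¬ B ^ (1 - δ) ≤ (u : ℝ)).card ≤ ⌊B ^ (1 - δ)⌋₊ + 1 := by
      have h11 : ((range (⌊x⌋₊ + 1)).filter Nat.Prime).filter
        (fun u : ℕ => ¬ B ^ (1 - δ) ≤ (u : ℝ)) ⊆ range (⌊B ^ (1 - δ)⌋₊ + 1) := by
        intro u hu
        rw [mem_filter] at hu
        rw [mem_range]
        have h12 := hu.2
        push Not at h12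
        have := Nat.le_floor h12.le
        omega
      have h13 := Finset.card_le_card h11
      rwa [card_range] at h13
    have h11 : (⌊B ^ (1 - δ)⌋₊ : ℝ) ≤ B ^ (1 - δ) := Nat.floor_le (by positivity)
    have h12 : ((((range (⌊x⌋₊ + 1)).filter Nat.Prime).filter
        fun u : ℕ => ¬ B ^ (1 - δ) ≤ (u : ℝ)).card : ℝ) ≤ ⌊B ^ (1 - δ)⌋₊ + 1 := by
      exact_mod_cast h10
    have h13 : ((((range (⌊x⌋₊ + 1)).filter Nat.Prime).filter
        fun u : ℕ => B ^ (1 - δ) ≤ (u : ℝ)).card : ℝ) + ((((range (⌊x⌋₊ + 1)).filter Nat.Prime).filter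
        fun u : ℕ => ¬ B ^ (1 - δ) ≤ (u : ℝ)).card : ℝ) = Nat.primeCounting ⌊x⌋₊ := by
      exact_mod_cast h9
    linarith

/-- few parameters give the same point -/
theorem par_card {n : ℕ} {P : Fin (n + 2) → ℤ} {a : Fin (n + 2)} (ha : P a ≠ 0) {R G : ℕ}
    {C δ B : ℝ} (hδ : 0 < δ) (hC0 : 0 ≤ C)
    (hC : ∀ m : ℕ, m ≠ 0 → (m.divisors.card : ℝ) ≤ C * (m : ℝ) ^ δ)
    (hB : (|P a| : ℝ) * G * R ≤ B) (𝒯 : Finset (Σ _ : ℕ, Fin (n + 2) → ℤ))
    (h𝒯 : ∀ τ ∈ 𝒯, τ.1 < G ∧ ∀ i, i ≠ a → 0 < τ.2 i ∧ τ.2 i ≤ R) (x : Fin (n + 2) → ℤ) :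
    ((𝒯.filter fun τ => pt P a ((τ.1 : ℤ) + 1) τ.2 = x).card : ℝ) ≤ C * B ^ δ := by
  classical
  have hPa : 0 < |P a| := abs_pos.2 ha
  have hPaR : (0 : ℝ) < |(P a : ℝ)| := by exact_mod_cast hPa
  have hB0 : 0 ≤ B := le_trans (by positivity) hB
  rcases (𝒯.filter fun τ => pt P a ((τ.1 : ℤ) + 1) τ.2 = x).eq_empty_or_nonempty with h0 | ⟨τ0, hτ0⟩
  · rw [h0]
    simp only [Finset.card_empty, Nat.cast_zero]
    positivity
  rw [mem_filter] at hτ0
  obtain ⟨hτ0T, hτ0x⟩ := hτ0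
  obtain ⟨b, hb⟩ : ∃ b : Fin (n + 2), b ≠ a := exists_ne a
  set v : ℤ := x b - τ0.2 a * P b with hv
  have hza : ∀ τ : Σ _ : ℕ, Fin (n + 2) → ℤ, pt P a ((τ.1 : ℤ) + 1) τ.2 = x →
      τ.2 a = τ0.2 a := by
    intro τ hτ
    have h1 : τ.2 a * P a = τ0.2 a * P a := by
      rw [← pt_a P a ((τ.1 : ℤ) + 1) τ.2, ← pt_a P a ((τ0.1 : ℤ) + 1) τ0.2, hτ, hτ0x]
    exact mul_right_cancel₀ ha h1
  have hvi : ∀ τ : Σ _ : ℕ, Fin (n + 2) → ℤ, pt P a ((τ.1 : ℤ) + 1) τ.2 = x → ∀ i, i ≠ a →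
      |P a| * ((τ.1 : ℤ) + 1) * τ.2 i = x i - τ0.2 a * P i := by
    intro τ hτ i hi
    rw [← hza τ hτ, ← hτ, pt_ne _ _ _ _ hi]
    ring
  have hvb := hvi τ0 hτ0x b hb
  obtain ⟨hg0, hz0⟩ := h𝒯 τ0 hτ0T
  have hvpos : 0 < v := by
    rw [hv, ← hvb]
    have := (hz0 b hb).1
    positivity
  have hvle : (v : ℝ) ≤ B := by
    refine le_trans ?_ hB
    rw [hv, ← hvb]
    push_cast
    have h1 : ((τ0.1 : ℝ) + 1) ≤ G := by exact_mod_cast hg0
    have h2 : ((τ0.2 b : ℤ) : ℝ) ≤ R := by exact_mod_cast (hz0 b hb).2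
    have h3 : (0 : ℝ) < ((τ0.2 b : ℤ) : ℝ) := by exact_mod_cast (hz0 b hb).1
    refine mul_le_mul ?_ h2 h3.le (by positivity)
    exact mul_le_mul_of_nonneg_left h1 hPaR.le
  have hmaps : ∀ τ ∈ 𝒯.filter (fun τ => pt P a ((τ.1 : ℤ) + 1) τ.2 = x),
      τ.1 + 1 ∈ v.natAbs.divisors := by
    intro τ hτ
    rw [mem_filter] at hτ
    rw [Nat.mem_divisors]
    refine ⟨?_, Int.natAbs_ne_zero.2 hvpos.ne'⟩
    have h1 := hvi τ hτ.2 b hb
    have h2 : ((τ.1 : ℤ) + 1) ∣ v := by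
      rw [hv, ← h1]
      exact Dvd.intro_left (|P a|) rfl |>.mul_right _
    have h3 := Int.natAbs_dvd_natAbs.2 h2
    have h4 : ((τ.1 : ℤ) + 1).natAbs = τ.1 + 1 := by omega
    rwa [h4] at h3
  have hinj : Set.InjOn (fun τ : Σ _ : ℕ, Fin (n + 2) → ℤ => τ.1 + 1)
      (𝒯.filter (fun τ => pt P a ((τ.1 : ℤ) + 1) τ.2 = x)) := by
    rintro ⟨g, z⟩ hτ ⟨g', z'⟩ hτ' h
    simp only [Finset.coe_filter, Set.mem_setOf_eq] at hτ hτ' h
    have hg : g = g' := by omega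
    subst hg
    congr 1
    funext i
    rcases eq_or_ne i a with rfl | hi
    · have h1 := hza ⟨g, z⟩ hτ.2
      have h2 := hza ⟨g, z'⟩ hτ'.2
      simp only at h1 h2
      rw [h1, h2]
    · have h1 := hvi ⟨g, z⟩ hτ.2 i hi
      have h2 := hvi ⟨g, z'⟩ hτ'.2 i hi
      simp only at h1 h2
      rw [← h2] at h1
      have : |P a| * ((g : ℤ) + 1) ≠ 0 := by positivity
      exact mul_left_cancel₀ this h1
  have h1 := Finset.card_le_card_of_injOn _ hmaps hinj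
  have h2 : ((𝒯.filter fun τ => pt P a ((τ.1 : ℤ) + 1) τ.2 = x).card : ℝ) ≤
      v.natAbs.divisors.card := by exact_mod_cast h1
  refine (h2.trans (hC _ (Int.natAbs_ne_zero.2 hvpos.ne'))).trans ?_
  refine mul_le_mul_of_nonneg_left ?_ hC0
  refine Real.rpow_le_rpow (by positivity) ?_ hδ.le
  have h3 : ((v.natAbs : ℕ) : ℝ) = v := by
    rw [Nat.cast_natAbs, abs_of_pos hvpos]
  rw [h3]
  exact hvle

end Pool.Agent.K1H71.BP
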