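import Pool.Agent.K1H71.BP.Low2

/-!
# Many points with a large exceptional height, III (helper71)
-/

set_option autoImplicit false
set_option linter.unusedSectionVars false

namespace Pool.Agent.K1H71.BP

open Finset Filter

theorem floor_ge {B α δ : ℝ} (hB : 1 ≤ B) (hδ : 2 ≤ B ^ δ) (hα : 2 ≤ B ^ α) :
    B ^ (α - δ) ≤ ⌊B ^ α⌋₊ := by
  have hB0 : 0 < B := by linarith
  have h1 : B ^ α - 1 < ⌊B ^ α⌋₊ := Nat.sub_one_lt_floor _
  have h2 : B ^ (α - δ) ≤ B ^ α / 2 := by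
    rw [Real.rpow_sub hB0]
    exact div_le_div_of_nonneg_left (by positivity) (by norm_num) hδ
  linarith

/-- **many points** -/
theorem many {n r : ℕ} (hn : 1 ≤ n) (hr : n + 1 ≤ r) (Q : Fin r → Fin (n + 2) → ℤ)
    (hQ : Gen n univ Q) (hP : ∀ j, Pr (Q j)) {κ c2 : ℝ} (hκ : 0 ≤ κ) (hκ1 : κ < 1) (hc2 : 0 < c2)
    {ε : ℝ} (hε : 0 < ε) :
    ∀ᶠ B : ℝ in atTop, ∃ S : Finset (Fin (n + 2) → ℤ),
      (∀ x ∈ S, Vio n r Q κ c2 x ∧ (ht x : ℝ) ≤ B) ∧ B ^ (n + 2 - n * κ - ε) ≤ S.card := by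
  classical
  have hr0 : 0 < r := by omega
  set i0 : Fin r := ⟨0, hr0⟩ with hi0
  obtain ⟨a, ha⟩ := ne_zero_of_prim (hP i0)
  have hPa : 0 < |Q i0 a| := abs_pos.2 ha
  have hPaR : (1 : ℝ) ≤ |(Q i0 a : ℝ)| := by
    have : (1 : ℤ) ≤ |Q i0 a| := hPa
    exact_mod_cast this
  set p : ℝ := (ht (Q i0) : ℝ) with hp
  have hp1 : 1 ≤ p := by
    have : (1 : ℤ) ≤ ht (Q i0) := one_le_ht ⟨a, ha⟩
    rw [hp]
    exact_mod_cast this
  set A : ℝ := |(Q i0 a : ℝ)| with hA
  set δ : ℝ := min (ε / (3 * n + 8)) ((1 - κ) / 4) with hδ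
  have hδ0 : 0 < δ := lt_min (by positivity) (by linarith)
  have hδ1 : (3 * n + 8) * δ ≤ ε := by
    have : δ ≤ ε / (3 * n + 8) := min_le_left _ _
    rw [le_div_iff₀ (by positivity)] at this
    linarith
  have hδ2 : δ ≤ (1 - κ) / 4 := min_le_right _ _
  obtain ⟨C, hC1, hC⟩ := Pool.Agent.H505R2.div_bound hδ0
  set c4 : ℝ := ∏ j ∈ univ.erase i0, (2 * (ht (Q j) : ℝ))⁻¹ with hc4
  have hhtQ : ∀ j, (1 : ℝ) ≤ ht (Q j) := fun j => by
    have : (1 : ℤ) ≤ ht (Q j) := one_le_ht (ne_zero_of_prim (hP j))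
    exact_mod_cast this
  have hc40 : 0 < c4 := Finset.prod_pos fun j _ => by
    have := hhtQ j
    positivity
  filter_upwards [eventually_ge_atTop 1, ev_primes hδ0 (by linarith) (show 1 ≤ 2 * p by linarith),
    ev_pow hδ0 2, ev_pow (show 0 < 1 - κ - 2 * δ by linarith) 2,
    ev_pow (show 0 < 1 - κ - 3 * δ by linarith) (2 ^ (r + 1)), ev_pow hδ0 (4 * A),
    ev_pow hδ0 (2 * p * (c2 / c4)), ev_pow hδ0 (2 * C),
    ev_pow (show 0 < 1 - δ by linarith) (2 ^ (r + 1))]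
    with B hB1 hprimes hB2 hBR hBR2 hBA hBc hBC hBu
  have hB0 : 0 < B := by linarith
  obtain ⟨U, hU, hUc⟩ := hprimes
  set R : ℕ := ⌊B ^ (1 - κ - 2 * δ)⌋₊ with hR
  set G : ℕ := ⌊B ^ κ⌋₊ with hG
  have hRle : (R : ℝ) ≤ B ^ (1 - κ - 2 * δ) := Nat.floor_le (by positivity)
  have hGle : (G : ℝ) ≤ B ^ κ := Nat.floor_le (by positivity)
  have hRge : B ^ (1 - κ - 3 * δ) ≤ R := by
    have := floor_ge hB1 hB2 hBR
    have e : 1 - κ - 2 * δ - δ = 1 - κ - 3 * δ := by ring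
    rwa [e] at this
  have hGge : B ^ (κ - δ) ≤ G := by
    have h1 : B ^ κ - 1 < ⌊B ^ κ⌋₊ := Nat.sub_one_lt_floor _
    have h2 : B ^ (κ - δ) ≤ B ^ κ / 2 := by
      rw [Real.rpow_sub hB0]
      exact div_le_div_of_nonneg_left (by positivity) (by norm_num) hB2
    have h0 : 1 ≤ B ^ κ := Real.one_le_rpow hB1 hκ
    rcases le_total 2 (B ^ κ) with h3 | h3
    · rw [hG]
      linarith
    · have h4 : 1 ≤ ⌊B ^ κ⌋₊ := Nat.le_floor (by simpa using h0)
      have h5 : (1 : ℝ) ≤ ⌊B ^ κ⌋₊ := by exact_mod_cast h4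
      rw [hG]
      linarith
  have hRG : A * G * R ≤ B / 2 := by
    have h1 : (G : ℝ) * R ≤ B ^ κ * B ^ (1 - κ - 2 * δ) :=
      mul_le_mul hGle hRle (by positivity) (by positivity)
    have h2 : B ^ κ * B ^ (1 - κ - 2 * δ) = B ^ (1 - δ) * B ^ (-δ) := by
      rw [← Real.rpow_add hB0, ← Real.rpow_add hB0]
      congr 1
      ring
    have h3 : B ^ (1 - δ) * B ^ δ = B := by
      rw [← Real.rpow_add hB0]
      norm_num
    have h4 : B ^ (-δ) ≤ 1 := Real.rpow_le_one_of_one_le_of_nonpos hB1 (by linarith)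
    have h5 : (G : ℝ) * R ≤ B ^ (1 - δ) := by
      rw [h2] at h1
      refine h1.trans ?_
      have : 0 < B ^ (1 - δ) := by positivity
      nlinarith
    have h6 : 4 * A * B ^ (1 - δ) ≤ B := by
      calc 4 * A * B ^ (1 - δ) ≤ B ^ δ * B ^ (1 - δ) :=
            mul_le_mul_of_nonneg_right hBA (by positivity)
        _ = B := by rw [mul_comm, h3]
    have h7 : A * G * R ≤ A * B ^ (1 - δ) := by
      rw [mul_assoc]
      exact mul_le_mul_of_nonneg_left h5 (by linarith)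
    linarith
  have hAG : A * G < B ^ (1 - δ) := by
    have h1 : B ^ κ ≤ B ^ (1 - δ - δ) := Real.rpow_le_rpow_of_exponent_le hB1 (by linarith)
    have h2 : B ^ (1 - δ - δ) * B ^ δ = B ^ (1 - δ) := by
      rw [← Real.rpow_add hB0]
      congr 1
      ring
    have h3 : 0 < B ^ (1 - δ - δ) := by positivity
    calc A * G ≤ A * B ^ (1 - δ - δ) := mul_le_mul_of_nonneg_left (hGle.trans h1) (by linarith)
      _ < 4 * A * B ^ (1 - δ - δ) := by nlinarith
      _ ≤ B ^ δ * B ^ (1 - δ - δ) := mul_le_mul_of_nonneg_right hBA h3.le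
      _ = B ^ (1 - δ) := by rw [mul_comm, h2]
  have hRu : (R : ℝ) < B ^ (1 - δ) := by
    have h1 : B ^ (1 - κ - 2 * δ) ≤ B ^ (1 - δ - δ) :=
      Real.rpow_le_rpow_of_exponent_le hB1 (by linarith)
    have h2 : B ^ (1 - δ - δ) * B ^ δ = B ^ (1 - δ) := by
      rw [← Real.rpow_add hB0]
      congr 1
      ring
    have h3 : 0 < B ^ (1 - δ - δ) := by positivity
    have h4 := hRle.trans h1
    nlinarith
  -- the box
  set I : Fin (n + 2) → Finset ℤ := fun i => if i = a then U.image (fun u : ℕ => (u : ℤ)) else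
    Finset.Icc 1 (R : ℤ) with hI
  have hIa : (I a).card = U.card := by
    simp only [hI, if_true]
    exact Finset.card_image_of_injective _ Nat.cast_injective
  have hIi : ∀ i, i ≠ a → (I i).card = R := by
    intro i hi
    simp only [hI, if_neg hi]
    rw [Int.card_Icc]
    omega
  have hIcard : ∀ i, 2 ^ (r + 1) ≤ (I i).card := by
    intro i
    rcases eq_or_ne i a with rfl | hi
    · rw [hIa]
      have h1 : ((2 ^ (r + 1) : ℕ) : ℝ) ≤ U.card := by
        push_cast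
        exact hBu.trans hUc
      exact_mod_cast h1
    · rw [hIi i hi]
      have h1 : ((2 ^ (r + 1) : ℕ) : ℝ) ≤ R := by
        push_cast
        exact hBR2.trans hRge
      exact_mod_cast h1
  have hIprod : ∏ i, (I i).card = U.card * R ^ (n + 1) := by
    rw [← Finset.mul_prod_erase univ _ (mem_univ a), hIa,
      Finset.prod_congr rfl (fun i hi => hIi i (Finset.ne_of_mem_erase hi)), Finset.prod_const,
      Finset.card_erase_of_mem (mem_univ a), Finset.card_univ, Fintype.card_fin]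
    rfl
  choose Z hZ1 hZ2 using fun g : ℕ =>
    good_card Q (Q i0) ha (g := (g : ℤ) + 1) (by positivity) I hIcard
  have hZmem : ∀ g : ℕ, ∀ z ∈ Z g, (∃ u ∈ U, z a = (u : ℤ)) ∧ ∀ i, i ≠ a → 0 < z i ∧ z i ≤ R := by
    intro g z hz
    have h1 := (hZ1 g z hz).1
    refine ⟨?_, fun i hi => ?_⟩
    · have h2 := h1 a
      simp only [hI, if_true, Finset.mem_image] at h2
      obtain ⟨u, hu, huz⟩ := h2
      exact ⟨u, hu, huz.symm⟩
    · have h2 := h1 i
      simp only [hI, if_neg hi, Finset.mem_Icc] at h2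
      exact ⟨by omega, h2.2⟩
  set 𝒯 : Finset (Σ _ : ℕ, Fin (n + 2) → ℤ) := (range G).sigma Z with h𝒯
  set F : (Σ _ : ℕ, Fin (n + 2) → ℤ) → Fin (n + 2) → ℤ := fun τ =>
    pt (Q i0) a ((τ.1 : ℤ) + 1) τ.2 with hF
  have h𝒯mem : ∀ τ ∈ 𝒯, τ.1 < G ∧ τ.2 ∈ Z τ.1 := by
    intro τ hτ
    rw [h𝒯, Finset.mem_sigma, mem_range] at hτ
    exact hτ
  refine ⟨𝒯.image F, ?_, ?_⟩
  · intro x hx
    rw [Finset.mem_image] at hx
    obtain ⟨τ, hτ, rfl⟩ := hx
    obtain ⟨hτ1, hτ2⟩ := h𝒯mem τ hτ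
    obtain ⟨⟨u, huU, hzu⟩, hzi⟩ := hZmem _ _ hτ2
    obtain ⟨hup, hulo, huhi⟩ := hU u huU
    have hu0 : 0 < u := hup.pos
    have hza0 : 0 < τ.2 a := by
      rw [hzu]
      exact_mod_cast hu0
    have hg0 : (0 : ℤ) < (τ.1 : ℤ) + 1 := by positivity
    have hgG : ((τ.1 : ℝ) + 1) ≤ G := by exact_mod_cast hτ1
    have hxht : (ht (F τ) : ℝ) ≤ B := by
      have h1 := pt_ht (P := Q i0) (a := a) hg0 (R := R) hza0 hzi
      have h2 : (ht (F τ) : ℝ) ≤ (τ.2 a : ℝ) * ht (Q i0) + |(Q i0 a : ℝ)| * ((τ.1 : ℝ) + 1) * R := by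
        have h3 : ((ht (F τ) : ℤ) : ℝ) ≤
            ((τ.2 a * ht (Q i0) + |Q i0 a| * ((τ.1 : ℤ) + 1) * R : ℤ) : ℝ) := by exact_mod_cast h1
        push_cast at h3
        exact h3
      have h3 : (τ.2 a : ℝ) = u := by
        rw [hzu]
        norm_cast
      rw [h3] at h2
      have h4 : (u : ℝ) * ht (Q i0) ≤ B / 2 := by
        rw [← hp]
        rw [le_div_iff₀ (by positivity)] at huhi
        linarith
      have h5 : |(Q i0 a : ℝ)| * ((τ.1 : ℝ) + 1) * R ≤ A * G * R := by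
        refine mul_le_mul_of_nonneg_right ?_ (by positivity)
        exact mul_le_mul_of_nonneg_left hgG (by positivity)
      linarith
    refine ⟨⟨?_, fun s hs => (hZ1 _ _ hτ2).2 s hs, ?_⟩, hxht⟩
    · refine pt_prim (hP i0) ha hg0 hup hzu ?_ hPa fun i hi => ⟨(hzi i hi).1, ?_⟩
      · have h1 : |(Q i0 a : ℝ)| * ((τ.1 : ℝ) + 1) < u := by
          calc |(Q i0 a : ℝ)| * ((τ.1 : ℝ) + 1) ≤ A * G :=
                mul_le_mul_of_nonneg_left hgG (by positivity)
            _ < B ^ (1 - δ) := hAG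
            _ ≤ u := hulo
        exact_mod_cast h1
      · have h1 : ((τ.2 i : ℤ) : ℝ) ≤ R := by exact_mod_cast (hzi i hi).2
        have h2 : ((τ.2 i : ℤ) : ℝ) < u := h1.trans_lt (hRu.trans_le hulo)
        exact_mod_cast h2
    · have h1 := pt_eh ha hg0 (R := R) hza0 hzi
      have h3 : (τ.2 a : ℝ) = u := by
        rw [hzu]
        norm_cast
      rw [h3, ← hp] at h1
      have hQne : ∀ j, ∃ b d, mn (F τ) (Q j) b d ≠ 0 := by
        intro j
        obtain ⟨k, rfl⟩ := Nat.exists_eq_add_of_le' hn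
        obtain ⟨s, hks, hs, hsc⟩ := Finset.exists_subsuperset_card_eq
          (Finset.singleton_subset_iff.2 (mem_univ j)) (by simp)
          (show k + 1 + 1 ≤ _ from hQ.card)
        exact ((hZ1 _ _ hτ2).2 s hsc).mn_ne (Finset.singleton_subset_iff.1 hks)
          (ne_zero_of_prim (hP j))
      have h4 : c4 ≤ ∏ j ∈ univ.erase i0, eh (F τ) (Q j) := by
        refine Finset.prod_le_prod (fun j _ => by positivity) fun j _ => ?_
        have h5 := one_le_eh (hQne j)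
        have h6 := hhtQ j
        rw [inv_le_iff_one_le_mul₀ (by positivity)]
        linarith
      have hRpos : (0 : ℝ) < R := lt_of_lt_of_le (by positivity) hRge
      have h5 : c2 / c4 * B ^ κ ≤ eh (F τ) (Q i0) := by
        have h6 : 2 * p * (c2 / c4) * B ^ κ * R ≤ u := by
          calc 2 * p * (c2 / c4) * B ^ κ * R ≤ B ^ δ * B ^ κ * B ^ (1 - κ - 2 * δ) := by
                refine mul_le_mul (mul_le_mul_of_nonneg_right hBc (by positivity)) hRle
                  (by positivity) (by positivity)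
            _ = B ^ (1 - δ) := by
                rw [← Real.rpow_add hB0, ← Real.rpow_add hB0]
                congr 1
                ring
            _ ≤ u := hulo
        have h7 : (2 * p * R) * (c2 / c4 * B ^ κ) ≤ (2 * p * R) * eh (F τ) (Q i0) := by
          calc (2 * p * R) * (c2 / c4 * B ^ κ) = 2 * p * (c2 / c4) * B ^ κ * R := by ring
            _ ≤ u := h6
            _ ≤ 2 * R * p * eh (F τ) (Q i0) := h1
            _ = _ := by ring
        exact le_of_mul_le_mul_left h7 (by positivity)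
      have h6 : ((ht (F τ) : ℕ) : ℝ) ^ κ ≤ B ^ κ := Real.rpow_le_rpow (by positivity) hxht hκ
      rw [← Finset.mul_prod_erase univ _ (mem_univ i0)]
      calc c2 * ((ht (F τ) : ℕ) : ℝ) ^ κ ≤ c2 * B ^ κ := mul_le_mul_of_nonneg_left h6 hc2.le
        _ = c2 / c4 * B ^ κ * c4 := by
            field_simp
        _ ≤ _ := mul_le_mul h5 h4 hc40.le (eh_nonneg _ _)
  · -- counting
    have hcard𝒯 : G * (U.card * R ^ (n + 1)) ≤ 2 * 𝒯.card := by
      rw [h𝒯, Finset.card_sigma, Finset.mul_sum]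
      calc G * (U.card * R ^ (n + 1)) = ∑ _g ∈ range G, ∏ i, (I i).card := by
            rw [Finset.sum_const, card_range, hIprod, smul_eq_mul]
        _ ≤ _ := Finset.sum_le_sum fun g _ => hZ2 g
    have hABG : (|Q i0 a| : ℝ) * G * R ≤ B := by
      have : A * G * R ≤ B := by linarith
      exact this
    have hfib : ∀ x ∈ 𝒯.image F, (𝒯.filter fun τ => F τ = x).card ≤ ⌊C * B ^ δ⌋₊ := by
      intro x _
      refine Nat.le_floor ?_
      refine par_card ha hδ0 (by linarith) hC (R := R) (G := G) hABG 𝒯 ?_ x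
      intro τ hτ
      obtain ⟨hτ1, hτ2⟩ := h𝒯mem τ hτ
      exact ⟨hτ1, (hZmem _ _ hτ2).2⟩
    have h1 := Finset.card_le_mul_card_image 𝒯 _ hfib
    have h2 : (𝒯.card : ℝ) ≤ C * B ^ δ * (𝒯.image F).card := by
      have h3 : (𝒯.card : ℝ) ≤ (⌊C * B ^ δ⌋₊ : ℝ) * (𝒯.image F).card := by exact_mod_cast h1
      refine h3.trans (mul_le_mul_of_nonneg_right (Nat.floor_le (by positivity)) (by positivity))
    have h3 : (G : ℝ) * (U.card * (R : ℝ) ^ (n + 1)) ≤ 2 * 𝒯.card := by exact_mod_cast hcard𝒯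
    have h4 : B ^ (κ - δ) * (B ^ (1 - δ) * (B ^ (1 - κ - 3 * δ)) ^ (n + 1)) ≤
        (G : ℝ) * (U.card * (R : ℝ) ^ (n + 1)) := by
      refine mul_le_mul hGge ?_ (by positivity) (by positivity)
      refine mul_le_mul hUc ?_ (by positivity) (by positivity)
      exact pow_le_pow_left₀ (by positivity) hRge _
    have h5 : B ^ (κ - δ) * (B ^ (1 - δ) * (B ^ (1 - κ - 3 * δ)) ^ (n + 1)) =
        B ^ (κ - δ + (1 - δ + (1 - κ - 3 * δ) * (n + 1))) := by
      rw [← Real.rpow_natCast (B ^ (1 - κ - 3 * δ)), ← Real.rpow_mul hB0.le,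
        ← Real.rpow_add hB0, ← Real.rpow_add hB0]
      push_cast
      rfl
    have h6 : B ^ (n + 2 - n * κ - ε) * (B ^ δ * B ^ δ) ≤
        B ^ (κ - δ + (1 - δ + (1 - κ - 3 * δ) * (n + 1))) := by
      rw [← Real.rpow_add hB0, ← Real.rpow_add hB0]
      refine Real.rpow_le_rpow_of_exponent_le hB1 ?_
      nlinarith
    have h7 : B ^ (n + 2 - n * κ - ε) * (B ^ δ * B ^ δ) ≤ 2 * (C * B ^ δ * (𝒯.image F).card) := by
      rw [← h5] at h6
      linarith
    have h8 : B ^ (n + 2 - n * κ - ε) * B ^ δ ≤ 2 * C * (𝒯.image F).card := by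
      have h9 : 0 < B ^ δ := by positivity
      have h10 : B ^ δ * (B ^ (n + 2 - n * κ - ε) * B ^ δ) ≤
          B ^ δ * (2 * C * (𝒯.image F).card) := by linarith
      exact le_of_mul_le_mul_left h10 h9
    have h9 : (2 * C) * B ^ (n + 2 - n * κ - ε) ≤ (2 * C) * (𝒯.image F).card := by
      calc (2 * C) * B ^ (n + 2 - n * κ - ε) ≤ B ^ δ * B ^ (n + 2 - n * κ - ε) :=
            mul_le_mul_of_nonneg_right hBC (by positivity)
        _ = B ^ (n + 2 - n * κ - ε) * B ^ δ := by ring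
        _ ≤ _ := h8
    exact le_of_mul_le_mul_left h9 (by linarith)

end Pool.Agent.K1H71.BP
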