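import Pool.Agent.K1H71.BP.Base

/-!
# The projection from an integral point (helper71)
-/

set_option autoImplicit false
set_option linter.unusedSectionVars false

namespace Pool.Agent.K1H71.BP

open Finset

variable {n : ℕ}

/-- the projection from `P`, `P a ≠ 0` -/
def pj (P : Fin (n + 1) → ℤ) (a : Fin (n + 1)) (x : Fin (n + 1) → ℤ) : Fin n → ℤ :=
  fun b => mn P x a (a.succAbove b)

variable {P : Fin (n + 1) → ℤ} {a : Fin (n + 1)}

theorem hat_le (x : Fin (n + 1) → ℤ) (b : Fin (n + 1)) : |mn P x a b| ≤ ht (pj P a x) := by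
  rcases eq_or_ne b a with rfl | h
  · have : mn P x b b = 0 := by unfold mn; ring
    rw [this, abs_zero]
    positivity
  · obtain ⟨c, rfl⟩ := Fin.exists_succAbove_eq h
    exact le_ht (pj P a x) c

theorem hat_dvd {x : Fin (n + 1) → ℤ} {c : ℤ} (h : ∀ i, c ∣ pj P a x i) (b : Fin (n + 1)) :
    c ∣ mn P x a b := by
  rcases eq_or_ne b a with rfl | hb
  · have : mn P x b b = 0 := by unfold mn; ring
    rw [this]
    exact dvd_zero _
  · obtain ⟨e, rfl⟩ := Fin.exists_succAbove_eq hb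
    exact h e

theorem hat_id (x : Fin (n + 1) → ℤ) (b d : Fin (n + 1)) :
    P a * mn x P b d = mn P x a b * P d - mn P x a d * P b := by
  unfold mn
  ring

theorem ht_pj_le (x : Fin (n + 1) → ℤ) : (ht (pj P a x) : ℤ) ≤ wd x P := by
  refine ht_le (by positivity) fun b => ?_
  show |mn P x a (a.succAbove b)| ≤ _
  rw [mn_comm, abs_neg]
  exact le_wd _ _ _ _

theorem wd_le_pj (ha : P a ≠ 0) (x : Fin (n + 1) → ℤ) :
    (wd x P : ℤ) ≤ 2 * ht P * ht (pj P a x) := by
  refine wd_le (by positivity) fun b d => ?_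
  have h1 : |mn x P b d| ≤ |P a * mn x P b d| := by
    rw [abs_mul]
    exact le_mul_of_one_le_left (abs_nonneg _) (Int.one_le_abs ha)
  refine h1.trans ?_
  rw [hat_id]
  have e : ∀ b d, |mn P x a b * P d| ≤ ht (pj P a x) * ht P := fun b d => by
    rw [abs_mul]
    exact mul_le_mul (hat_le _ _) (le_ht _ _) (abs_nonneg _) (by positivity)
  calc |mn P x a b * P d - mn P x a d * P b| ≤ |mn P x a b * P d| + |mn P x a d * P b| := abs_sub _ _
    _ ≤ _ := by
        have := e b d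
        have := e d b
        linarith

theorem pj_ne (ha : P a ≠ 0) {x : Fin (n + 1) → ℤ} (h : ∃ b d, mn x P b d ≠ 0) :
    ∃ i, pj P a x i ≠ 0 := by
  by_contra hcon
  push Not at hcon
  obtain ⟨b, d, h⟩ := h
  have h1 : (ht (pj P a x) : ℤ) ≤ 0 := ht_le le_rfl fun i => by rw [hcon i]; simp
  have h2 := (wd_pos ⟨b, d, h⟩).trans_le (wd_le_pj (a := a) ha x)
  have h3 : (ht (pj P a x) : ℤ) = 0 := le_antisymm h1 (by positivity)
  rw [h3, mul_zero] at h2
  exact lt_irrefl _ h2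

theorem gd_dvd_pj (x : Fin (n + 1) → ℤ) : gd x P ∣ univ.gcd (pj P a x) := by
  refine Finset.dvd_gcd fun b _ => ?_
  show _ ∣ mn P x a (a.succAbove b)
  rw [mn_comm]
  exact (dvd_neg).2 (gd_dvd _ _ _ _)

theorem pj_dvd (x : Fin (n + 1) → ℤ) (b d : Fin (n + 1)) :
    univ.gcd (pj P a x) ∣ P a * mn x P b d := by
  rw [hat_id]
  have h : ∀ i, univ.gcd (pj P a x) ∣ pj P a x i := fun i => Finset.gcd_dvd (mem_univ i)
  exact dvd_sub ((hat_dvd h b).mul_right _) ((hat_dvd h d).mul_right _)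

theorem mn_pj (x Q : Fin (n + 1) → ℤ) (b d : Fin n) :
    mn (pj P a x) (pj P a Q) b d = P a * (P a * mn x Q (a.succAbove b) (a.succAbove d) +
      P (a.succAbove b) * mn x Q (a.succAbove d) a + P (a.succAbove d) * mn x Q a (a.succAbove b)) := by
  simp only [pj, mn]
  ring

theorem gd_dvd_gd_pj (x Q : Fin (n + 1) → ℤ) : gd x Q ∣ gd (pj P a x) (pj P a Q) := by
  refine dvd_gd fun b d => ?_
  rw [mn_pj]
  have e : ∀ b d, gd x Q ∣ mn x Q b d := fun b d => gd_dvd _ _ _ _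
  exact (dvd_add (dvd_add ((e _ _).mul_left _) ((e _ _).mul_left _)) ((e _ _).mul_left _)).mul_left _

theorem wd_pj_le (x Q : Fin (n + 1) → ℤ) :
    (wd (pj P a x) (pj P a Q) : ℤ) ≤ 3 * ht P * ht P * wd x Q := by
  refine wd_le (by positivity) fun b d => ?_
  rw [mn_pj, abs_mul]
  have e : ∀ c b d, |P c * mn x Q b d| ≤ ht P * wd x Q := fun c b d => by
    rw [abs_mul]
    exact mul_le_mul (le_ht _ _) (le_wd _ _ _ _) (abs_nonneg _) (by positivity)
  have h1 : |P a * mn x Q (a.succAbove b) (a.succAbove d) +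
      P (a.succAbove b) * mn x Q (a.succAbove d) a + P (a.succAbove d) * mn x Q a (a.succAbove b)|
      ≤ 3 * (ht P * wd x Q) := by
    refine (abs_add_le _ _).trans ?_
    have h2 := abs_add_le (P a * mn x Q (a.succAbove b) (a.succAbove d))
      (P (a.succAbove b) * mn x Q (a.succAbove d) a)
    have := e a (a.succAbove b) (a.succAbove d)
    have := e (a.succAbove b) (a.succAbove d) a
    have := e (a.succAbove d) a (a.succAbove b)
    linarith
  calc |P a| * _ ≤ ht P * (3 * (ht P * wd x Q)) :=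
        mul_le_mul (le_ht _ _) h1 (abs_nonneg _) (by positivity)
    _ = _ := by ring

theorem mn_mul_left {m : Type} (c : ℤ) (t y : m → ℤ) {v : m → ℤ} (hv : ∀ i, v i = c * t i)
    (b d : m) : mn v y b d = c * mn t y b d := by
  simp only [mn, hv]
  ring

theorem gd_mul_left {m : Type} [Fintype m] {c : ℤ} (hc : 0 ≤ c) (t y : m → ℤ) {v : m → ℤ}
    (hv : ∀ i, v i = c * t i) : gd v y = c * gd t y := by
  unfold gd
  have : (fun p : m × m => mn v y p.1 p.2) = fun p : m × m => c * mn t y p.1 p.2 := by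
    funext p
    exact mn_mul_left c t y hv _ _
  rw [this, Finset.gcd_mul_left, Int.normalize_of_nonneg hc]

theorem ht_mul_left {m : Type} [Fintype m] {c : ℤ} (hc : 0 ≤ c) (t : m → ℤ) {v : m → ℤ}
    (hv : ∀ i, v i = c * t i) (ht0 : ∃ i, t i ≠ 0) : (ht v : ℤ) = c * ht t := by
  apply le_antisymm
  · refine ht_le (by positivity) fun i => ?_
    rw [hv, abs_mul, abs_of_nonneg hc]
    exact mul_le_mul_of_nonneg_left (le_ht t i) hc
  · obtain ⟨i0, hi0⟩ := ht0
    obtain ⟨i, _, hi⟩ := Finset.exists_mem_eq_sup univ ⟨i0, mem_univ i0⟩ (fun i => (t i).natAbs)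
    have h1 : (ht t : ℤ) = |t i| := by
      rw [Int.abs_eq_natAbs]
      unfold ht
      rw [hi]
    rw [h1, ← abs_of_nonneg hc, ← abs_mul, ← hv]
    exact le_ht v i

theorem wd_mul_left {m : Type} [Fintype m] {c : ℤ} (hc : 0 ≤ c) (t y : m → ℤ) {v : m → ℤ}
    (hv : ∀ i, v i = c * t i) (ht0 : ∃ b d, mn t y b d ≠ 0) : (wd v y : ℤ) = c * wd t y := by
  apply le_antisymm
  · refine wd_le (by positivity) fun b d => ?_
    rw [mn_mul_left c t y hv, abs_mul, abs_of_nonneg hc]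
    exact mul_le_mul_of_nonneg_left (le_wd t y b d) hc
  · obtain ⟨b0, d0, hi0⟩ := ht0
    obtain ⟨p, _, hi⟩ := Finset.exists_mem_eq_sup univ (⟨(b0, d0), mem_univ _⟩ :
      (univ : Finset (m × m)).Nonempty) (fun p => (mn t y p.1 p.2).natAbs)
    have h1 : (wd t y : ℤ) = |mn t y p.1 p.2| := by
      rw [Int.abs_eq_natAbs]
      unfold wd
      rw [hi]
    rw [h1, ← abs_of_nonneg hc, ← abs_mul, ← mn_mul_left c t y hv]
    exact le_wd v y _ _

/-- the content of the projection and the exceptional part at another point -/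
theorem gcd_dvd_const {x Q : Fin (n + 1) → ℤ} (hx : Pr x) {d : ℤ} (h1 : d ∣ gd x Q)
    (h2 : d ∣ univ.gcd (pj P a x)) : d ∣ P a * gd P Q := by
  have h3 : ∀ b e, d ∣ P a * mn P Q b e := by
    intro b e
    refine dvd_of_prim hx fun c => ?_
    have : x c * (P a * mn P Q b e) =
        P c * (P a * mn x Q b e) + Q e * (P a * mn x P c b) - Q b * (P a * mn x P c e) := by
      have := mn_id x P Q c b e
      linear_combination P a * this
    rw [this]
    have e1 : d ∣ P a * mn x Q b e := (h1.trans (gd_dvd _ _ _ _)).mul_left _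
    have e2 : ∀ b d', d ∣ P a * mn x P b d' := fun b d' => h2.trans (pj_dvd _ _ _)
    exact dvd_sub (dvd_add (e1.mul_left _) ((e2 _ _).mul_left _)) ((e2 _ _).mul_left _)
  have h4 : d ∣ univ.gcd fun p : Fin (n + 1) × Fin (n + 1) => P a * mn P Q p.1 p.2 :=
    Finset.dvd_gcd fun p _ => h3 _ _
  rw [Finset.gcd_mul_left] at h4
  have h5 : normalize (P a) * gd P Q ∣ P a * gd P Q :=
    mul_dvd_mul_right (normalize_associated (P a)).dvd _
  exact h4.trans h5

/-- the exceptional part of `x` at `Q` divides a constant times that of the projection -/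
theorem gd_dvd_mul {x Q : Fin (n + 1) → ℤ} (hx : Pr x) {t : Fin n → ℤ}
    (ht0 : ∀ i, pj P a x i = univ.gcd (pj P a x) * t i) :
    gd x Q ∣ P a * gd P Q * gd t (pj P a Q) := by
  set c := univ.gcd (pj P a x) with hc
  have hc0 : 0 ≤ c := Int.nonneg_of_normalize_eq_self Finset.normalize_gcd
  have h1 : gd x Q ∣ c * gd t (pj P a Q) := by
    rw [← gd_mul_left hc0 t (pj P a Q) ht0]
    exact gd_dvd_gd_pj x Q
  have h2 : gd x Q ∣ gd x Q * gd t (pj P a Q) := dvd_mul_right _ _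
  have h3 := GCDMonoid.dvd_gcd h2 h1
  rw [_root_.gcd_mul_right] at h3
  have h4 : GCDMonoid.gcd (gd x Q) c ∣ P a * gd P Q :=
    gcd_dvd_const hx (GCDMonoid.gcd_dvd_left _ _) (GCDMonoid.gcd_dvd_right _ _)
  refine h3.trans ?_
  exact mul_dvd_mul h4 (normalize_associated _).dvd

/-- the height of the projection -/
theorem ht_mul_eh {x : Fin (n + 1) → ℤ} {t : Fin n → ℤ} (ha : P a ≠ 0)
    (hxP : ∃ b d, mn x P b d ≠ 0) (htp : Pr t)
    (ht0 : ∀ i, pj P a x i = univ.gcd (pj P a x) * t i) :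
    (ht t : ℝ) * eh x P ≤ ht x := by
  set c := univ.gcd (pj P a x) with hc
  have hc0 : 0 ≤ c := Int.nonneg_of_normalize_eq_self Finset.normalize_gcd
  have hcpos : 0 < c := by
    refine lt_of_le_of_ne hc0 fun h0 => ?_
    obtain ⟨i, hi⟩ := pj_ne ha hxP
    rw [ht0, ← h0, zero_mul] at hi
    exact hi rfl
  have h1 := ht_mul_left hc0 t ht0 (ne_zero_of_prim htp)
  have h2 := ht_pj_le (P := P) (a := a) x
  have h3 : gd x P ≤ c := Int.le_of_dvd hcpos (gd_dvd_pj x)
  have hw := wd_pos hxP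
  have hwR : (0 : ℝ) < (wd x P : ℝ) := by exact_mod_cast hw
  have h4 : (ht t : ℤ) * gd x P ≤ wd x P := by
    calc (ht t : ℤ) * gd x P ≤ ht t * c := mul_le_mul_of_nonneg_left h3 (by positivity)
      _ = ht (pj P a x) := by rw [h1]; ring
      _ ≤ _ := h2
  have h5 : (ht t : ℝ) * (gd x P : ℝ) ≤ wd x P := by exact_mod_cast h4
  unfold eh
  rw [mul_div_assoc', div_le_iff₀ hwR]
  have : (0 : ℝ) ≤ ht x := by positivity
  nlinarith

/-- the exceptional height at another point does not decrease much -/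
theorem eh_proj_ge (ha : P a ≠ 0) (Q : Fin (n + 1) → ℤ) (hPQ : ∃ b d, mn P Q b d ≠ 0) :
    ∃ c1 : ℝ, 0 < c1 ∧ ∀ (x : Fin (n + 1) → ℤ) (t : Fin n → ℤ), Pr x → Pr t →
      (∃ b d, mn x P b d ≠ 0) → (∃ b d, mn x Q b d ≠ 0) →
      (∃ b d, mn t (pj P a Q) b d ≠ 0) →
      (∀ i, pj P a x i = univ.gcd (pj P a x) * t i) →
      c1 * eh x Q ≤ eh t (pj P a Q) := by
  set p : ℝ := ((ht P : ℕ) : ℝ) with hp
  set q : ℝ := ((ht Q : ℕ) : ℝ) with hq
  set K0 : ℝ := |((P a : ℤ) : ℝ)| * ((gd P Q : ℤ) : ℝ) with hK0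
  set h' : ℝ := ((ht (pj P a Q) : ℕ) : ℝ) with hh'
  have hp1 : 1 ≤ p := by
    have : (1 : ℤ) ≤ ht P := one_le_ht ⟨a, ha⟩
    rw [hp]
    exact_mod_cast this
  have hQ0 : ∃ i, Q i ≠ 0 := by
    by_contra hcon
    push Not at hcon
    obtain ⟨b, d, hbd⟩ := hPQ
    apply hbd
    unfold mn
    rw [hcon, hcon]
    ring
  have hq1 : 1 ≤ q := by
    have : (1 : ℤ) ≤ ht Q := one_le_ht hQ0
    rw [hq]
    exact_mod_cast this
  have hK1 : 1 ≤ K0 := by
    have h1 : (1 : ℤ) ≤ |P a| := Int.one_le_abs ha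
    have h2 : (1 : ℤ) ≤ gd P Q := gd_pos hPQ
    have h3 : (1 : ℝ) ≤ |(P a : ℝ)| := by exact_mod_cast h1
    have h4 : (1 : ℝ) ≤ gd P Q := by exact_mod_cast h2
    rw [hK0]
    nlinarith
  have hh0 : 0 ≤ h' := by positivity
  set D : ℝ := 24 * p ^ 3 * q * K0 + 4 * p * K0 * h' with hD
  have hD1 : 24 * p ^ 3 * q * K0 ≤ D := by
    rw [hD]
    have : 0 ≤ 4 * p * K0 * h' := by positivity
    linarith
  have hD2 : 4 * p * K0 * h' ≤ D := by
    rw [hD]
    have : 0 ≤ 24 * p ^ 3 * q * K0 := by positivity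
    linarith
  have hD0 : 0 < D := lt_of_lt_of_le (by positivity) hD1
  refine ⟨1 / D, by positivity, ?_⟩
  intro x t hx ht' hxP hxQ htQ ht0
  set c := univ.gcd (pj P a x) with hc
  have hc0 : 0 ≤ c := Int.nonneg_of_normalize_eq_self Finset.normalize_gcd
  have hcpos : 0 < c := by
    refine lt_of_le_of_ne hc0 fun h0 => ?_
    obtain ⟨i, hi⟩ := pj_ne ha hxP
    rw [ht0, ← h0, zero_mul] at hi
    exact hi rfl
  have hcR : (0 : ℝ) < c := by exact_mod_cast hcpos
  -- the real numbers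
  set X : ℝ := ((ht x : ℕ) : ℝ) with hX
  set W : ℝ := ((wd x Q : ℕ) : ℝ) with hW
  set G : ℝ := ((gd x Q : ℤ) : ℝ) with hG
  set T : ℝ := ((ht t : ℕ) : ℝ) with hT
  set Wt : ℝ := ((wd t (pj P a Q) : ℕ) : ℝ) with hWt
  set Gt : ℝ := ((gd t (pj P a Q) : ℤ) : ℝ) with hGt
  have hW0 : 0 < W := by rw [hW]; exact_mod_cast wd_pos hxQ
  have hWt0 : 0 < Wt := by rw [hWt]; exact_mod_cast wd_pos htQ
  have hG0 : 0 < G := by rw [hG]; exact_mod_cast gd_pos hxQ
  have hGt0 : 0 < Gt := by rw [hGt]; exact_mod_cast gd_pos htQ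
  have hX0 : 0 ≤ X := by positivity
  have hT0 : 0 ≤ T := by positivity
  have f1 : G ≤ K0 * Gt := by
    have h1 := gd_dvd_mul (Q := Q) hx ht0
    have h2 : gd x Q ∣ |P a| * gd P Q * gd t (pj P a Q) := by
      rcases abs_choice (P a) with h | h
      · rw [h]; exact h1
      · rw [h, neg_mul, neg_mul]; exact (dvd_neg).2 h1
    have h3 : 0 < |P a| * gd P Q * gd t (pj P a Q) := by
      have := abs_pos.2 ha
      have := gd_pos hPQ
      have := gd_pos htQ
      positivity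
    have h4 := Int.le_of_dvd h3 h2
    rw [hG, hK0, hGt]
    exact_mod_cast h4
  have f2 : (c : ℝ) * Wt ≤ 3 * p ^ 2 * W := by
    have h1 := wd_mul_left hc0 t (pj P a Q) ht0 htQ
    have h2 := wd_pj_le (P := P) (a := a) x Q
    rw [h1] at h2
    have h3 : ((c : ℤ) : ℝ) * (wd t (pj P a Q) : ℝ) ≤ 3 * ht P * ht P * wd x Q := by exact_mod_cast h2
    rw [hWt, hW, hp]
    linarith
  set V : ℝ := ((ht (pj P a x) : ℕ) : ℝ) with hV
  have f3 : (c : ℝ) * T = V := by
    have h1 := ht_mul_left hc0 t ht0 (ne_zero_of_prim ht')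
    rw [hT, hV]
    exact_mod_cast h1.symm
  have f4 : X ≤ p * W + 4 * p * q * V := by
    have h1 := ht_le_add (x := x) hPQ
    have h2 := wd_le_pj (a := a) ha x
    have h1' : (ht x : ℝ) ≤ ht P * wd x Q + 2 * ht Q * wd x P := by exact_mod_cast h1
    have h2' : (wd x P : ℝ) ≤ 2 * ht P * ht (pj P a x) := by exact_mod_cast h2
    have h3 : 2 * (ht Q : ℝ) * wd x P ≤ 2 * ht Q * (2 * ht P * ht (pj P a x)) :=
      mul_le_mul_of_nonneg_left h2' (by positivity)
    rw [hX, hp, hq, hW, hV]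
    linarith
  have f5 : Wt ≤ 2 * T * h' := by
    have h1 := wd_le_ht t (pj P a Q)
    rw [hWt, hT, hh']
    exact_mod_cast h1
  have goal : X * G / W ≤ D * (T * Gt / Wt) := by
    rw [mul_div_assoc', div_le_div_iff₀ hW0 hWt0]
    by_cases hcase : X ≤ 2 * p * W
    · -- far from `Q`
      have h1 : X * G * Wt ≤ (2 * p * W) * (K0 * Gt) * (2 * T * h') := by
        have a1 : X * G ≤ (2 * p * W) * (K0 * Gt) := mul_le_mul hcase f1 hG0.le (by positivity)
        exact mul_le_mul a1 f5 hWt0.le (by positivity)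
      have h2 : (2 * p * W) * (K0 * Gt) * (2 * T * h') = (4 * p * K0 * h') * (T * Gt) * W := by ring
      rw [h2] at h1
      refine h1.trans ?_
      have : 0 ≤ T * Gt * W := by positivity
      nlinarith
    · push Not at hcase
      have h0 : X ≤ 8 * p * q * V := by linarith
      have h1 : (c : ℝ) * (X * G * Wt) ≤ (8 * p * q * V) * (K0 * Gt) * (3 * p ^ 2 * W) := by
        have a1 : X * G ≤ (8 * p * q * V) * (K0 * Gt) := mul_le_mul h0 f1 hG0.le (by positivity)
        calc (c : ℝ) * (X * G * Wt) = X * G * (c * Wt) := by ring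
          _ ≤ _ := mul_le_mul a1 f2 (by positivity) (by positivity)
      have h2 : (8 * p * q * V) * (K0 * Gt) * (3 * p ^ 2 * W) =
          c * ((24 * p ^ 3 * q * K0) * (T * Gt) * W) := by
        rw [← f3]
        ring
      rw [h2] at h1
      have h3 := le_of_mul_le_mul_left h1 hcR
      refine h3.trans ?_
      have : 0 ≤ T * Gt * W := by positivity
      nlinarith
  have e1 : eh x Q = X * G / W := rfl
  have e2 : eh t (pj P a Q) = T * Gt / Wt := rfl
  rw [e1, e2, one_div, inv_mul_le_iff₀ hD0]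
  exact goal

end Pool.Agent.K1H71.BP
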