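import Pool.Agent.K1H71.BP.Fib2

/-!
# Linear spans, dyadic sums (helper71)
-/

set_option autoImplicit false
set_option linter.unusedSectionVars false

namespace Pool.Agent.K1H71.BP

open Finset

/-- rational coordinates -/
def cq {m : Type} (x : m → ℤ) : m → ℚ := fun i => (x i : ℚ)

/-- `x` is not in the span of the points `Q i`, `i ∈ s` -/
def Off {ι m : Type} (Q : ι → m → ℤ) (s : Finset ι) (x : m → ℤ) : Prop :=
  cq x ∉ Submodule.span ℚ ((fun i => cq (Q i)) '' (s : Set ι))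

variable {ι : Type} [DecidableEq ι]

theorem Off.mono {m : Type} {Q : ι → m → ℤ} {s s' : Finset ι} {x : m → ℤ} (h : Off Q s x)
    (hs : s' ⊆ s) : Off Q s' x := fun h1 =>
  h (Submodule.span_mono (Set.image_mono (by exact_mod_cast hs)) h1)

theorem Off.of_smul {m : Type} {Q : ι → m → ℤ} {s : Finset ι} {v t : m → ℤ} {c : ℤ}
    (hv : ∀ i, v i = c * t i) (h : Off Q s v) : Off Q s t := by
  intro h1
  apply h
  have : cq v = (c : ℚ) • cq t := by
    funext i
    simp only [cq, hv, Pi.smul_apply, smul_eq_mul, Int.cast_mul]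
  rw [this]
  exact Submodule.smul_mem _ _ h1

theorem Off.ne_zero {m : Type} {Q : ι → m → ℤ} {s : Finset ι} {x : m → ℤ} (h : Off Q s x) :
    ∃ i, x i ≠ 0 := by
  by_contra hcon
  push Not at hcon
  apply h
  have : cq x = 0 := by
    funext i
    simp [cq, hcon]
  rw [this]
  exact Submodule.zero_mem _

theorem Off.mn_ne {m : Type} {Q : ι → m → ℤ} {s : Finset ι} {x : m → ℤ} (h : Off Q s x)
    {j : ι} (hj : j ∈ s) (hQ : ∃ i, Q j i ≠ 0) : ∃ b d, mn x (Q j) b d ≠ 0 := by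
  by_contra hcon
  push Not at hcon
  obtain ⟨i, hi⟩ := hQ
  apply h
  have h1 : cq x = ((x i : ℚ) / (Q j i : ℚ)) • cq (Q j) := by
    funext b
    have h2 := hcon i b
    unfold mn at h2
    have hi' : (Q j i : ℚ) ≠ 0 := by exact_mod_cast hi
    simp only [cq, Pi.smul_apply, smul_eq_mul]
    rw [div_mul_eq_mul_div, eq_div_iff hi']
    have h3 : x b * Q j i = x i * Q j b := by linarith
    exact_mod_cast h3
  rw [h1]
  exact Submodule.smul_mem _ _ (Submodule.subset_span ⟨j, by exact_mod_cast hj, rfl⟩)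

/-- the projection over `ℚ` -/
noncomputable def pjl {n : ℕ} (P : Fin (n + 1) → ℤ) (a : Fin (n + 1)) :
    (Fin (n + 1) → ℚ) →ₗ[ℚ] (Fin n → ℚ) where
  toFun v := fun b => (P a : ℚ) * v (a.succAbove b) - (P (a.succAbove b) : ℚ) * v a
  map_add' u v := by
    funext b
    simp only [Pi.add_apply]
    ring
  map_smul' c v := by
    funext b
    simp only [Pi.smul_apply, smul_eq_mul, RingHom.id_apply]
    ring

theorem pjl_cq {n : ℕ} (P : Fin (n + 1) → ℤ) (a : Fin (n + 1)) (x : Fin (n + 1) → ℤ) :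
    pjl P a (cq x) = cq (pj P a x) := by
  funext b
  simp only [pjl, cq, pj, mn, LinearMap.coe_mk, AddHom.coe_mk]
  push_cast
  ring

theorem Off.pj {n : ℕ} {Q : ι → Fin (n + 1) → ℤ} {i0 : ι} {a : Fin (n + 1)} (ha : Q i0 a ≠ 0)
    {s : Finset ι} {x : Fin (n + 1) → ℤ} (h : Off Q (insert i0 s) x) :
    Off (fun j => BP.pj (Q i0) a (Q j)) s (BP.pj (Q i0) a x) := by
  intro h1
  apply h
  have e1 : (fun j => cq (BP.pj (Q i0) a (Q j))) '' (s : Set ι) =
      (pjl (Q i0) a) '' ((fun j => cq (Q j)) '' (s : Set ι)) := by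
    rw [Set.image_image]
    simp only [pjl_cq]
  rw [e1, ← Submodule.map_span] at h1
  obtain ⟨y, hy, hyx⟩ := h1
  rw [← pjl_cq] at hyx
  have ha' : (Q i0 a : ℚ) ≠ 0 := by exact_mod_cast ha
  have h2 : cq x = y + ((cq x a - y a) / (Q i0 a : ℚ)) • cq (Q i0) := by
    funext b
    simp only [Pi.add_apply, Pi.smul_apply, smul_eq_mul]
    rcases eq_or_ne b a with rfl | hb
    · have : cq (Q i0) b = (Q i0 b : ℚ) := rfl
      rw [this, div_mul_cancel₀ _ ha']
      ring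
    · obtain ⟨e, rfl⟩ := Fin.exists_succAbove_eq hb
      have h3 := congrFun hyx e
      simp only [pjl, LinearMap.coe_mk, AddHom.coe_mk] at h3
      have e2 : cq (Q i0) (a.succAbove e) = (Q i0 (a.succAbove e) : ℚ) := rfl
      rw [e2]
      field_simp
      linarith
  rw [h2]
  refine Submodule.add_mem _ (Submodule.span_mono (Set.image_mono ?_) hy)
    (Submodule.smul_mem _ _ (Submodule.subset_span ⟨i0, ?_, rfl⟩))
  · rw [Finset.coe_insert]
    exact Set.subset_insert _ _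
  · rw [Finset.coe_insert]
    exact Set.mem_insert _ _

theorem geom_le {q : ℝ} (hq : 2 ≤ q) (K : ℕ) : ∑ i ∈ range (K + 1), q ^ i ≤ 2 * q ^ K := by
  induction K with
  | zero => simp
  | succ K ih =>
    rw [Finset.sum_range_succ, pow_succ]
    have : 0 < q ^ K := by positivity
    nlinarith

/-- **dyadic sum** -/
theorem sum_inv_le {α : Type} (A : Finset α) (h : α → ℝ) {Y Z ε : ℝ} (hY : 1 ≤ Y) (hZ : 0 ≤ Z)
    (hε : 0 ≤ ε) (h1 : ∀ t ∈ A, 1 ≤ h t) (h2 : ∀ t ∈ A, h t ≤ Y)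
    (h3 : ∀ y : ℝ, 1 ≤ y → y ≤ 2 * Y → ((A.filter fun t => h t ≤ y).card : ℝ) ≤ Z * y ^ (2 + ε)) :
    ∑ t ∈ A, 1 / h t ≤ 4 * Z * (2 * Y) ^ (1 + ε) := by
  classical
  obtain ⟨L, hL1, hL2⟩ := exists_nat_pow_near hY (one_lt_two : (1 : ℝ) < 2)
  have h4 : ∀ t ∈ A, 1 / h t ≤ ∑ i ∈ range (L + 1 + 1), if h t ≤ 2 ^ i then (2 : ℝ) / 2 ^ i else 0 := by
    intro t ht
    have hex : ∃ m : ℕ, h t ≤ 2 ^ m := ⟨L + 1, (h2 t ht).trans hL2.le⟩
    set m := Nat.find hex with hm
    have hm1 : h t ≤ 2 ^ m := Nat.find_spec hex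
    have hm2 : m ≤ L + 1 := Nat.find_min' hex ((h2 t ht).trans hL2.le)
    have hpos : 0 < h t := by linarith [h1 t ht]
    have h5 : 1 / h t ≤ (2 : ℝ) / 2 ^ m := by
      rcases Nat.eq_zero_or_pos m with h0 | h0
      · rw [h0, pow_zero, div_one]
        rw [div_le_iff₀ hpos]
        linarith [h1 t ht]
      · obtain ⟨k, hk⟩ := Nat.exists_eq_succ_of_ne_zero h0.ne'
        have h6 : ¬ h t ≤ 2 ^ k := Nat.find_min hex (by omega)
        push Not at h6
        rw [hk, pow_succ, div_le_div_iff₀ hpos (by positivity)]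
        linarith
    refine h5.trans ?_
    have h6 : (if h t ≤ 2 ^ m then (2 : ℝ) / 2 ^ m else 0) = (2 : ℝ) / 2 ^ m := if_pos hm1
    rw [← h6]
    refine Finset.single_le_sum (f := fun i => if h t ≤ 2 ^ i then (2 : ℝ) / 2 ^ i else 0) ?_
      (Finset.mem_range.2 (by omega))
    intro i _
    split_ifs <;> positivity
  refine (Finset.sum_le_sum h4).trans ?_
  rw [Finset.sum_comm]
  have h5 : ∀ i ∈ range (L + 1 + 1), ∑ t ∈ A, (if h t ≤ 2 ^ i then (2 : ℝ) / 2 ^ i else 0) ≤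
      2 * Z * ((2 : ℝ) ^ (1 + ε)) ^ i := by
    intro i hi
    rw [← Finset.sum_filter, Finset.sum_const, nsmul_eq_mul]
    have hi' : i ≤ L + 1 := by
      have := Finset.mem_range.1 hi
      omega
    have h6 := h3 (2 ^ i) (one_le_pow₀ one_le_two) ?_
    · have h7 : ((2 : ℝ) ^ i) ^ (2 + ε) = ((2 : ℝ) ^ (1 + ε)) ^ i * 2 ^ i := by
        have e1 : ((2 : ℝ) ^ i) ^ (2 + ε) = ((2 : ℝ) ^ i) ^ (1 + ε) * (2 : ℝ) ^ i := by
          rw [← Real.rpow_add_one (by positivity)]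
          congr 1
          ring
        rw [e1]
        congr 1
        rw [← Real.rpow_natCast, ← Real.rpow_natCast, ← Real.rpow_mul (by norm_num),
          ← Real.rpow_mul (by norm_num), mul_comm]
      rw [h7] at h6
      have h8 : (0 : ℝ) < 2 ^ i := by positivity
      calc ((A.filter fun t => h t ≤ 2 ^ i).card : ℝ) * (2 / 2 ^ i)
          ≤ Z * (((2 : ℝ) ^ (1 + ε)) ^ i * 2 ^ i) * (2 / 2 ^ i) :=
            mul_le_mul_of_nonneg_right h6 (by positivity)
        _ = 2 * Z * ((2 : ℝ) ^ (1 + ε)) ^ i := by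
            field_simp
    · calc (2 : ℝ) ^ i ≤ 2 ^ (L + 1) := pow_le_pow_right₀ one_le_two hi'
        _ = 2 * 2 ^ L := by rw [pow_succ]; ring
        _ ≤ 2 * Y := by linarith
  refine (Finset.sum_le_sum h5).trans ?_
  rw [← Finset.mul_sum]
  have hq : (2 : ℝ) ≤ (2 : ℝ) ^ (1 + ε) := by
    calc (2 : ℝ) = (2 : ℝ) ^ (1 : ℝ) := (Real.rpow_one _).symm
      _ ≤ _ := Real.rpow_le_rpow_of_exponent_le one_le_two (by linarith)
  have h6 := geom_le hq (L + 1)
  have h7 : ((2 : ℝ) ^ (1 + ε)) ^ (L + 1) ≤ (2 * Y) ^ (1 + ε) := by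
    rw [← Real.rpow_natCast, ← Real.rpow_mul (by norm_num), mul_comm (1 + ε),
      Real.rpow_mul (by norm_num), Real.rpow_natCast]
    refine Real.rpow_le_rpow (by positivity) ?_ (by linarith)
    rw [pow_succ]
    linarith
  calc 2 * Z * ∑ i ∈ range (L + 1 + 1), ((2 : ℝ) ^ (1 + ε)) ^ i
      ≤ 2 * Z * (2 * (2 * Y) ^ (1 + ε)) := by
        refine mul_le_mul_of_nonneg_left ?_ (by positivity)
        linarith
    _ = _ := by ring

end Pool.Agent.K1H71.BP
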