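import Pool.Agent.K1H71.BP.Claim4

/-!
# Counting the points with a large sum of exceptional heights, I (helper71)
-/

set_option autoImplicit false
set_option linter.unusedSectionVars false

namespace Pool.Agent.K1H71.BP

open Finset

theorem shift_inj {n r : ℕ} [NeZero r] (hn : n ≤ r) (s : Fin r) :
    Function.Injective (fun k : Fin n => s + Fin.castLE hn k) := fun _ _ h =>
  Fin.castLE_injective hn (add_left_cancel h)

theorem exists_shift {n r : ℕ} [NeZero r] (hn : n ≤ r) (e : Fin r → ℝ) :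
    ∃ s : Fin r, (n : ℝ) / r * ∑ j, e j ≤ ∑ k : Fin n, e (s + Fin.castLE hn k) := by
  by_contra hcon
  push Not at hcon
  have hr : (0 : ℝ) < r := by exact_mod_cast Nat.pos_of_ne_zero (NeZero.ne r)
  have h1 : ∑ s : Fin r, ∑ k : Fin n, e (s + Fin.castLE hn k) <
      ∑ _s : Fin r, (n : ℝ) / r * ∑ j, e j :=
    Finset.sum_lt_sum_of_nonempty ⟨0, mem_univ _⟩ fun s _ => hcon s
  rw [Finset.sum_comm] at h1
  have h2 : ∀ k : Fin n, ∑ s : Fin r, e (s + Fin.castLE hn k) = ∑ j, e j := fun k =>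
    Equiv.sum_comp (Equiv.addRight (Fin.castLE hn k)) e
  simp only [h2, Finset.sum_const, Finset.card_univ, Fintype.card_fin, nsmul_eq_mul] at h1
  have h3 : (r : ℝ) * ((n : ℝ) / r * ∑ j, e j) = n * ∑ j, e j := by
    field_simp
  rw [h3] at h1
  exact lt_irrefl _ h1

/-- the exponent -/
noncomputable def bet (n r : ℕ) (κ : ℝ) : ℝ :=
  max (max (n + 2 - n * κ) (3 - κ)) (2 - 2 * n * κ / r)

theorem class_bound {n r : ℕ} (hn : 1 ≤ n) (hr : n + 1 ≤ r) (Q : Fin r → Fin (n + 2) → ℤ)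
    (hQ : Gen n univ Q) {κ c0 c2 : ℝ} (hc0 : 0 < c0) (hc01 : c0 ≤ 1) (hc2 : 0 < c2)
    {ε : ℝ} (hε : 0 < ε) :
    ∃ C : ℝ, 0 < C ∧ ∀ T : ℝ, 1 ≤ T → ∀ e : Fin r → ℝ, (∀ j, 0 ≤ e j) →
      c2 * T ^ κ ≤ T ^ (∑ j, e j) → ∀ S : Finset (Fin (n + 2) → ℤ),
      (∀ x ∈ S, Pt n univ Q T (fun j => c0 * T ^ (e j)) x) →
      (S.card : ℝ) ≤ C * T ^ (bet n r κ + ε) := by
  classical
  haveI : NeZero r := ⟨by omega⟩
  haveI : NeZero n := ⟨by omega⟩
  have hnr : n ≤ r := by omega
  have hbd : ∀ s : Fin r, ∃ C : ℝ, 0 < C ∧ ∀ T : ℝ, 1 ≤ T →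
      ∀ E : Fin r → ℝ, (∀ j ∈ (univ : Finset (Fin r)), 0 < E j) →
      ∀ S : Finset (Fin (n + 2) → ℤ), (∀ x ∈ S, Pt n univ Q T E x) →
      (S.card : ℝ) ≤ C * T ^ (2 + ε) *
        ∏ k : Fin n, max ((E (s + Fin.castLE hnr k) ^ 2)⁻¹) (T / ∏ j ∈ univ, E j) := fun s =>
    claim n univ Q hQ _ (shift_inj hnr s) (fun _ => mem_univ _) ε hε
  choose Cs hCs hbd using hbd
  set C : ℝ := ∑ s, Cs s with hC
  have hCsC : ∀ s, Cs s ≤ C := fun s =>
    Finset.single_le_sum (f := Cs) (fun s _ => (hCs s).le) (mem_univ s)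
  have hC0 : 0 < C := (hCs 0).trans_le (hCsC 0)
  set L : ℝ := (c0⁻¹) ^ (r + 2) * (1 + c2⁻¹) with hL
  have hci : 1 ≤ c0⁻¹ := (one_le_inv₀ hc0).2 hc01
  have hL1 : 1 ≤ L := by
    have h1 : 1 ≤ (c0⁻¹) ^ (r + 2) := one_le_pow₀ hci
    have h2 : 0 < c2⁻¹ := by positivity
    rw [hL]
    nlinarith
  refine ⟨C * L ^ n * (1 + c2 ^ (-(2 * n / r : ℝ))), by positivity, ?_⟩
  intro T hT e he hσ S hS
  have hT0 : 0 < T := by linarith
  set σ : ℝ := ∑ j, e j with hσd
  -- the bound for each shift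
  have hkey : ∀ s : Fin r, (S.card : ℝ) ≤ C * L ^ n * T ^ (2 + ε) *
      ∏ k : Fin n, max (T ^ (-(2 * e (s + Fin.castLE hnr k)))) (T ^ (1 - κ)) := by
    intro s
    have h1 := hbd s T hT (fun j => c0 * T ^ (e j)) (fun j _ => by positivity) S hS
    refine h1.trans ?_
    have hprod : ∏ j : Fin r, (c0 * T ^ (e j)) = c0 ^ r * T ^ σ := by
      rw [Finset.prod_mul_distrib, Finset.prod_const, Finset.card_univ, Fintype.card_fin, hσd,
        Real.rpow_sum_of_pos hT0]
    have h2 : ∏ k : Fin n, max (((c0 * T ^ (e (s + Fin.castLE hnr k))) ^ 2)⁻¹)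
        (T / ∏ j ∈ univ, (c0 * T ^ (e j))) ≤
        L ^ n * ∏ k : Fin n, max (T ^ (-(2 * e (s + Fin.castLE hnr k)))) (T ^ (1 - κ)) := by
      refine prod_max_le _ _ (by positivity) (fun k => by positivity) (fun k => ?_)
        (fun k => by positivity)
      set ek := e (s + Fin.castLE hnr k) with hek
      have hm1 := le_max_left (T ^ (-(2 * ek))) (T ^ (1 - κ))
      have hm2 := le_max_right (T ^ (-(2 * ek))) (T ^ (1 - κ))
      refine max_le ?_ ?_
      · have h3 : ((c0 * T ^ ek) ^ 2)⁻¹ = (c0⁻¹) ^ 2 * T ^ (-(2 * ek)) := by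
          rw [mul_pow, mul_inv, inv_pow, ← Real.rpow_natCast (T ^ ek), ← Real.rpow_mul hT0.le,
            ← Real.rpow_neg hT0.le]
          congr 2
          push_cast
          ring
        rw [h3]
        refine mul_le_mul ?_ hm1 (by positivity) (by positivity)
        have h4 : (c0⁻¹) ^ 2 ≤ (c0⁻¹) ^ (r + 2) := pow_le_pow_right₀ hci (by omega)
        have h5 : 0 < c2⁻¹ := by positivity
        have h6 : 0 < (c0⁻¹) ^ (r + 2) := by positivity
        rw [hL]
        nlinarith
      · rw [hprod]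
        have h3 : T / (c0 ^ r * T ^ σ) ≤ T / (c0 ^ r * (c2 * T ^ κ)) := by
          refine div_le_div_of_nonneg_left hT0.le (by positivity) ?_
          exact mul_le_mul_of_nonneg_left hσ (by positivity)
        have h4 : T / (c0 ^ r * (c2 * T ^ κ)) = ((c0⁻¹) ^ r * c2⁻¹) * T ^ (1 - κ) := by
          rw [Real.rpow_sub hT0, Real.rpow_one, inv_pow]
          field_simp
        rw [h4] at h3
        refine h3.trans (mul_le_mul ?_ hm2 (by positivity) (by positivity))
        have h4 : (c0⁻¹) ^ r ≤ (c0⁻¹) ^ (r + 2) := pow_le_pow_right₀ hci (by omega)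
        have h5 : 0 < c2⁻¹ := by positivity
        have h6 : 0 < (c0⁻¹) ^ (r + 2) := by positivity
        rw [hL]
        nlinarith
    have hC0s := hCs s
    refine (mul_le_mul (mul_le_mul_of_nonneg_right (hCsC s) (by positivity)) h2
      (by positivity) (by positivity)).trans_eq ?_
    ring
  have hfin : ∀ (X b : ℝ), X ≤ (1 + c2 ^ (-(2 * n / r : ℝ))) * T ^ b → 2 + b ≤ bet n r κ →
      C * L ^ n * T ^ (2 + ε) * X ≤
        C * L ^ n * (1 + c2 ^ (-(2 * n / r : ℝ))) * T ^ (bet n r κ + ε) := by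
    intro X b hX hb
    calc C * L ^ n * T ^ (2 + ε) * X
        ≤ C * L ^ n * T ^ (2 + ε) * ((1 + c2 ^ (-(2 * n / r : ℝ))) * T ^ b) :=
          mul_le_mul_of_nonneg_left hX (by positivity)
      _ = C * L ^ n * (1 + c2 ^ (-(2 * n / r : ℝ))) * T ^ (2 + ε + b) := by
          rw [Real.rpow_add hT0 (2 + ε) b]
          ring
      _ ≤ _ := by
          refine mul_le_mul_of_nonneg_left ?_ (by positivity)
          exact Real.rpow_le_rpow_of_exponent_le hT (by linarith)
  have hcpos : 0 < c2 ^ (-(2 * n / r : ℝ)) := by positivity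
  have hexp1 : (n + 2 - n * κ : ℝ) ≤ bet n r κ := (le_max_left _ _).trans (le_max_left _ _)
  have hexp2 : (3 - κ : ℝ) ≤ bet n r κ := (le_max_right _ _).trans (le_max_left _ _)
  have hexp3 : (2 - 2 * n * κ / r : ℝ) ≤ bet n r κ := le_max_right _ _
  rcases le_or_gt κ 1 with hκ | hκ
  · -- case 1
    refine (hkey 0).trans (hfin _ (n * (1 - κ)) ?_ (by linarith))
    have h1 : ∏ k : Fin n, max (T ^ (-(2 * e (0 + Fin.castLE hnr k)))) (T ^ (1 - κ)) ≤
        ∏ _k : Fin n, T ^ (1 - κ) := by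
      refine Finset.prod_le_prod (fun k _ => by positivity) fun k _ => max_le ?_ le_rfl
      refine Real.rpow_le_rpow_of_exponent_le hT ?_
      have := he (0 + Fin.castLE hnr k)
      linarith
    refine h1.trans ?_
    rw [Finset.prod_const, Finset.card_univ, Fintype.card_fin, ← Real.rpow_natCast,
      ← Real.rpow_mul hT0.le, mul_comm (1 - κ)]
    have : 0 < T ^ ((n : ℝ) * (1 - κ)) := by positivity
    nlinarith
  · by_cases hbig : ∃ i, κ - 1 ≤ 2 * e i
    · -- case 2a
      obtain ⟨i, hi⟩ := hbig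
      refine (hkey i).trans (hfin _ (1 - κ) ?_ (by linarith))
      have hle1 : ∀ k : Fin n, max (T ^ (-(2 * e (i + Fin.castLE hnr k)))) (T ^ (1 - κ)) ≤ 1 := by
        intro k
        refine max_le (Real.rpow_le_one_of_one_le_of_nonpos hT ?_)
          (Real.rpow_le_one_of_one_le_of_nonpos hT (by linarith))
        have := he (i + Fin.castLE hnr k)
        linarith
      have h0 : max (T ^ (-(2 * e (i + Fin.castLE hnr (0 : Fin n))))) (T ^ (1 - κ)) ≤
          T ^ (1 - κ) := by
        refine max_le ?_ le_rfl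
        refine Real.rpow_le_rpow_of_exponent_le hT ?_
        have : i + Fin.castLE hnr (0 : Fin n) = i := by
          have : Fin.castLE hnr (0 : Fin n) = 0 := by
            apply Fin.ext
            simp
          rw [this, add_zero]
        rw [this]
        linarith
      have h1 : ∏ k : Fin n, max (T ^ (-(2 * e (i + Fin.castLE hnr k)))) (T ^ (1 - κ)) ≤
          T ^ (1 - κ) := by
        rw [← Finset.mul_prod_erase univ _ (mem_univ (0 : Fin n))]
        have h2 : ∏ k ∈ univ.erase (0 : Fin n),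
            max (T ^ (-(2 * e (i + Fin.castLE hnr k)))) (T ^ (1 - κ)) ≤ 1 :=
          Finset.prod_le_one (fun k _ => by positivity) fun k _ => hle1 k
        calc _ ≤ T ^ (1 - κ) * 1 := mul_le_mul h0 h2
              (Finset.prod_nonneg fun k _ => by positivity) (by positivity)
          _ = _ := mul_one _
      refine h1.trans ?_
      have : 0 < T ^ (1 - κ) := by positivity
      nlinarith
    · -- case 2b
      push Not at hbig
      obtain ⟨s, hs⟩ := exists_shift hnr e
      refine (hkey s).trans (hfin _ (-(2 * n * κ / r)) ?_ (by linarith))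
      have h1 : ∏ k : Fin n, max (T ^ (-(2 * e (s + Fin.castLE hnr k)))) (T ^ (1 - κ)) ≤
          ∏ k : Fin n, T ^ (-(2 * e (s + Fin.castLE hnr k))) := by
        refine Finset.prod_le_prod (fun k _ => by positivity) fun k _ => max_le le_rfl ?_
        refine Real.rpow_le_rpow_of_exponent_le hT ?_
        have := hbig (s + Fin.castLE hnr k)
        linarith
      refine h1.trans ?_
      rw [← Real.rpow_sum_of_pos hT0]
      have hr0 : (0 : ℝ) < r := by exact_mod_cast (show 0 < r by omega)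
      have h2 : ∑ k : Fin n, -(2 * e (s + Fin.castLE hnr k)) ≤ -(2 * n / r) * σ := by
        rw [Finset.sum_neg_distrib, ← Finset.mul_sum]
        have : (2 * n / r : ℝ) * σ = 2 * ((n : ℝ) / r * σ) := by ring
        linarith
      have h3 : T ^ (∑ k : Fin n, -(2 * e (s + Fin.castLE hnr k))) ≤ (T ^ σ) ^ (-(2 * n / r : ℝ)) := by
        rw [← Real.rpow_mul hT0.le]
        refine Real.rpow_le_rpow_of_exponent_le hT ?_
        linarith
      have h4 : (T ^ σ) ^ (-(2 * n / r : ℝ)) ≤ (c2 * T ^ κ) ^ (-(2 * n / r : ℝ)) := by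
        refine Real.rpow_le_rpow_of_nonpos (by positivity) hσ ?_
        have : (0 : ℝ) ≤ 2 * n / r := by positivity
        linarith
      have h5 : (c2 * T ^ κ) ^ (-(2 * n / r : ℝ)) =
          c2 ^ (-(2 * n / r : ℝ)) * T ^ (-(2 * n * κ / r)) := by
        rw [Real.mul_rpow hc2.le (by positivity), ← Real.rpow_mul hT0.le]
        congr 2
        ring
      refine (h3.trans h4).trans ?_
      rw [h5]
      have : 0 < T ^ (-(2 * n * κ / r)) := by positivity
      nlinarith

end Pool.Agent.K1H71.BP
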