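import Pool.Agent.K1H71.BP.Top

/-!
# Counting the points with a large sum of exceptional heights, II (helper71)
-/

set_option autoImplicit false
set_option linter.unusedSectionVars false

namespace Pool.Agent.K1H71.BP

open Finset

theorem eh_le_ht {m : Type} [Fintype m] {x y : m → ℤ} (h : ∃ a b, mn x y a b ≠ 0) :
    eh x y ≤ ht x := by
  have hw : (0 : ℝ) < wd x y := by exact_mod_cast wd_pos h
  have h1 : (gd x y : ℝ) ≤ wd x y := by exact_mod_cast gd_le_wd h
  unfold eh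
  rw [div_le_iff₀ hw]
  exact mul_le_mul_of_nonneg_left h1 (by positivity)

theorem one_le_eh {m : Type} [Fintype m] {x y : m → ℤ} (h : ∃ a b, mn x y a b ≠ 0) :
    1 ≤ 2 * ht y * eh x y := by
  have hw : (0 : ℝ) < wd x y := by exact_mod_cast wd_pos h
  have h1 : (wd x y : ℝ) ≤ 2 * ht x * ht y := by exact_mod_cast wd_le_ht x y
  have h2 : (1 : ℝ) ≤ gd x y := by exact_mod_cast gd_pos h
  unfold eh
  rw [mul_div_assoc', le_div_iff₀ hw, one_mul]
  have h3 : (0 : ℝ) ≤ 2 * ht x * ht y := by positivity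
  nlinarith

/-- the points counted -/
structure Vio (n r : ℕ) (Q : Fin r → Fin (n + 2) → ℤ) (κ c2 : ℝ) (x : Fin (n + 2) → ℤ) :
    Prop where
  pr : Pr x
  off : ∀ s : Finset (Fin r), s.card = n + 1 → Off Q s x
  ge : c2 * (ht x : ℝ) ^ κ ≤ ∏ j, eh x (Q j)

theorem Vio.mn_ne {n r : ℕ} (hn : 1 ≤ n) {Q : Fin r → Fin (n + 2) → ℤ} (hQ : Gen n univ Q)
    {κ c2 : ℝ} {x : Fin (n + 2) → ℤ} (h : Vio n r Q κ c2 x) (j : Fin r) :
    ∃ b d, mn x (Q j) b d ≠ 0 := by
  obtain ⟨k, rfl⟩ := Nat.exists_eq_add_of_le' hn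
  obtain ⟨s, hks, hs, hsc⟩ := Finset.exists_subsuperset_card_eq
    (Finset.singleton_subset_iff.2 (mem_univ j)) (by simp) (show k + 1 + 1 ≤ _ from hQ.card)
  exact (h.off s hsc).mn_ne (Finset.singleton_subset_iff.1 hks) (hQ.ne_zero (mem_univ j))

theorem bet_le {n r : ℕ} (hn : 1 ≤ n) (hr : n + 1 ≤ r) {κ η : ℝ} (hη : 0 ≤ η) :
    bet n r (κ - η * r) ≤ bet n r κ + (n + 2) * r * η := by
  have hexp1 : (n + 2 - n * κ : ℝ) ≤ bet n r κ := (le_max_left _ _).trans (le_max_left _ _)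
  have hexp2 : (3 - κ : ℝ) ≤ bet n r κ := (le_max_right _ _).trans (le_max_left _ _)
  have hexp3 : (2 - 2 * n * κ / r : ℝ) ≤ bet n r κ := le_max_right _ _
  have hr0 : (0 : ℝ) < r := by exact_mod_cast (show 0 < r by omega)
  have hr1 : (2 : ℝ) ≤ r := by exact_mod_cast (show 2 ≤ r by omega)
  have hn1 : (1 : ℝ) ≤ n := by exact_mod_cast hn
  have h0 : 0 ≤ η * r := by positivity
  have hnη : 0 ≤ (n : ℝ) * (r * η) := by positivity
  refine max_le (max_le ?_ ?_) ?_
  · nlinarith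
  · nlinarith
  · have e1 : (2 - 2 * n * (κ - η * r) / r : ℝ) = 2 - 2 * n * κ / r + 2 * n * η := by
      field_simp
      ring
    rw [e1]
    have h2 : 2 * (n : ℝ) * η ≤ r * (n * η) := by
      have : 0 ≤ (n : ℝ) * η := by positivity
      nlinarith
    nlinarith

theorem shell_bound {n r : ℕ} (hn : 1 ≤ n) (hr : n + 1 ≤ r) (Q : Fin r → Fin (n + 2) → ℤ)
    (hQ : Gen n univ Q) {κ c2 : ℝ} (hκ : 0 ≤ κ) (hc2 : 0 < c2) {ε : ℝ} (hε : 0 < ε) :
    ∃ C : ℝ, 0 < C ∧ ∀ T : ℝ, 2 ≤ T → ∀ S : Finset (Fin (n + 2) → ℤ),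
      (∀ x ∈ S, Vio n r Q κ c2 x ∧ T / 2 ≤ ht x ∧ (ht x : ℝ) ≤ T) →
      (S.card : ℝ) ≤ C * T ^ (bet n r κ + ε) := by
  classical
  have hr0 : (0 : ℝ) < r := by exact_mod_cast (show 0 < r by omega)
  set η : ℝ := ε / (2 * ((n + 2) * r)) with hη
  have hη0 : 0 < η := by positivity
  have hηε : (n + 2) * r * η = ε / 2 := by
    rw [hη]
    field_simp
  set c0 : ℝ := (1 + ∑ j, 2 * (ht (Q j) : ℝ))⁻¹ with hc0d
  have hsum0 : 0 ≤ ∑ j, 2 * (ht (Q j) : ℝ) := Finset.sum_nonneg fun j _ => by positivity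
  have hc0 : 0 < c0 := by positivity
  have hc01 : c0 ≤ 1 := inv_le_one_of_one_le₀ (by linarith)
  set c3 : ℝ := c2 * 2 ^ (-κ) with hc3d
  have hc3 : 0 < c3 := by positivity
  obtain ⟨C, hC, hcb⟩ := class_bound hn hr Q hQ (κ := κ - η * r) hc0 hc01 hc3
    (show 0 < ε / 2 by positivity)
  set K : ℕ := ⌊1 / η⌋₊ with hK
  refine ⟨(K + 1) ^ r * C, by positivity, ?_⟩
  intro T hT S hS
  have hT0 : 0 < T := by linarith
  have hT1 : 1 ≤ T := by linarith
  have hlT : 0 < Real.log T := Real.log_pos (by linarith)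
  set ex : (Fin (n + 2) → ℤ) → Fin r → ℝ := fun x j => max 1 (eh x (Q j)) with hex
  have hex1 : ∀ x j, 1 ≤ ex x j := fun x j => le_max_left _ _
  set φ : (Fin (n + 2) → ℤ) → Fin r → ℕ := fun x j => ⌊Real.log (ex x j) / (η * Real.log T)⌋₊
    with hφ
  have hφ1 : ∀ x j, T ^ (η * φ x j) ≤ ex x j := by
    intro x j
    have h1 : (φ x j : ℝ) ≤ Real.log (ex x j) / (η * Real.log T) := Nat.floor_le (by
      have := Real.log_nonneg (hex1 x j)
      positivity)
    rw [le_div_iff₀ (by positivity)] at h1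
    rw [Real.rpow_def_of_pos hT0, ← Real.le_log_iff_exp_le (by linarith [hex1 x j])]
    linarith
  have hφ2 : ∀ x j, ex x j ≤ T ^ (η * (φ x j + 1)) := by
    intro x j
    have h1 : Real.log (ex x j) / (η * Real.log T) < φ x j + 1 := Nat.lt_floor_add_one _
    rw [div_lt_iff₀ (by positivity)] at h1
    rw [Real.rpow_def_of_pos hT0, ← Real.log_le_iff_le_exp (by linarith [hex1 x j])]
    linarith
  set 𝒢 : Finset (Fin r → ℕ) := Fintype.piFinset fun _ => range (K + 1) with h𝒢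
  have hmaps : ∀ x ∈ S, φ x ∈ 𝒢 := by
    intro x hx
    rw [h𝒢, Fintype.mem_piFinset]
    intro j
    rw [mem_range]
    have h1 : ex x j ≤ T := max_le hT1 ((eh_le_ht ((hS x hx).1.mn_ne hn hQ j)).trans (hS x hx).2.2)
    have h2 : Real.log (ex x j) ≤ Real.log T := Real.log_le_log (by linarith [hex1 x j]) h1
    have h3 : φ x j ≤ K := by
      refine Nat.floor_le_floor ?_
      rw [div_le_div_iff₀ (by positivity) hη0]
      nlinarith
    omega
  have hclass : ∀ k ∈ 𝒢, (((S.filter fun x => φ x = k).card : ℕ) : ℝ) ≤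
      C * T ^ (bet n r κ + ε) := by
    intro k _
    rcases (S.filter fun x => φ x = k).eq_empty_or_nonempty with h0 | ⟨x0, hx0⟩
    · rw [h0]
      simp only [Finset.card_empty, Nat.cast_zero]
      positivity
    have h1 := hcb T hT1 (fun j => η * k j) (fun j => by positivity) ?_
      (S.filter fun x => φ x = k) ?_
    · refine h1.trans (mul_le_mul_of_nonneg_left ?_ hC.le)
      refine Real.rpow_le_rpow_of_exponent_le hT1 ?_
      have := bet_le hn hr (κ := κ) hη0.le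
      rw [hηε] at this
      linarith
    · rw [mem_filter] at hx0
      obtain ⟨hx0S, hx0k⟩ := hx0
      obtain ⟨hv, hlo, hup⟩ := hS x0 hx0S
      have h2 : ∏ j, eh x0 (Q j) ≤ ∏ j, T ^ (η * (k j + 1)) := by
        refine Finset.prod_le_prod (fun j _ => eh_nonneg _ _) fun j _ => ?_
        have h3 := hφ2 x0 j
        rw [hx0k] at h3
        exact (le_max_right _ _).trans h3
      rw [← Real.rpow_sum_of_pos hT0] at h2
      have h3 : ∑ j, η * ((k j : ℝ) + 1) = ∑ j, η * (k j : ℝ) + η * r := by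
        simp only [mul_add, Finset.sum_add_distrib, mul_one, Finset.sum_const, Finset.card_univ,
          Fintype.card_fin, nsmul_eq_mul]
        ring
      rw [h3, Real.rpow_add hT0] at h2
      have h4 : (T / 2) ^ κ ≤ (ht x0 : ℝ) ^ κ := Real.rpow_le_rpow (by positivity) hlo hκ
      have h5 : (T / 2) ^ κ = T ^ κ * 2 ^ (-κ) := by
        rw [Real.div_rpow hT0.le (by norm_num), Real.rpow_neg (by norm_num)]
        rfl
      have h6 : c3 * T ^ κ ≤ T ^ (∑ j, η * (k j : ℝ)) * T ^ (η * r) := by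
        calc c3 * T ^ κ = c2 * (T / 2) ^ κ := by
              rw [hc3d, h5]
              ring
          _ ≤ c2 * (ht x0 : ℝ) ^ κ := mul_le_mul_of_nonneg_left h4 hc2.le
          _ ≤ _ := hv.ge.trans h2
      rw [Real.rpow_sub hT0, mul_div_assoc', div_le_iff₀ (by positivity)]
      exact h6
    · intro x hx
      rw [mem_filter] at hx
      obtain ⟨hxS, hxk⟩ := hx
      obtain ⟨hv, hlo, hup⟩ := hS x hxS
      refine ⟨hv.pr, hup, fun s _ hs => hv.off s hs, fun j _ => ?_⟩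
      have h3 := hφ1 x j
      rw [hxk] at h3
      have h4 := one_le_eh (hv.mn_ne hn hQ j)
      have h5 : c0 ≤ eh x (Q j) := by
        have h6 : (0 : ℝ) ≤ eh x (Q j) := eh_nonneg _ _
        have h7 : 2 * (ht (Q j) : ℝ) ≤ 1 + ∑ j, 2 * (ht (Q j) : ℝ) := by
          have := Finset.single_le_sum (f := fun j => 2 * (ht (Q j) : ℝ))
            (fun j _ => by positivity) (mem_univ j)
          linarith
        rw [hc0d, inv_le_iff_one_le_mul₀ (by linarith)]
        nlinarith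
      calc c0 * T ^ (η * (k j : ℝ)) ≤ c0 * max 1 (eh x (Q j)) :=
            mul_le_mul_of_nonneg_left h3 hc0.le
        _ ≤ eh x (Q j) := by
            rcases le_total 1 (eh x (Q j)) with h6 | h6
            · rw [max_eq_right h6]
              nlinarith
            · rw [max_eq_left h6, mul_one]
              exact h5
  rw [Finset.card_eq_sum_card_fiberwise (f := φ) (s := S) (t := 𝒢) (by
    intro x hx
    exact hmaps x hx), Nat.cast_sum]
  refine (Finset.sum_le_sum hclass).trans_eq ?_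
  rw [Finset.sum_const, nsmul_eq_mul, h𝒢, Fintype.card_piFinset, Finset.prod_const,
    Finset.card_univ, Fintype.card_fin, card_range]
  push_cast
  ring

/-- **the counting theorem** -/
theorem total_bound {n r : ℕ} (hn : 1 ≤ n) (hr : n + 1 ≤ r) (Q : Fin r → Fin (n + 2) → ℤ)
    (hQ : Gen n univ Q) {κ c2 : ℝ} (hκ : 0 ≤ κ) (hc2 : 0 < c2) {ε : ℝ} (hε : 0 < ε) :
    ∃ C : ℝ, 0 < C ∧ ∀ B : ℝ, 1 ≤ B → ∀ S : Finset (Fin (n + 2) → ℤ),
      (∀ x ∈ S, Vio n r Q κ c2 x ∧ (ht x : ℝ) ≤ B) →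
      (S.card : ℝ) ≤ C * B ^ (max (bet n r κ) 0 + ε) := by
  classical
  obtain ⟨C, hC, hsh⟩ := shell_bound hn hr Q hQ hκ hc2 hε
  set b : ℝ := max (bet n r κ) 0 + ε with hb
  have hb0 : 0 < b := by
    have := le_max_right (bet n r κ) 0
    rw [hb]
    linarith
  have hbb : bet n r κ + ε ≤ b := by
    have := le_max_left (bet n r κ) 0
    rw [hb]
    linarith
  set q : ℝ := (2 : ℝ) ^ b with hq
  have hq1 : 1 < q := Real.one_lt_rpow (by norm_num) hb0
  have hq0 : 0 < q := by linarith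
  refine ⟨C * q * (q / (q - 1)), by
    have : 0 < q - 1 := by linarith
    positivity, ?_⟩
  intro B hB S hS
  set L : ℕ := Nat.log 2 ⌊B⌋₊ with hL
  have hfB : ⌊B⌋₊ ≠ 0 := by
    have : 1 ≤ ⌊B⌋₊ := Nat.le_floor (by simpa using hB)
    omega
  have hLB : (2 : ℝ) ^ L ≤ B := by
    have h1 : 2 ^ L ≤ ⌊B⌋₊ := Nat.pow_log_le_self 2 hfB
    have h2 : ((2 ^ L : ℕ) : ℝ) ≤ ⌊B⌋₊ := by exact_mod_cast h1
    push_cast at h2
    exact h2.trans (Nat.floor_le (by linarith))
  have hmaps : ∀ x ∈ S, Nat.log 2 (ht x) ∈ range (L + 1) := by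
    intro x hx
    rw [mem_range]
    have h1 : ht x ≤ ⌊B⌋₊ := Nat.le_floor (hS x hx).2
    have h2 : Nat.log 2 (ht x) ≤ L := Nat.log_mono_right h1
    omega
  have hone : ∀ x ∈ S, ht x ≠ 0 := by
    intro x hx
    have h1 : (1 : ℤ) ≤ ht x := one_le_ht (ne_zero_of_prim (hS x hx).1.pr)
    intro h0
    rw [h0] at h1
    norm_num at h1
  have hshell : ∀ i ∈ range (L + 1), (((S.filter fun x => Nat.log 2 (ht x) = i).card : ℕ) : ℝ) ≤
      C * q * q ^ i := by
    intro i _
    have h1 := hsh (2 ^ (i + 1)) (by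
      rw [pow_succ]
      have : (1 : ℝ) ≤ 2 ^ i := one_le_pow₀ (by norm_num)
      linarith) (S.filter fun x => Nat.log 2 (ht x) = i) (by
        intro x hx
        rw [mem_filter] at hx
        refine ⟨(hS x hx.1).1, ?_, ?_⟩
        · have h2 : 2 ^ i ≤ ht x := by
            rw [← hx.2]
            exact Nat.pow_log_le_self 2 (hone x hx.1)
          have h3 : ((2 ^ i : ℕ) : ℝ) ≤ ht x := by exact_mod_cast h2
          push_cast at h3
          rw [pow_succ]
          linarith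
        · have h2 : ht x < 2 ^ (i + 1) := by
            rw [← hx.2]
            exact Nat.lt_pow_succ_log_self (by norm_num) _
          have h3 : (ht x : ℝ) ≤ ((2 ^ (i + 1) : ℕ) : ℝ) := by exact_mod_cast h2.le
          push_cast at h3
          exact h3)
    refine h1.trans ?_
    have h2 : ((2 : ℝ) ^ (i + 1)) ^ (bet n r κ + ε) ≤ ((2 : ℝ) ^ (i + 1)) ^ b :=
      Real.rpow_le_rpow_of_exponent_le (one_le_pow₀ (by norm_num)) hbb
    have h3 : ((2 : ℝ) ^ (i + 1)) ^ b = q * q ^ i := by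
      rw [hq, ← Real.rpow_natCast, ← Real.rpow_mul (by norm_num), mul_comm, Real.rpow_mul
        (by norm_num), Real.rpow_natCast, pow_succ]
      ring
    rw [h3] at h2
    calc C * ((2 : ℝ) ^ (i + 1)) ^ (bet n r κ + ε) ≤ C * (q * q ^ i) :=
          mul_le_mul_of_nonneg_left h2 hC.le
      _ = _ := by ring
  rw [Finset.card_eq_sum_card_fiberwise (f := fun x => Nat.log 2 (ht x)) (s := S)
    (t := range (L + 1)) (by
    intro x hx
    exact hmaps x hx), Nat.cast_sum]
  refine (Finset.sum_le_sum hshell).trans ?_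
  rw [← Finset.mul_sum]
  have hgeo : ∑ i ∈ range (L + 1), q ^ i ≤ q / (q - 1) * q ^ L := by
    have h1 := geom_sum_mul q (L + 1)
    have h2 : 0 < q - 1 := by linarith
    rw [div_mul_eq_mul_div, le_div_iff₀ h2, h1, pow_succ]
    linarith
  have hqL : q ^ L ≤ B ^ b := by
    rw [hq, ← Real.rpow_natCast, ← Real.rpow_mul (by norm_num), mul_comm b, Real.rpow_mul
      (by norm_num), Real.rpow_natCast]
    exact Real.rpow_le_rpow (by positivity) hLB hb0.le
  have hpos : 0 ≤ q / (q - 1) := by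
    have : 0 < q - 1 := by linarith
    positivity
  calc C * q * ∑ i ∈ range (L + 1), q ^ i ≤ C * q * (q / (q - 1) * B ^ b) := by
        refine mul_le_mul_of_nonneg_left (hgeo.trans ?_) (by positivity)
        exact mul_le_mul_of_nonneg_left hqL hpos
    _ = _ := by ring

end Pool.Agent.K1H71.BP
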